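import Pool.Agent.H69P.AProg

/-!
# Functions computed by programs with number variables and two stacks of numbers
-/

set_option autoImplicit false

namespace LSP

open H85L Function

variable {κ : Kind}

/-- single-valued computations -/
structure ARuns (L : ℕ) (P : AProg κ) (R : ℕ → ℕ) (A : Bool → List ℕ) (R' : ℕ → ℕ)
    (A' : Bool → List ℕ) (τ : ℕ) : Prop where
  bd : ABd L P R A τ
  ex : ARes P R A R' A'
  un : ∀ R'' A'', ARes P R A R'' A'' → R'' = R' ∧ A'' = A'

section
variable {L L' : ℕ} {R R' R1 R2 : ℕ → ℕ} {A A' A1 A2 : Bool → List ℕ} {τ τ' T1 T2 : ℕ}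

theorem ARuns.mono {P : AProg κ} (h : ARuns L P R A R' A' τ) (hL : L ≤ L') (hτ : τ ≤ τ') :
    ARuns L' P R A R' A' τ' := ⟨.mono hτ (h.bd.mono_L hL), h.ex, h.un⟩

theorem ARuns.monoT {P : AProg κ} (h : ARuns L P R A R' A' τ) (hτ : τ ≤ τ') :
    ARuns L P R A R' A' τ' := h.mono le_rfl hτ

theorem ARuns.num {P : NProg κ} (h : NRuns L P R R' τ) (A : Bool → List ℕ) :
    ARuns L (.num P) R A R' A τ := by
  refine ⟨.num h.bd, .num A h.ex, fun R'' A'' hr => ?_⟩
  cases hr with
  | num _ a => exact ⟨h.un _ a, rfl⟩

theorem ARuns.psh (s : Bool) (i : ℕ) :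
    ARuns (κ := κ) L (.psh s i) R A R (update A s (R i :: A s)) 1 := by
  refine ⟨.psh, .psh s i R A, fun R'' A'' hr => ?_⟩
  cases hr
  exact ⟨rfl, rfl⟩

theorem ARuns.pop (s : Bool) (i : ℕ) (h : Nat.size ((A s).headD 0) ≤ L) :
    ARuns (κ := κ) L (.pop s i) R A (update R i ((A s).headD 0)) (update A s (A s).tail) 1 := by
  refine ⟨.pop h, .pop s i R A, fun R'' A'' hr => ?_⟩
  cases hr
  exact ⟨rfl, rfl⟩

theorem ARuns.seq {P Q : AProg κ} (h1 : ARuns L P R A R1 A1 T1) (h2 : ARuns L Q R1 A1 R2 A2 T2) :
    ARuns L (.seq P Q) R A R2 A2 (T1 + T2 + 1) := by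
  refine ⟨.seq h1.bd fun R' A' hr => ?_, .seq h1.ex h2.ex, fun R'' A'' hr => ?_⟩
  · obtain ⟨e1, e2⟩ := h1.un _ _ hr
    rw [e1, e2]
    exact h2.bd
  · cases hr with
    | seq a b =>
      obtain ⟨e1, e2⟩ := h1.un _ _ a
      rw [e1, e2] at b
      exact h2.un _ _ b

theorem ARuns.loop0 {i : ℕ} {P : AProg κ} (hi : R i = 0) : ARuns L (.loop i P) R A R A 1 := by
  refine ⟨.loop0 hi, .loop0 hi, fun R'' A'' hr => ?_⟩
  cases hr with
  | loop0 _ => exact ⟨rfl, rfl⟩
  | loop1 b _ _ => exact absurd hi b

theorem ARuns.loop1 {i : ℕ} {P : AProg κ} (hi : R i ≠ 0) (h1 : ARuns L P R A R1 A1 T1)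
    (h2 : ARuns L (.loop i P) R1 A1 R2 A2 T2) : ARuns L (.loop i P) R A R2 A2 (T1 + T2 + 1) := by
  refine ⟨.loop1 hi h1.bd fun R' A' hr => ?_, .loop1 hi h1.ex h2.ex, fun R'' A'' hr => ?_⟩
  · obtain ⟨e1, e2⟩ := h1.un _ _ hr
    rw [e1, e2]
    exact h2.bd
  · cases hr with
    | loop0 b => exact absurd b hi
    | loop1 _ a b =>
      obtain ⟨e1, e2⟩ := h1.un _ _ a
      rw [e1, e2] at b
      exact h2.un _ _ b

theorem ARuns.loopN {i : ℕ} {P : AProg κ} (m : ℕ → ℕ → ℕ) (a : ℕ → Bool → List ℕ) (n T : ℕ)
    (hend : m n i = 0) (hne : ∀ j < n, m j i ≠ 0)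
    (h : ∀ j < n, ARuns L P (m j) (a j) (m (j + 1)) (a (j + 1)) T) :
    ARuns L (.loop i P) (m 0) (a 0) (m n) (a n) (n * (T + 1) + 1) := by
  induction n generalizing m a with
  | zero => exact (ARuns.loop0 hend).monoT (by omega)
  | succ n ih =>
    have h2 := ih (fun j => m (j + 1)) (fun j => a (j + 1)) hend (fun j hj => hne (j + 1) (by omega))
      (fun j hj => h (j + 1) (by omega))
    exact (ARuns.loop1 (hne 0 (by omega)) (h 0 (by omega)) h2).monoT (by
      rw [Nat.succ_mul]
      omega)

/-- `P 0, ..., P (n - 1)` -/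
def aseqN (P : ℕ → AProg κ) : ℕ → AProg κ
  | 0 => .num nskip
  | n + 1 => .seq (aseqN P n) (P n)

theorem aseqN_det {P : ℕ → AProg κ} {n : ℕ} (h : ∀ j < n, (P j).Det) : (aseqN P n).Det := by
  induction n with
  | zero => trivial
  | succ n ih => exact ⟨ih fun j hj => h j (by omega), h n (by omega)⟩

theorem aseqN_uses {P : ℕ → AProg κ} {n M : ℕ} (hM : 0 < M) (h : ∀ j < n, (P j).Uses M) :
    (aseqN P n).Uses M := by
  induction n with
  | zero => exact ⟨fun _ => hM, hM⟩
  | succ n ih => exact ⟨ih fun j hj => h j (by omega), h n (by omega)⟩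

theorem ARuns.seqN (P : ℕ → AProg κ) (m : ℕ → ℕ → ℕ) (a : ℕ → Bool → List ℕ) (n T : ℕ)
    (h0 : Nat.size (m 0 0) ≤ L) (h : ∀ j < n, ARuns L (P j) (m j) (a j) (m (j + 1)) (a (j + 1)) T) :
    ARuns L (aseqN P n) (m 0) (a 0) (m n) (a n) (n * (T + 1) + 1) := by
  induction n with
  | zero => exact (ARuns.num (runs_nskip h0) _).monoT (by omega)
  | succ n ih =>
    exact ((ih fun j hj => h j (by omega)).seq (h n (by omega))).monoT (by
      rw [Nat.succ_mul]
      omega)

end

theorem fin_bound {k M s L T0 f C S : ℕ} (hS : 1 ≤ S) (hk : k ≤ C * S) (hM : M ≤ C * S)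
    (hs : s ≤ L) (hL : L ≤ C * S) (hT : T0 ≤ 2 ^ (2 * C * S)) (hf : f ≤ L) :
    k * (4 * s + 3 + 1) + M * (2 * L + 1 + 1) + 5 * T0 + 4 * f + 8 * L + 40 ≤
      2 ^ ((5 * C + 80) * S) := by
  have e1 : (5 * C + 80) * S = C * S + C * S + (C * S + C * S + C * S) + 80 * S := by ring
  have e2 : 2 * C * S = C * S + C * S := by ring
  have e3 : C * S < 2 ^ (C * S) := Nat.lt_two_pow_self
  have e4 : 80 * S < 2 ^ (80 * S) := Nat.lt_two_pow_self
  have e5 : 1 ≤ 2 ^ (C * S) := Nat.one_le_two_pow
  rw [e1, pow_add, pow_add, pow_add, pow_add, pow_add]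
  rw [e2, pow_add] at hT
  generalize 2 ^ (C * S) = X at *
  generalize 2 ^ (80 * S) = Y at *
  have g1 : k * (4 * s + 3 + 1) ≤ X * (8 * X) := Nat.mul_le_mul (by omega) (by omega)
  have g2 : M * (2 * L + 1 + 1) ≤ X * (4 * X) := Nat.mul_le_mul (by omega) (by omega)
  have g6 : X ≤ X * X := Nat.le_mul_of_pos_left _ (by omega)
  have g7 : X * X ≤ X * X * (X * X * X) := Nat.le_mul_of_pos_right _ (by positivity)
  have g8 : X * X * (X * X * X) * 80 ≤ X * X * (X * X * X) * Y :=
    Nat.mul_le_mul_left _ (by omega)
  have g9 : X * (8 * X) = 8 * (X * X) := by ring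
  have g10 : X * (4 * X) = 4 * (X * X) := by ring
  omega

/-- A function is computed (for a kind with time bounds) if a program with number variables and two
stacks of numbers computes it: the arguments are the variables `0, ..., k - 1`, the result is the variable
`k`, and `M` variables are used. -/
theorem Cmp.of_aprog {k : ℕ} {F : (Fin k → ℕ) → ℕ} (hκ : κ.time = true) (P : AProg κ) (M : ℕ)
    (hP : P.Uses M) (hkM : k < M) (hdet : κ.det = true → P.Det) (c : ℕ)
    (h : ∀ (a : Fin k → ℕ) (R : ℕ → ℕ), (∀ i : Fin k, R i = a i) →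
      (∀ i, k ≤ i → i < M → R i = 0) → ∃ R' A',
      ARuns (c * (sz a + 1)) P R (fun _ => []) R' A' (2 ^ (c * (sz a + 1))) ∧ R' k = F a) :
    Cmp κ F := by
  intro Δ
  obtain ⟨p, hp⟩ := AProg.compile (Δ := Δ) P hP
  obtain ⟨cp, hcp⟩ := hp.bd
  set N := k + 2 with hN
  -- the program
  set ent : Prog Δ := seqs ((List.range k).map fun j => cpy (j + 1) (N + (5 + (j + 1))) N) with hent
  set cln : Prog Δ := seqs ((List.range M).map fun j => clr (N + (5 + (j + 1)))) with hcln
  set W : Prog Δ := .seq ent (.seq (p.shift N) (.seq (mov (N + (5 + (k + 1))) (k + 1) N)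
    (.seq cln (.seq (clr (N + 1)) (clr (N + 2)))))) with hW
  refine ⟨W, fun hd => ⟨seqs_det ?_, shift_det N (hp.det hd (hdet hd)), mov_det _ _ _, seqs_det ?_,
    clr_det _, clr_det _⟩, ?_⟩
  · intro q hq
    rw [List.mem_map] at hq
    obtain ⟨j, -, rfl⟩ := hq
    exact cpy_det _ _ _
  · intro q hq
    rw [List.mem_map] at hq
    obtain ⟨j, -, rfl⟩ := hq
    exact clr_det _
  set C := c + cp * (c + 1) + 10 * M + 10 * k + 60 with hC
  refine ⟨5 * C + 80, fun v a => ?_⟩
  set R : ℕ → ℕ := fun i => if h : i < k then a ⟨i, h⟩ else 0 with hR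
  obtain ⟨R', A', hrun, hF⟩ := h a R (fun i => by rw [hR]; simp) (fun i hi _ => by
    rw [hR]; simp only; rw [dif_neg (by omega)])
  set S := sz a + 1 with hS
  set L := (c + 1) * S with hL
  have hLs : sz a ≤ L := by rw [hL]; nlinarith
  have hLc : c * S ≤ L := by rw [hL]; nlinarith
  have hsR : ∀ i < M, Nat.size (R i) ≤ L := by
    intro i _
    rw [hR]
    simp only
    split_ifs with h1
    · exact (size_le_sz a _).trans hLs
    · simp
  have hrun' := hrun.mono (L' := L) hLc le_rfl
  have hm0 : ∀ i, (memA M R (fun _ => []) i).length ≤ L := by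
    intro i
    by_cases hi : i < 5
    · unfold memA
      rw [glue_lo hi]
      unfold lowA
      split_ifs <;> simp [blk]
    · unfold memA glue
      rw [if_neg hi]
      exact memN_len hsR _
  -- the time of the program
  set T0 := 2 ^ (c * S) * 2 ^ (cp * (L + 1)) with hT0
  have hbd0 := hcp (fun _ => v (regs a 0 0)) L L R (fun _ => []) _ hsR hrun'.bd hm0
  have hpr : ∀ s' t, Res (fun _ => v (regs a 0 0)) p (memA M R fun _ => []) s' t →
      s' = memA M R' A' := by
    intro s' t hr
    obtain ⟨R'', A'', rfl, h2⟩ := hp.snd _ _ _ _ _ hr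
    obtain ⟨rfl, rfl⟩ := hrun.un _ _ h2
    rfl
  have hruns0 : Runs (fun _ => v (regs a 0 0)) (L + T0) p (memA M R fun _ => []) (memA M R' A')
      T0 := ⟨hbd0, hp.cpl _ _ _ _ _ hrun.ex, hpr⟩
  obtain ⟨t0, ht0⟩ := hruns0.ex
  have hm1 : ∀ i, (memA M R' A' i).length ≤ L + T0 := len_after hbd0 ht0 hm0
  have hsR' := hrun'.bd.sizes (M := M) R' A' hrun.ex hsR
  set B := L + T0 with hB
  have hreg : ∀ i, (regs a 0 i).length ≤ B := fun i => by
    have := regs_len a 0 i
    simp only [Nat.size_zero, add_zero] at this
    omega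
  -- copying the arguments
  have h1 := Runs.seqsN (v := v) (B := B) (n := k) (fun j => cpy (j + 1) (N + (5 + (j + 1))) N)
    (fun j => glue N (regs a 0) (memA M (fun i => if i < j then R i else 0) fun _ => []))
    (4 * sz a + 3)
    (fun i => by
      refine glue_le hreg (fun i => ?_) i
      by_cases hi : i < 5
      · unfold memA
        rw [glue_lo hi]
        unfold lowA
        split_ifs <;> simp [blk]
      · unfold memA glue
        rw [if_neg hi]
        refine (memN_len (L := L) (fun i hi => ?_) _).trans (by omega)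
        by_cases hik : i < k
        · rw [if_pos hik]; exact hsR i hi
        · rw [if_neg hik]; simp) (fun j hj => by
      have hr : regs a 0 (j + 1) = Nat.bits (R j) := by
        have h7 := regs_arg a 0 ⟨j, hj⟩
        have h8 : R j = a ⟨j, hj⟩ := by
          rw [hR]
          exact dif_pos hj
        rw [h8]
        exact h7
      have h2 := runs_cpy (v := v) (B := B)
        (s := glue N (regs a 0) (memA M (fun i => if i < j then R i else 0) fun _ => [])) (j + 1)
        (N + (5 + (j + 1))) N (by omega) (by omega) (by omega)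
        (by
          rw [glue_hi, memA_var (by omega)]
          show Nat.bits (if j < j then R j else 0) = []
          rw [if_neg (by omega)]
          rfl)
        (by rw [glue_self, memA_scr (by omega)])
        (fun i => by
          refine glue_le hreg (fun i => ?_) i
          by_cases hi : i < 5
          · unfold memA
            rw [glue_lo hi]
            unfold lowA
            split_ifs <;> simp [blk]
          · unfold memA glue
            rw [if_neg hi]
            refine (memN_len (L := L) (fun i hi => ?_) _).trans (by omega)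
            by_cases hik : i < j
            · rw [if_pos hik]; exact hsR i hi
            · rw [if_neg hik]; simp)
      rw [glue_lo (by omega : j + 1 < N), hr, glue_upd, memA_updR (by omega : j < M)] at h2
      have h3 : update (fun i => if i < j then R i else 0) j (R j) =
          fun i => if i < j + 1 then R i else 0 := by
        funext x
        by_cases hx : x = j
        · subst hx; rw [update_self, if_pos (by omega)]
        · rw [update_of_ne hx]
          by_cases hc : x < j
          · rw [if_pos hc, if_pos (by omega)]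
          · rw [if_neg hc, if_neg (by omega)]
      rw [h3] at h2
      refine h2.monoT ?_
      have h4 := regs_len a 0 (j + 1)
      rw [hr] at h4
      simp only [Nat.size_zero, add_zero] at h4
      omega)
  have e0 : (fun i => if i < 0 then R i else 0) = fun _ => 0 := by
    funext i
    rw [if_neg (by omega)]
  have e1 : (fun i => if i < k then R i else 0) = R := by
    funext i
    by_cases hi : i < k
    · rw [if_pos hi]
    · rw [if_neg hi, hR]
      simp only
      rw [dif_neg hi]
  have e2 : glue N (regs a 0) (memA M (fun _ => 0) fun _ => []) = regs a 0 := by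
    have h5 : memA M (fun _ => 0) (fun _ => []) = fun _ => [] := by
      funext i
      unfold memA glue
      by_cases hi : i < 5
      · rw [if_pos hi]
        unfold lowA
        split_ifs <;> rfl
      · rw [if_neg hi]
        unfold memN
        split_ifs
        · rfl
        · rfl
    rw [h5]
    exact glue_empty fun i hi => regs_hi a 0 (by omega)
  simp only [e0, e1, e2] at h1
  -- the program
  have h2 := hruns0.shift (v := v) (N := N) (by omega) (S := regs a 0) hreg
  -- the result
  have h3 := runs_mov (v := v) (B := B) (s := glue N (regs a 0) (memA M R' A'))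
    (N + (5 + (k + 1))) (k + 1) N (by omega) (by omega) (by omega)
    (by rw [glue_lo (by omega), regs_res]; rfl)
    (by rw [glue_self, memA_scr (by omega)])
    (glue_le hreg hm1)
  rw [glue_hi, memA_var (by omega), hF] at h3
  have e3 : update (update (glue N (regs a 0) (memA M R' A')) (N + (5 + (k + 1))) []) (k + 1)
      (Nat.bits (F a)) = glue N (regs a (F a)) (memA M (update R' k 0) A') := by
    have h4 : update (memA M R' A') (5 + (k + 1)) [] = memA M (update R' k 0) A' :=
      memA_updR (by omega) 0
    rw [glue_upd, h4, glue_lo_upd (by omega), regs_upd]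
  rw [e3, bits_length] at h3
  have hsF : Nat.size (F a) ≤ L := by rw [← hF]; exact hsR' k (by omega)
  -- clearing
  have hB1 : 1 ≤ 2 ^ (c * S) := Nat.one_le_two_pow
  have hB2 : L + 1 ≤ 2 ^ (cp * (L + 1)) * (L + 1) := Nat.le_mul_of_pos_left _ (by positivity)
  have hreg' : ∀ i, (regs a (F a) i).length ≤ 2 * L + T0 := fun i => by
    have := regs_len a (F a) i
    omega
  set B' := 2 * L + T0 with hB'
  have hmem : ∀ S : ℕ → ℕ, (∀ i < M, Nat.size (S i) ≤ Nat.size (R' i)) → ∀ i,
      (memA M S A' i).length ≤ B' := by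
    intro S hS i
    by_cases hi : i < 5
    · have := hm1 i
      unfold memA at this ⊢
      rw [glue_lo hi] at this ⊢
      omega
    · unfold memA glue
      rw [if_neg hi]
      refine (memN_len (L := L) (fun i hi => (hS i hi).trans (hsR' i hi)) _).trans (by omega)
  have h4 := Runs.seqsN (v := v) (B := B') (n := M) (fun j => clr (N + (5 + (j + 1))))
    (fun j => glue N (regs a (F a)) (memA M (fun i => if i < j then 0 else update R' k 0 i) A'))
    (2 * L + 1)
    (fun i => glue_le hreg' (hmem _ fun i hi => by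
      rw [if_pos hi]
      simp) i) (fun j hj => by
      have hs5 : ∀ i < M, Nat.size (if i < j then 0 else update R' k 0 i) ≤ Nat.size (R' i) := by
        intro i hi
        split_ifs
        · simp
        · by_cases hik : i = k
          · subst hik; rw [update_self]; simp
          · rw [update_of_ne hik]
      have h5 := runs_clr (v := v) (B := B')
        (s := glue N (regs a (F a)) (memA M (fun i => if i < j then 0 else update R' k 0 i) A'))
        (N + (5 + (j + 1))) (glue_le hreg' (hmem _ hs5))
      rw [glue_hi, memA_var hj, bits_length, glue_upd] at h5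
      have h6 : update (memA M (fun i => if i < j then 0 else update R' k 0 i) A') (5 + (j + 1))
          [] = memA M (fun i => if i < j + 1 then 0 else update R' k 0 i) A' := by
        have h7 := memA_updR (M := M) (R := fun i => if i < j then 0 else update R' k 0 i)
          (A := A') hj 0
        rw [show Nat.bits 0 = [] from rfl] at h7
        rw [h7]
        congr 1
        funext x
        by_cases hx : x = j
        · subst hx; rw [update_self, if_pos (by omega)]
        · rw [update_of_ne hx]
          by_cases hc : x < j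
          · rw [if_pos hc, if_pos (by omega)]
          · rw [if_neg hc, if_neg (by omega)]
      rw [h6] at h5
      refine h5.monoT ?_
      have h8 := (hs5 j hj).trans (hsR' j hj)
      omega)
  have e4 : (fun i => if i < 0 then 0 else update R' k 0 i) = update R' k 0 := by
    funext i
    rw [if_neg (by omega)]
  have e5 : memA M (fun i => if i < M then 0 else update R' k 0 i) A' =
      memA M (fun _ => 0) A' := by
    unfold memA
    congr 1
    funext i
    unfold memN
    by_cases hi : 1 ≤ i ∧ i ≤ M
    · rw [if_pos hi, if_pos hi]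
      show Nat.bits (if i - 1 < M then 0 else update R' k 0 (i - 1)) = _
      rw [if_pos (by omega)]
    · rw [if_neg hi, if_neg hi]
  simp only [e4, e5] at h4
  have h5 := runs_clr (v := v) (B := B') (s := glue N (regs a (F a)) (memA M (fun _ => 0) A'))
    (N + 1) (glue_le hreg' (hmem _ fun i _ => by simp))
  rw [glue_hi, glue_upd] at h5
  have e6 : update (memA M (fun _ => 0) A') 1 [] = memA M (fun _ => 0) (update A' false []) :=
    memA_updA (M := M) (R := fun _ => 0) (A := A') false []
  have e7 : memA M (fun _ => 0) A' 1 = blk (A' false) := memA_stk (M := M) false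
  rw [e6, e7] at h5
  have hblk : ∀ s, (blk (A' s)).length ≤ B' := fun s => by
    have := hm1 (stk s)
    rw [memA_stk] at this
    omega
  have hl6 : ∀ i, (memA M (fun _ => 0) (update A' false []) i).length ≤ B' := by
    rw [← e6]
    exact upd_le (hmem _ fun i _ => by simp) (by simp)
  have h6 := runs_clr (v := v) (B := B')
    (s := glue N (regs a (F a)) (memA M (fun _ => 0) (update A' false []))) (N + 2)
    (glue_le hreg' hl6)
  rw [glue_hi, glue_upd] at h6
  have e8 : update (memA M (fun _ => 0) (update A' false [])) 2 [] = fun _ => [] := by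
    have h7 := memA_updA (M := M) (R := fun _ => 0) (A := update A' false []) true []
    rw [show blk [] = [] from rfl, show stk true = 2 from rfl] at h7
    rw [h7]
    funext i
    unfold memA glue
    by_cases hi : i < 5
    · rw [if_pos hi]
      unfold lowA
      split_ifs
      · rfl
      · rfl
      · rfl
    · rw [if_neg hi]
      unfold memN
      split_ifs
      · rfl
      · rfl
  have e9 : memA M (fun _ => 0) (update A' false []) 2 = blk (A' true) := by
    have h7 := memA_stk (M := M) (R := fun _ => 0) (A := update A' false []) true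
    rw [update_of_ne (by simp)] at h7
    exact h7
  have e10 : glue N (regs a (F a)) (fun _ => []) = regs a (F a) :=
    glue_empty fun i hi => regs_hi a (F a) (by omega)
  rw [e8, e9, e10] at h6
  have hall := (h1.monoB (B' := B') (by omega)).seq ((h2.monoB (B' := B') (by omega)).seq
    ((h3.monoB (B' := B') (by omega)).seq (h4.seq (h5.seq h6))))
  have hb1 := hblk false
  have hb2 := hblk true
  -- the bounds
  have f1 : c * S + cp * (L + 1) ≤ 2 * C * S := by
    have h8 : L + 1 ≤ (c + 2) * S := by rw [hL]; nlinarith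
    have h9 := Nat.mul_le_mul_left cp h8
    have h10 : 2 * C * S = (c + cp * (c + 2)) * S + (c + cp * c + 20 * M + 20 * k + 120) * S := by
      rw [hC]; ring
    have h11 : (c + cp * (c + 2)) * S = c * S + cp * ((c + 2) * S) := by ring
    omega
  have f4 : T0 ≤ 2 ^ (2 * C * S) := by
    rw [hT0, ← pow_add]
    exact Nat.pow_le_pow_right (by norm_num) f1
  have f7 : L ≤ C * S := by
    rw [hL]
    exact Nat.mul_le_mul_right _ (by rw [hC]; omega)
  have f9 : k ≤ C * S ∧ M ≤ C * S := by
    have h8 : C * S = (c + cp * (c + 1) + 9 * M + 9 * k + 60) * S + M * S + k * S := by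
      rw [hC]; ring
    have h9 : M ≤ M * S := Nat.le_mul_of_pos_right _ (by omega)
    have h10 : k ≤ k * S := Nat.le_mul_of_pos_right _ (by omega)
    omega
  refine ⟨_, _, hall, ?_, ?_, ?_⟩
  · have hfin := fin_bound (k := k) (M := M) (s := sz a) (L := L) (T0 := T0)
      (f := Nat.size (F a)) (C := C) (S := S) (by omega) f9.1 f9.2 hLs f7 f4 hsF
    omega
  · intro h0
    rw [hκ] at h0
    cases h0
  · refine hsF.trans (f7.trans ?_)
    exact Nat.mul_le_mul_right _ (by omega)

end LSP
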