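import Pool.Agent.H69P.Blk

/-!
# Programs with number variables and two stacks of numbers

For the kinds with time bounds. `ARes P R A R' A'`: the program `P` may transform the values `R` of the
variables and the stacks of numbers `A` to `R'`, `A'`.
-/

set_option autoImplicit false

namespace LSP

open H85L Function

/-- Programs with number variables and two stacks of numbers. `psh s i`: push the variable `i` on the
stack `s`; `pop s i`: pop the stack `s` into the variable `i` (`0` if the stack is empty). -/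
inductive AProg (κ : Kind) : Type
  | num (P : NProg κ)
  | psh (s : Bool) (i : ℕ)
  | pop (s : Bool) (i : ℕ)
  | seq (p q : AProg κ)
  | loop (i : ℕ) (p : AProg κ)

variable {κ : Kind}

/-- only the variables `0, ..., M - 1` are used -/
def AProg.Uses (M : ℕ) : AProg κ → Prop
  | .num P => P.Uses M
  | .psh _ i => i < M
  | .pop _ i => i < M
  | .seq p q => p.Uses M ∧ q.Uses M
  | .loop i p => i < M ∧ p.Uses M

/-- no guesses -/
def AProg.Det : AProg κ → Prop
  | .num P => P.Det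
  | .psh _ _ => True
  | .pop _ _ => True
  | .seq p q => p.Det ∧ q.Det
  | .loop _ p => p.Det

/-- possible results -/
inductive ARes : AProg κ → (ℕ → ℕ) → (Bool → List ℕ) → (ℕ → ℕ) → (Bool → List ℕ) → Prop
  | num {P : NProg κ} {R R' : ℕ → ℕ} (A : Bool → List ℕ) : NRes P R R' → ARes (.num P) R A R' A
  | psh (s : Bool) (i : ℕ) (R : ℕ → ℕ) (A : Bool → List ℕ) :
      ARes (.psh s i) R A R (update A s (R i :: A s))
  | pop (s : Bool) (i : ℕ) (R : ℕ → ℕ) (A : Bool → List ℕ) :
      ARes (.pop s i) R A (update R i ((A s).headD 0)) (update A s (A s).tail)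
  | seq {p q : AProg κ} {R R1 R2 : ℕ → ℕ} {A A1 A2 : Bool → List ℕ} : ARes p R A R1 A1 →
      ARes q R1 A1 R2 A2 → ARes (.seq p q) R A R2 A2
  | loop0 {i : ℕ} {p : AProg κ} {R : ℕ → ℕ} {A : Bool → List ℕ} : R i = 0 →
      ARes (.loop i p) R A R A
  | loop1 {i : ℕ} {p : AProg κ} {R R1 R2 : ℕ → ℕ} {A A1 A2 : Bool → List ℕ} : R i ≠ 0 →
      ARes p R A R1 A1 → ARes (.loop i p) R1 A1 R2 A2 → ARes (.loop i p) R A R2 A2

/-- bounds -/
inductive ABd (L : ℕ) : AProg κ → (ℕ → ℕ) → (Bool → List ℕ) → ℕ → Prop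
  | num {P : NProg κ} {R : ℕ → ℕ} {A : Bool → List ℕ} {T : ℕ} : NBd L P R T → ABd L (.num P) R A T
  | psh {s : Bool} {i : ℕ} {R : ℕ → ℕ} {A : Bool → List ℕ} : ABd L (.psh s i) R A 1
  | pop {s : Bool} {i : ℕ} {R : ℕ → ℕ} {A : Bool → List ℕ} : Nat.size ((A s).headD 0) ≤ L →
      ABd L (.pop s i) R A 1
  | seq {p q : AProg κ} {R : ℕ → ℕ} {A : Bool → List ℕ} {T1 T2 : ℕ} : ABd L p R A T1 →
      (∀ R1 A1, ARes p R A R1 A1 → ABd L q R1 A1 T2) → ABd L (.seq p q) R A (T1 + T2 + 1)
  | loop0 {i : ℕ} {p : AProg κ} {R : ℕ → ℕ} {A : Bool → List ℕ} : R i = 0 →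
      ABd L (.loop i p) R A 1
  | loop1 {i : ℕ} {p : AProg κ} {R : ℕ → ℕ} {A : Bool → List ℕ} {T1 T2 : ℕ} : R i ≠ 0 →
      ABd L p R A T1 → (∀ R1 A1, ARes p R A R1 A1 → ABd L (.loop i p) R1 A1 T2) →
      ABd L (.loop i p) R A (T1 + T2 + 1)
  | mono {p : AProg κ} {R : ℕ → ℕ} {A : Bool → List ℕ} {T T' : ℕ} : T ≤ T' → ABd L p R A T →
      ABd L p R A T'

theorem ABd.mono_L {L L' : ℕ} (hL : L ≤ L') {P : AProg κ} {R : ℕ → ℕ} {A : Bool → List ℕ} {τ : ℕ}
    (h : ABd L P R A τ) : ABd L' P R A τ := by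
  induction h with
  | num h => exact .num (h.mono_L hL)
  | psh => exact .psh
  | pop h => exact .pop (h.trans hL)
  | seq _ _ ih1 ih2 => exact .seq ih1 ih2
  | loop0 h => exact .loop0 h
  | loop1 h _ _ ih1 ih2 => exact .loop1 h ih1 ih2
  | mono h _ ih => exact .mono h ih

theorem ABd.sizes {L M : ℕ} {P : AProg κ} {R : ℕ → ℕ} {A : Bool → List ℕ} {τ : ℕ}
    (h : ABd L P R A τ) : ∀ R' A', ARes P R A R' A' → (∀ i < M, Nat.size (R i) ≤ L) →
      ∀ i < M, Nat.size (R' i) ≤ L := by
  induction h with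
  | num hb =>
    intro R' A' hr hR
    cases hr with
    | num _ a => exact hb.sizes _ a hR
  | psh =>
    intro R' A' hr hR
    cases hr
    exact hR
  | @pop s i R A hs =>
    intro R' A' hr hR j hj
    cases hr
    by_cases h : j = i
    · subst h; rw [update_self]; exact hs
    · rw [update_of_ne h]; exact hR j hj
  | seq _ _ ih1 ih2 =>
    intro R' A' hr hR
    cases hr with
    | seq a b => exact ih2 _ _ a _ _ b (ih1 _ _ a hR)
  | loop0 hh =>
    intro R' A' hr hR
    cases hr with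
    | loop0 _ => exact hR
    | loop1 b _ _ => exact absurd hh b
  | loop1 hh _ _ ih1 ih2 =>
    intro R' A' hr hR
    cases hr with
    | loop0 b => exact absurd b hh
    | loop1 _ a b => exact ih2 _ _ a _ _ b (ih1 _ _ a hR)
  | mono _ _ ih => exact ih

theorem ARes.frame {P : AProg κ} {R R' : ℕ → ℕ} {A A' : Bool → List ℕ} (h : ARes P R A R' A')
    {M : ℕ} : P.Uses M → ∀ i, M ≤ i → R' i = R i := by
  induction h with
  | num A h => intro hP i hi; exact h.frame hP i hi
  | psh s i R A => intro _ _ _; rfl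
  | pop s i R A =>
    intro hP j hj
    exact update_of_ne (by have : i < M := hP; omega) _ _
  | seq _ _ ih1 ih2 => intro hP i hi; rw [ih2 hP.2 i hi, ih1 hP.1 i hi]
  | loop0 _ => intro _ _ _; rfl
  | loop1 _ _ _ ih1 ih2 => intro hP i hi; rw [ih2 hP i hi, ih1 hP.2 i hi]

/-! ### The memory -/

/-- the stack of numbers `s` -/
def stk (s : Bool) : ℕ := if s then 2 else 1

/-- the stacks of numbers on the stacks `1` and `2` -/
def lowA (A : Bool → List ℕ) : Mem := fun i =>
  if i = 1 then blk (A false) else if i = 2 then blk (A true) else []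

/-- the whole memory -/
def memA (M : ℕ) (R : ℕ → ℕ) (A : Bool → List ℕ) : Mem := glue 5 (lowA A) (memN M R)

theorem lowA_stk (A : Bool → List ℕ) (s : Bool) : lowA A (stk s) = blk (A s) := by
  cases s <;> simp [lowA, stk]

theorem lowA_upd (A : Bool → List ℕ) (s : Bool) (l : List ℕ) :
    update (lowA A) (stk s) (blk l) = lowA (update A s l) := by
  funext i
  cases s
  · by_cases h : i = 1
    · subst h
      show update (lowA A) 1 (blk l) 1 = _
      rw [update_self]
      simp [lowA]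
    · show update (lowA A) 1 (blk l) i = _
      rw [update_of_ne h]
      simp [lowA, h]
  · by_cases h : i = 2
    · subst h
      show update (lowA A) 2 (blk l) 2 = _
      rw [update_self]
      simp [lowA]
    · show update (lowA A) 2 (blk l) i = _
      rw [update_of_ne h]
      simp [lowA, h]

theorem lowA_zero (A : Bool → List ℕ) : lowA A 0 = [] := by simp [lowA]

theorem stk_lt (s : Bool) : stk s < 5 := by cases s <;> simp [stk]

theorem stk_ge (s : Bool) : 1 ≤ stk s ∧ stk s ≤ 2 := by cases s <;> simp [stk]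

theorem glue_lo_upd {N : ℕ} {S s : Mem} {i : ℕ} (hi : i < N) (l : List Bool) :
    update (glue N S s) i l = glue N (update S i l) s := by
  funext x
  by_cases hx : x = i
  · subst hx
    rw [update_self, glue_lo hi, update_self]
  · rw [update_of_ne hx]
    unfold glue
    by_cases h : x < N
    · rw [if_pos h, if_pos h, update_of_ne hx]
    · rw [if_neg h, if_neg h]

section
variable {M : ℕ} {R : ℕ → ℕ} {A : Bool → List ℕ}

theorem memA_stk (s : Bool) : memA M R A (stk s) = blk (A s) := by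
  unfold memA
  rw [glue_lo (stk_lt s), lowA_stk]

theorem memA_var {i : ℕ} (hi : i < M) : memA M R A (5 + (i + 1)) = Nat.bits (R i) := by
  unfold memA
  rw [glue_hi, memN_var hi]

theorem memA_scr {i : ℕ} (hi : i = 0 ∨ i = 3 ∨ i = 4 ∨ 5 + M < i) : memA M R A i = [] := by
  unfold memA glue
  by_cases h : i < 5
  · rw [if_pos h]
    unfold lowA
    rw [if_neg (by omega), if_neg (by omega)]
  · rw [if_neg h, memN_hi (by omega)]

theorem memA_updA (s : Bool) (l : List ℕ) :
    update (memA M R A) (stk s) (blk l) = memA M R (update A s l) := by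
  unfold memA
  rw [glue_lo_upd (stk_lt s), lowA_upd]

theorem memA_updR {i : ℕ} (hi : i < M) (x : ℕ) :
    update (memA M R A) (5 + (i + 1)) (Nat.bits x) = memA M (update R i x) A := by
  unfold memA
  rw [glue_upd, memN_upd hi]

end

/-- the program `p` implements the program `P` with `M` variables -/
structure AImpl (M : ℕ) {Δ : Type} (P : AProg κ) (p : Prog Δ) : Prop where
  det : κ.det = true → P.Det → p.Det
  snd : ∀ (v : View Δ) (R : ℕ → ℕ) (A : Bool → List ℕ) (s' : Mem) (t : ℕ),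
    Res v p (memA M R A) s' t → ∃ R' A', s' = memA M R' A' ∧ ARes P R A R' A'
  cpl : ∀ (v : View Δ) (R R' : ℕ → ℕ) (A A' : Bool → List ℕ), ARes P R A R' A' →
    ∃ t, Res v p (memA M R A) (memA M R' A') t
  bd : ∃ c : ℕ, ∀ (v : View Δ) (L m : ℕ) (R : ℕ → ℕ) (A : Bool → List ℕ) (τ : ℕ),
    (∀ i < M, Nat.size (R i) ≤ L) → ABd L P R A τ → (∀ i, (memA M R A i).length ≤ m) →
    Bd v (m + τ * 2 ^ (c * (L + 1))) p (memA M R A) (τ * 2 ^ (c * (L + 1)))

theorem ABd.inv_num {L : ℕ} {R : ℕ → ℕ} {A : Bool → List ℕ} {τ : ℕ} {P : AProg κ} {p : NProg κ}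
    (h : ABd L P R A τ) (hP : P = .num p) : NBd L p R τ := by
  induction h with
  | num h => cases hP; exact h
  | mono hT _ ih => exact .mono hT (ih hP)
  | psh => cases hP
  | pop _ => cases hP
  | seq _ _ => cases hP
  | loop0 _ => cases hP
  | loop1 _ _ _ => cases hP

theorem ABd.inv_psh {L : ℕ} {R : ℕ → ℕ} {A : Bool → List ℕ} {τ : ℕ} {P : AProg κ} {s : Bool} {i : ℕ}
    (h : ABd L P R A τ) (hP : P = .psh s i) : 1 ≤ τ := by
  induction h with
  | psh => exact le_rfl
  | mono hT _ ih => exact (ih hP).trans hT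
  | num _ => cases hP
  | pop _ => cases hP
  | seq _ _ => cases hP
  | loop0 _ => cases hP
  | loop1 _ _ _ => cases hP

theorem ABd.inv_pop {L : ℕ} {R : ℕ → ℕ} {A : Bool → List ℕ} {τ : ℕ} {P : AProg κ} {s : Bool} {i : ℕ}
    (h : ABd L P R A τ) (hP : P = .pop s i) : 1 ≤ τ ∧ Nat.size ((A s).headD 0) ≤ L := by
  induction h with
  | pop h => cases hP; exact ⟨le_rfl, h⟩
  | mono hT _ ih => exact ⟨(ih hP).1.trans hT, (ih hP).2⟩
  | num _ => cases hP
  | psh => cases hP
  | seq _ _ => cases hP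
  | loop0 _ => cases hP
  | loop1 _ _ _ => cases hP

theorem ABd.inv_seq {L : ℕ} {R : ℕ → ℕ} {A : Bool → List ℕ} {τ : ℕ} {P p q : AProg κ}
    (h : ABd L P R A τ) (hP : P = .seq p q) : ∃ T1 T2, T1 + T2 + 1 ≤ τ ∧ ABd L p R A T1 ∧
      ∀ R1 A1, ARes p R A R1 A1 → ABd L q R1 A1 T2 := by
  induction h with
  | seq h1 h2 => cases hP; exact ⟨_, _, le_rfl, h1, h2⟩
  | mono hT _ ih =>
    obtain ⟨T1, T2, h, h'⟩ := ih hP
    exact ⟨T1, T2, h.trans hT, h'⟩
  | num _ => cases hP
  | psh => cases hP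
  | pop _ => cases hP
  | loop0 _ => cases hP
  | loop1 _ _ _ => cases hP

/-- the heights after a computation -/
theorem len_after {Δ : Type} {v : View Δ} {B T m t : ℕ} {p : Prog Δ} {s s1 : Mem}
    (hb : Bd v B p s T) (hr : Res v p s s1 t) (hm : ∀ i, (s i).length ≤ m) (i : ℕ) :
    (s1 i).length ≤ m + T := by
  have h1 := hr.len i
  have h2 := hb.time _ _ hr
  have h3 := hm i
  omega

section
variable {Δ : Type} {M : ℕ}

/-- a deterministic operation -/
theorem AImpl.of_runs {P : AProg κ} {p : Prog Δ} (hdet : p.Det) (c : ℕ)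
    (f : (ℕ → ℕ) → (Bool → List ℕ) → (ℕ → ℕ)) (g : (ℕ → ℕ) → (Bool → List ℕ) → (Bool → List ℕ))
    (hres : ∀ R A R' A', ARes P R A R' A' ↔ R' = f R A ∧ A' = g R A)
    (hL : ∀ L R A τ, ABd L P R A τ → 1 ≤ τ ∧ ((∀ i < M, Nat.size (R i) ≤ L) →
      ∀ i < M, Nat.size (f R A i) ≤ L))
    (hrun : ∀ (v : View Δ) (L m : ℕ) (R : ℕ → ℕ) (A : Bool → List ℕ),
      (∀ i < M, Nat.size (R i) ≤ L) → (∀ i < M, Nat.size (f R A i) ≤ L) →
      (∀ i, (memA M R A i).length ≤ m) →
      Runs v (m + c * (L + 1)) p (memA M R A) (memA M (f R A) (g R A)) (c * (L + 1))) :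
    AImpl M P p := by
  have key : ∀ (v : View Δ) (R : ℕ → ℕ) (A : Bool → List ℕ), ∃ B T,
      Runs v B p (memA M R A) (memA M (f R A) (g R A)) T := by
    intro v R A
    obtain ⟨m, hm⟩ : ∃ m, ∀ i, (memA M R A i).length ≤ m := by
      refine ⟨∑ i ∈ Finset.range (6 + M), (memA M R A i).length, fun i => ?_⟩
      by_cases hi : i < 6 + M
      · exact Finset.single_le_sum (f := fun i => (memA M R A i).length) (fun _ _ => Nat.zero_le _)
          (Finset.mem_range.2 hi)
      · rw [memA_scr (by omega)]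
        simp
    refine ⟨_, _, hrun v (∑ i ∈ Finset.range M, (Nat.size (R i) + Nat.size (f R A i))) m R A
      (fun i hi => ?_) (fun i hi => ?_) hm⟩
    · have := Finset.single_le_sum (f := fun i => Nat.size (R i) + Nat.size (f R A i))
        (fun _ _ => Nat.zero_le _) (Finset.mem_range.2 hi)
      omega
    · have := Finset.single_le_sum (f := fun i => Nat.size (R i) + Nat.size (f R A i))
        (fun _ _ => Nat.zero_le _) (Finset.mem_range.2 hi)
      omega
  refine ⟨fun _ _ => hdet, ?_, ?_, c, ?_⟩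
  · intro v R A s' t hr
    obtain ⟨B, T, h⟩ := key v R A
    exact ⟨_, _, h.un _ _ hr, (hres _ _ _ _).2 ⟨rfl, rfl⟩⟩
  · intro v R R' A A' hr
    obtain ⟨rfl, rfl⟩ := (hres _ _ _ _).1 hr
    obtain ⟨B, T, h⟩ := key v R A
    exact h.ex
  · intro v L m R A τ hR hτ hm
    obtain ⟨h1, h2⟩ := hL L R A τ hτ
    have h3 := hrun v L m R A hR (h2 hR) hm
    have e1 : c * (L + 1) < 2 ^ (c * (L + 1)) := Nat.lt_two_pow_self
    have e2 : 2 ^ (c * (L + 1)) ≤ τ * 2 ^ (c * (L + 1)) := Nat.le_mul_of_pos_left _ h1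
    exact .mono (by omega) (h3.bd.mono_B (by omega))

theorem impl_psh (s : Bool) (i : ℕ) (hi : i < M) :
    AImpl (κ := κ) M (.psh s i) (pshP (5 + (i + 1)) (stk s) 3 : Prog Δ) := by
  have hs := stk_ge s
  refine AImpl.of_runs (pshP_det _ _ _) 8 (fun R _ => R) (fun R A => update A s (R i :: A s))
    (fun R A R' A' => ⟨fun h => by cases h; exact ⟨rfl, rfl⟩, fun h => ?_⟩)
    (fun L R A τ hτ => ⟨hτ.inv_psh rfl, fun h => h⟩) fun v L m R A hR _ hm => ?_
  · obtain ⟨rfl, rfl⟩ := h
    exact .psh s i _ _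
  · have h1 := hR i hi
    have h2 := hm (stk s)
    have h := runs_psh (v := v) (B := m + 8 * (L + 1)) (s := memA M R A) (i := 5 + (i + 1))
      (d := stk s) (u := 3) (by omega) (by omega) (by omega) (memA_scr (by omega))
      (fun j => (hm j).trans (by omega)) (by
        rw [memA_var hi, bits_length]
        omega)
    rw [memA_var hi, memA_stk] at h
    have h3 : mrk (Nat.bits (R i)) ++ false :: blk (A s) = blk (R i :: A s) := rfl
    rw [h3, memA_updA, bits_length] at h
    exact h.monoT (by omega)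

theorem impl_pop (s : Bool) (i : ℕ) (hi : i < M) :
    AImpl (κ := κ) M (.pop s i) (popP (5 + (i + 1)) (stk s) 3 4 : Prog Δ) := by
  have hs := stk_ge s
  refine AImpl.of_runs (popP_det _ _ _ _) 12 (fun R A => update R i ((A s).headD 0))
    (fun R A => update A s (A s).tail)
    (fun R A R' A' => ⟨fun h => by cases h; exact ⟨rfl, rfl⟩, fun h => ?_⟩)
    (fun L R A τ hτ => ⟨(hτ.inv_pop rfl).1, fun h j hj => ?_⟩) fun v L m R A hR hR' hm => ?_
  · obtain ⟨rfl, rfl⟩ := h
    exact .pop s i _ _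
  · by_cases hji : j = i
    · subst hji; rw [update_self]; exact (hτ.inv_pop rfl).2
    · rw [update_of_ne hji]; exact h j hj
  · have h1 := hR i hi
    have h2 := hR' i hi
    rw [update_self] at h2
    have h := runs_popB (v := v) (B := m + 12 * (L + 1)) (s := memA M R A) (i := 5 + (i + 1))
      (d := stk s) (u := 3) (w := 4) (by omega) (by omega) (by omega) (by omega) (by omega)
      (by omega) (memA_scr (by omega)) (memA_scr (by omega)) (fun j => (hm j).trans (by omega))
      (by omega) (A s) (memA_stk s)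
    rw [memA_updA, memA_updR hi, memA_var hi, bits_length] at h
    exact h.monoT (by omega)

theorem impl_num {P : NProg κ} {p : Prog Δ} (hp : Impl M P p) : AImpl M (.num P) (p.shift 5) := by
  obtain ⟨c, hc⟩ := hp.bd
  refine ⟨fun hκ h => shift_det 5 (hp.det hκ h), ?_, ?_, c, ?_⟩
  · intro v R A s' t hr
    obtain ⟨s1, rfl, r⟩ := res_shift (by omega) hr rfl rfl
    obtain ⟨R', rfl, r'⟩ := hp.snd _ _ _ _ r
    exact ⟨R', A, rfl, .num A r'⟩
  · intro v R R' A A' hr
    cases hr with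
    | num _ h =>
      obtain ⟨t, ht⟩ := hp.cpl (fun _ => v (lowA A 0)) R R' h
      exact ⟨t, shift_res (by omega) ht⟩
  · intro v L m R A τ hR hτ hm
    have h1 := hc (fun _ => v (lowA A 0)) L R τ hR (hτ.inv_num rfl)
    have h2 : ∀ i, (memN M R i).length ≤ m := fun i => by
      have := hm (5 + i)
      unfold memA at this
      rwa [glue_hi] at this
    have h3 : ∀ i, (lowA A i).length ≤ m := fun i => by
      by_cases hi : i < 5
      · have := hm i
        unfold memA at this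
        rwa [glue_lo hi] at this
      · unfold lowA
        rw [if_neg (by omega), if_neg (by omega)]
        simp
    exact shift_bd (by omega) (fun i => (h3 i).trans (by omega)) (h1.heights m h2)

theorem AImpl.seq {P Q : AProg κ} {p q : Prog Δ} (hp : AImpl M P p) (hq : AImpl M Q q) :
    AImpl M (.seq P Q) (.seq p q) := by
  obtain ⟨c1, h1⟩ := hp.bd
  obtain ⟨c2, h2⟩ := hq.bd
  refine ⟨fun hκ h => ⟨hp.det hκ h.1, hq.det hκ h.2⟩, ?_, ?_, c1 + c2, ?_⟩
  · intro v R A s' t hr
    cases hr with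
    | seq a b =>
      obtain ⟨R1, A1, rfl, r1⟩ := hp.snd _ _ _ _ _ a
      obtain ⟨R2, A2, rfl, r2⟩ := hq.snd _ _ _ _ _ b
      exact ⟨R2, A2, rfl, .seq r1 r2⟩
  · intro v R R' A A' hr
    cases hr with
    | seq a b =>
      obtain ⟨t1, e1⟩ := hp.cpl v _ _ _ _ a
      obtain ⟨t2, e2⟩ := hq.cpl v _ _ _ _ b
      exact ⟨_, .seq e1 e2⟩
  · intro v L m R A τ hR hτ hm
    obtain ⟨T1, T2, hT, b1, b2⟩ := hτ.inv_seq rfl
    have e1 : T1 * 2 ^ (c1 * (L + 1)) ≤ T1 * 2 ^ ((c1 + c2) * (L + 1)) :=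
      Nat.mul_le_mul_left _ (Nat.pow_le_pow_right (by norm_num)
        (Nat.mul_le_mul_right _ (by omega)))
    have e1' : T2 * 2 ^ (c2 * (L + 1)) ≤ T2 * 2 ^ ((c1 + c2) * (L + 1)) :=
      Nat.mul_le_mul_left _ (Nat.pow_le_pow_right (by norm_num)
        (Nat.mul_le_mul_right _ (by omega)))
    have e2 : (T1 + T2 + 1) * 2 ^ ((c1 + c2) * (L + 1)) ≤ τ * 2 ^ ((c1 + c2) * (L + 1)) :=
      Nat.mul_le_mul_right _ hT
    have e3 : 1 ≤ 2 ^ ((c1 + c2) * (L + 1)) := Nat.one_le_two_pow
    have e4 : (T1 + T2 + 1) * 2 ^ ((c1 + c2) * (L + 1)) = T1 * 2 ^ ((c1 + c2) * (L + 1)) +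
      T2 * 2 ^ ((c1 + c2) * (L + 1)) + 2 ^ ((c1 + c2) * (L + 1)) := by ring
    have g1 := h1 v L m R A T1 hR b1 hm
    refine .mono ?_ (.seq (T2 := T2 * 2 ^ (c2 * (L + 1))) (g1.mono_B (by omega))
      fun s1 t hr => ?_)
    · omega
    · have hl := len_after g1 hr hm
      obtain ⟨R1, A1, rfl, r1⟩ := hp.snd _ _ _ _ _ hr
      exact (h2 v L (m + T1 * 2 ^ (c1 * (L + 1))) R1 A1 T2 (b1.sizes R1 A1 r1 hR) (b2 R1 A1 r1)
        hl).mono_B (by omega)

theorem head_varA {R : ℕ → ℕ} {A : Bool → List ℕ} {i : ℕ} (hi : i < M) :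
    memA M R A (5 + (i + 1)) = [] ↔ R i = 0 := by
  rw [memA_var hi, bits_eq_nil]

theorem AImpl.loop {P : AProg κ} {p : Prog Δ} {i : ℕ} (hi : i < M) (hp : AImpl M P p) :
    AImpl M (.loop i P) (.loop (5 + (i + 1)) p) := by
  obtain ⟨c, h1⟩ := hp.bd
  refine ⟨fun hκ h => hp.det hκ h, ?_, ?_, c, ?_⟩
  · have key : ∀ (v : View Δ) (q : Prog Δ) (s s' : Mem) (t : ℕ), Res v q s s' t →
        ∀ R A, q = .loop (5 + (i + 1)) p → s = memA M R A →
          ∃ R' A', s' = memA M R' A' ∧ ARes (.loop i P) R A R' A' := by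
      intro v q s s' t hr
      induction hr with
      | loop0 hh =>
        intro R A hq hs
        cases hq
        subst hs
        exact ⟨R, A, rfl, .loop0 ((head_varA hi).1 hh)⟩
      | loop1 hh a _ _ ih2 =>
        intro R A hq hs
        cases hq
        subst hs
        obtain ⟨R1, A1, e1, r1⟩ := hp.snd _ _ _ _ _ a
        obtain ⟨R2, A2, e2, r2⟩ := ih2 R1 A1 rfl e1
        exact ⟨R2, A2, e2, .loop1 (fun h0 => hh ((head_varA hi).2 h0)) r1 r2⟩
      | move _ _ _ _ => intro R A hq; cases hq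
      | seq _ _ => intro R A hq; cases hq
      | ift0 _ _ => intro R A hq; cases hq
      | ift1 _ _ => intro R A hq; cases hq
      | ift2 _ _ => intro R A hq; cases hq
    intro v R A s' t hr
    exact key v _ _ _ _ hr R A rfl rfl
  · have key : ∀ (v : View Δ) (Q : AProg κ) (R R' : ℕ → ℕ) (A A' : Bool → List ℕ),
        ARes Q R A R' A' → Q = .loop i P →
        ∃ t, Res v (.loop (5 + (i + 1)) p) (memA M R A) (memA M R' A') t := by
      intro v Q R R' A A' hr
      induction hr with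
      | loop0 hh =>
        intro hQ
        cases hQ
        exact ⟨_, .loop0 ((head_varA hi).2 hh)⟩
      | loop1 hh a _ _ ih2 =>
        intro hQ
        cases hQ
        obtain ⟨t1, e1⟩ := hp.cpl v _ _ _ _ a
        obtain ⟨t2, e2⟩ := ih2 rfl
        exact ⟨_, .loop1 (fun h0 => hh ((head_varA hi).1 h0)) e1 e2⟩
      | num _ _ => intro hQ; cases hQ
      | psh _ _ _ _ => intro hQ; cases hQ
      | pop _ _ _ _ => intro hQ; cases hQ
      | seq _ _ _ _ => intro hQ; cases hQ
    intro v R R' A A' hr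
    exact key v _ _ _ _ _ hr rfl
  · have key : ∀ (v : View Δ) (L : ℕ) (Q : AProg κ) (R : ℕ → ℕ) (A : Bool → List ℕ) (τ : ℕ),
        ABd L Q R A τ → Q = .loop i P → ∀ m, (∀ i < M, Nat.size (R i) ≤ L) →
        (∀ i, (memA M R A i).length ≤ m) →
        Bd v (m + τ * 2 ^ (c * (L + 1))) (.loop (5 + (i + 1)) p) (memA M R A)
          (τ * 2 ^ (c * (L + 1))) := by
      intro v L Q R A τ hτ
      induction hτ with
      | loop0 hh =>
        intro hQ m hR hm
        cases hQ
        refine .mono ?_ (.loop0 ((head_varA hi).2 hh))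
        have e3 : 1 ≤ 2 ^ (c * (L + 1)) := Nat.one_le_two_pow
        omega
      | @loop1 i' P' R A T1 T2 hh b1 _ _ ih2 =>
        intro hQ m hR hm
        cases hQ
        have e3 : 1 ≤ 2 ^ (c * (L + 1)) := Nat.one_le_two_pow
        have e4 : (T1 + T2 + 1) * 2 ^ (c * (L + 1)) = T1 * 2 ^ (c * (L + 1)) +
          T2 * 2 ^ (c * (L + 1)) + 2 ^ (c * (L + 1)) := by ring
        have g1 := h1 v L m R A T1 hR b1 hm
        refine .mono ?_ (.loop1 (T2 := T2 * 2 ^ (c * (L + 1)))
          (fun h0 => hh ((head_varA hi).1 h0)) (g1.mono_B (by omega)) fun s1 t hr => ?_)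
        · omega
        · have hl := len_after g1 hr hm
          obtain ⟨R1, A1, rfl, r1⟩ := hp.snd _ _ _ _ _ hr
          exact (ih2 R1 A1 r1 rfl (m + T1 * 2 ^ (c * (L + 1))) (b1.sizes R1 A1 r1 hR) hl).mono_B
            (by omega)
      | mono hT _ ih =>
        intro hQ m hR hm
        have h := Nat.mul_le_mul_right (2 ^ (c * (L + 1))) hT
        exact .mono h ((ih hQ m hR hm).mono_B (by omega))
      | num _ => intro hQ; cases hQ
      | psh => intro hQ; cases hQ
      | pop _ => intro hQ; cases hQ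
      | seq _ _ => intro hQ; cases hQ
    intro v L m R A τ hR hτ hm
    exact key v L _ R A τ hτ rfl m hR hm

/-- every program with `M` number variables and two stacks of numbers is implemented -/
theorem AProg.compile (P : AProg κ) (hP : P.Uses M) : ∃ p : Prog Δ, AImpl M P p := by
  induction P with
  | num P =>
    obtain ⟨p, hp⟩ := NProg.compile (Δ := Δ) P hP
    exact ⟨_, impl_num hp⟩
  | psh s i => exact ⟨_, impl_psh s i hP⟩
  | pop s i => exact ⟨_, impl_pop s i hP⟩
  | seq P Q ihP ihQ =>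
    obtain ⟨p, hp⟩ := ihP hP.1
    obtain ⟨q, hq⟩ := ihQ hP.2
    exact ⟨_, hp.seq hq⟩
  | loop i P ih =>
    obtain ⟨p, hp⟩ := ih hP.2
    exact ⟨_, hp.loop hP.1⟩

end

end LSP
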