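import Pool.Agent.H69P.Comp

/-!
# Stacks of numbers

A list of natural numbers is kept on one stack; the number with the bits `b 0, ..., b (k - 1)` is the
block `true, b 0, true, b 1, ..., true, b (k - 1), false`.
-/

set_option autoImplicit false

namespace LSP

open H85L Function

variable {Δ : Type} {v : View Δ} {B : ℕ}

/-- the letters with marks -/
def mrk (l : List Bool) : List Bool := l.flatMap fun b => [true, b]

theorem mrk_nil : mrk [] = [] := rfl

theorem mrk_cons (b : Bool) (l : List Bool) : mrk (b :: l) = true :: b :: mrk l := rfl

theorem mrk_append (l l' : List Bool) : mrk (l ++ l') = mrk l ++ mrk l' := by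
  unfold mrk
  rw [List.flatMap_append]

theorem mrk_length (l : List Bool) : (mrk l).length = 2 * l.length := by
  induction l with
  | nil => rfl
  | cons b l ih => rw [mrk_cons, List.length_cons, List.length_cons, ih, List.length_cons]; ring

/-- a list of numbers as a stack -/
def blk : List ℕ → List Bool
  | [] => []
  | x :: l => mrk (Nat.bits x) ++ false :: blk l

/-- push the number on the stack `i` on the stack of numbers `d`; `u` is empty -/
def pshP (i d u : ℕ) : Prog Δ :=
  .seq (push d false) (.seq (pour i u) (.loop u (.seq (mvt2 u i d) (push d true))))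

theorem pshP_det (i d u : ℕ) : (pshP i d u : Prog Δ).Det :=
  ⟨push_det _ _, pour_det _ _, mvt2_det _ _ _, push_det _ _⟩

theorem runs_psh_loop {i d u : ℕ} (hid : i ≠ d) (hiu : i ≠ u) (hdu : d ≠ u) (l : List Bool) :
    ∀ s : Mem, s u = l → (∀ j, (s j).length ≤ B) → (s i).length + l.length ≤ B →
      (s d).length + 2 * l.length ≤ B →
      Runs v B (.loop u (.seq (mvt2 u i d) (push d true))) s
        (update (update (update s u []) i (l.reverse ++ s i)) d (mrk l.reverse ++ s d))
        (4 * l.length + 1) := by
  induction l with
  | nil =>
    intro s hu hs _ _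
    have h3 : update (update (update s u []) i (List.reverse [] ++ s i)) d
        (mrk (List.reverse []) ++ s d) = s := by
      funext x
      simp only [Function.update_apply, List.reverse_nil, List.nil_append, mrk_nil]
      split_ifs with h1 h2 h3
      · rw [h1]
      · rw [h2]
      · rw [h3, hu]
      · rfl
    rw [h3]
    exact (Runs.loop0 hu).monoT (by omega)
  | cons b l ih =>
    intro s hu hs hB1 hB2
    simp only [List.length_cons] at hB1 hB2
    have h1 := runs_mvt2 (v := v) (B := B) (s := s) u i d hiu.symm hdu.symm hid hu hs (by omega)
      (by omega)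
    set s1 : Mem := update (update (update s u l) i (b :: s i)) d (b :: s d) with hs1
    have hlen : l.length ≤ B := by
      have := hs u
      rw [hu, List.length_cons] at this
      omega
    have hl1 : ∀ j, (s1 j).length ≤ B := upd_le (upd_le (upd_le hs hlen) (by
      simp only [List.length_cons]; omega)) (by simp only [List.length_cons]; omega)
    have h2 := runs_push (v := v) (B := B) (s := s1) d true hl1 (by
      rw [hs1, update_self, List.length_cons]; omega)
    have hd1 : s1 d = b :: s d := by rw [hs1, update_self]
    rw [hd1] at h2
    set s2 : Mem := update s1 d (true :: b :: s d) with hs2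
    have hu2 : s2 u = l := by
      rw [hs2, update_of_ne hdu.symm, hs1, update_of_ne hdu.symm, update_of_ne hiu.symm,
        update_self]
    have hi2 : s2 i = b :: s i := by
      rw [hs2, update_of_ne hid, hs1, update_of_ne hid, update_self]
    have hd2 : s2 d = true :: b :: s d := by rw [hs2, update_self]
    have h3 := ih s2 hu2 (upd_le hl1 (by simp only [List.length_cons]; omega))
      (by rw [hi2, List.length_cons]; omega)
      (by rw [hd2, List.length_cons, List.length_cons]; omega)
    have h4 : update (update (update s2 u []) i (l.reverse ++ s2 i)) d (mrk l.reverse ++ s2 d) =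
        update (update (update s u []) i ((b :: l).reverse ++ s i)) d
          (mrk (b :: l).reverse ++ s d) := by
      rw [hi2, hd2, List.reverse_cons, mrk_append, List.append_assoc, List.append_assoc]
      funext x
      by_cases hxd : x = d
      · subst hxd
        rw [update_self, update_self]
        rfl
      · rw [update_of_ne hxd, update_of_ne hxd]
        by_cases hxi : x = i
        · subst hxi
          rw [update_self, update_self]
          rfl
        · rw [update_of_ne hxi, update_of_ne hxi]
          by_cases hxu : x = u
          · subst hxu
            rw [update_self, update_self]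
          · rw [update_of_ne hxu, update_of_ne hxu, hs2, update_of_ne hxd, hs1, update_of_ne hxd,
              update_of_ne hxi, update_of_ne hxu]
    rw [h4] at h3
    refine (Runs.loop1 (by rw [hu]; simp) (h1.seq h2) h3).monoT ?_
    rw [List.length_cons]
    omega

theorem runs_psh {s : Mem} {i d u : ℕ} (hid : i ≠ d) (hiu : i ≠ u) (hdu : d ≠ u) (hu : s u = [])
    (hs : ∀ j, (s j).length ≤ B) (hB : (s d).length + 2 * (s i).length + 1 ≤ B) :
    Runs v B (pshP i d u) s (update s d (mrk (s i) ++ false :: s d)) (6 * (s i).length + 5) := by
  have h1 := runs_push (v := v) (B := B) (s := s) d false hs (by omega)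
  set s1 : Mem := update s d (false :: s d) with hs1
  have hl1 : ∀ j, (s1 j).length ≤ B := upd_le hs (by rw [List.length_cons]; omega)
  have hi1 : s1 i = s i := by rw [hs1, update_of_ne hid]
  have hd1 : s1 d = false :: s d := by rw [hs1, update_self]
  have hu1 : s1 u = [] := by rw [hs1, update_of_ne hdu.symm, hu]
  have h2 := runs_pour (v := v) (B := B) (s := s1) i u hiu hl1 (by
    rw [hu1, List.length_nil]; exact hl1 i)
  rw [hu1, List.append_nil, hi1] at h2
  set s2 : Mem := update (update s1 i []) u (s i).reverse with hs2
  have hl2 : ∀ j, (s2 j).length ≤ B := upd_le (upd_le hl1 (by simp)) (by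
    rw [List.length_reverse]; exact hs i)
  have hi2 : s2 i = [] := by rw [hs2, update_of_ne hiu, update_self]
  have hd2 : s2 d = false :: s d := by
    rw [hs2, update_of_ne hdu, update_of_ne hid.symm, hd1]
  have hu2 : s2 u = (s i).reverse := by rw [hs2, update_self]
  have h3 := runs_psh_loop (v := v) (B := B) hid hiu hdu (s i).reverse s2 hu2 hl2
    (by rw [hi2, List.length_reverse]; simpa using hs i)
    (by rw [hd2, List.length_reverse, List.length_cons]; omega)
  rw [hi2, hd2, List.reverse_reverse, List.append_nil, List.length_reverse] at h3
  have h4 : update (update (update s2 u []) i (s i)) d (mrk (s i) ++ false :: s d) =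
      update s d (mrk (s i) ++ false :: s d) := by
    funext x
    by_cases hxd : x = d
    · subst hxd; rw [update_self, update_self]
    · rw [update_of_ne hxd, update_of_ne hxd]
      by_cases hxi : x = i
      · subst hxi; rw [update_self]
      · rw [update_of_ne hxi]
        by_cases hxu : x = u
        · subst hxu; rw [update_self, hu]
        · rw [update_of_ne hxu, hs2, update_of_ne hxu, update_of_ne hxi, hs1, update_of_ne hxd]
  rw [h4] at h3
  exact (h1.seq (h2.seq h3)).monoT (by omega)

/-- pop a number from the stack of numbers `d` and put it on the stack `i`; `u` and `w` are empty -/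
def popP (i d u w : ℕ) : Prog Δ :=
  .seq (clr i) (.seq (push w true) (.seq (.loop w
    (.ift d (pop w) (.seq (pop d) (pop w)) (.seq (pop d) (mvt d u)))) (pour u i)))

theorem popP_det (i d u w : ℕ) : (popP i d u w : Prog Δ).Det :=
  ⟨clr_det _, push_det _ _, ⟨pop_det _, ⟨pop_det _, pop_det _⟩, pop_det _, mvt_det _ _⟩,
    pour_det _ _⟩

theorem runs_pop_loop {d u w : ℕ} (hdu : d ≠ u) (hdw : d ≠ w) (huw : u ≠ w) (l r : List Bool) :
    ∀ s : Mem, s d = mrk l ++ false :: r → s w = [true] → (∀ j, (s j).length ≤ B) →
      (s u).length + l.length ≤ B →
      Runs v B (.loop w (.ift d (pop w) (.seq (pop d) (pop w)) (.seq (pop d) (mvt d u)))) s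
        (update (update (update s d r) u (l.reverse ++ s u)) w []) (5 * l.length + 6) := by
  induction l with
  | nil =>
    intro s hd hw hs _
    have hd' : s d = false :: r := hd
    have h1 := runs_pop (v := v) (B := B) (s := s) d hs
    rw [hd', List.tail_cons] at h1
    have hrB : r.length ≤ B := by
      have := hs d
      rw [hd', List.length_cons] at this
      omega
    have h2 := runs_pop (v := v) (B := B) (s := update s d r) w (upd_le hs hrB)
    rw [update_of_ne hdw.symm, hw, List.tail_cons] at h2
    have h3 : update (update (update s d r) u (List.reverse [] ++ s u)) w [] =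
        update (update s d r) w [] := by
      congr 1
      funext x
      by_cases hxu : x = u
      · subst hxu; rw [update_self, update_of_ne hdu.symm]; rfl
      · rw [update_of_ne hxu]
    rw [h3]
    refine (Runs.loop1 (by rw [hw]; simp) (Runs.ift1 hd' (h1.seq h2))
      (Runs.loop0 (by rw [update_self]))).monoT (by simp)
  | cons b l ih =>
    intro s hd hw hs hB1
    rw [mrk_cons, List.cons_append, List.cons_append] at hd
    rw [List.length_cons] at hB1
    have hlB : (b :: (mrk l ++ false :: r)).length ≤ B := by
      have := hs d
      rw [hd, List.length_cons] at this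
      omega
    have h1 := runs_pop (v := v) (B := B) (s := s) d hs
    rw [hd, List.tail_cons] at h1
    set s1 : Mem := update s d (b :: (mrk l ++ false :: r)) with hs1
    have hl1 : ∀ j, (s1 j).length ≤ B := upd_le hs hlB
    have hu1 : s1 u = s u := by rw [hs1, update_of_ne hdu.symm]
    have h2 := runs_mvt (v := v) (B := B) (s := s1) d u hdu (by rw [hs1, update_self]) hl1
      (by rw [hu1]; omega)
    rw [hu1] at h2
    set s2 : Mem := update (update s1 d (mrk l ++ false :: r)) u (b :: s u) with hs2
    have hd2 : s2 d = mrk l ++ false :: r := by rw [hs2, update_of_ne hdu, update_self]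
    have hu2 : s2 u = b :: s u := by rw [hs2, update_self]
    have hw2 : s2 w = [true] := by
      rw [hs2, update_of_ne huw.symm, update_of_ne hdw.symm, hs1, update_of_ne hdw.symm, hw]
    have h3 := ih s2 hd2 hw2 (upd_le (upd_le hl1 (by rw [List.length_cons] at hlB; omega)) (by
      rw [List.length_cons]; omega)) (by rw [hu2, List.length_cons]; omega)
    have h4 : update (update (update s2 d r) u (l.reverse ++ s2 u)) w [] =
        update (update (update s d r) u ((b :: l).reverse ++ s u)) w [] := by
      rw [hu2, List.reverse_cons, List.append_assoc]
      funext x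
      by_cases hxw : x = w
      · subst hxw; rw [update_self, update_self]
      · rw [update_of_ne hxw, update_of_ne hxw]
        by_cases hxu : x = u
        · subst hxu; rw [update_self, update_self]; rfl
        · rw [update_of_ne hxu, update_of_ne hxu]
          by_cases hxd : x = d
          · subst hxd; rw [update_self, update_self]
          · rw [update_of_ne hxd, update_of_ne hxd, hs2, update_of_ne hxu, update_of_ne hxd, hs1,
              update_of_ne hxd]
    rw [h4] at h3
    refine (Runs.loop1 (by rw [hw]; simp) (Runs.ift2 hd (h1.seq h2)) h3).monoT ?_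
    rw [List.length_cons]
    omega

theorem runs_popB {s : Mem} {i d u w : ℕ} (hid : i ≠ d) (hiu : i ≠ u) (hiw : i ≠ w) (hdu : d ≠ u)
    (hdw : d ≠ w) (huw : u ≠ w) (hu : s u = []) (hw : s w = []) (hs : ∀ j, (s j).length ≤ B)
    (hB : 1 ≤ B) (A : List ℕ) (hA : s d = blk A) :
    Runs v B (popP i d u w) s (update (update s d (blk A.tail)) i (Nat.bits (A.headD 0)))
      (2 * (s i).length + 7 * Nat.size (A.headD 0) + 12) := by
  have h1 := runs_clr (v := v) (B := B) (s := s) i hs
  have h2 := runs_push (v := v) (B := B) (s := update s i []) w true (upd_le hs (by simp)) (by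
    rw [update_of_ne hiw.symm, hw]; simpa using hB)
  rw [update_of_ne hiw.symm, hw] at h2
  set s1 : Mem := update (update s i []) w [true] with hs1
  have hl1 : ∀ j, (s1 j).length ≤ B := upd_le (upd_le hs (by simp)) (by simpa using hB)
  have hd1 : s1 d = blk A := by rw [hs1, update_of_ne hdw, update_of_ne hid.symm, hA]
  have hw1 : s1 w = [true] := by rw [hs1, update_self]
  have hu1 : s1 u = [] := by rw [hs1, update_of_ne huw, update_of_ne hiu.symm, hu]
  cases A with
  | nil =>
    have hd' : s1 d = [] := hd1
    have h3 := runs_pop (v := v) (B := B) (s := s1) w hl1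
    rw [hw1, List.tail_cons] at h3
    have h3' := Runs.loop1 (v := v) (B := B) (i := w)
      (p := .ift d (pop w) (.seq (pop d) (pop w)) (.seq (pop d) (mvt d u)))
      (by rw [hw1]; simp) (Runs.ift0 (p1 := .seq (pop d) (pop w)) (p2 := .seq (pop d) (mvt d u))
        hd' h3) (Runs.loop0 (by rw [update_self]))
    have h4 := runs_pour (v := v) (B := B) (s := update s1 w []) u i hiu.symm
      (upd_le hl1 (by simp)) (by
        rw [update_of_ne huw, hu1, update_of_ne hiw, hs1, update_of_ne hiw, update_self]
        simp)
    rw [update_of_ne huw, hu1] at h4
    have hi1 : update s1 w [] i = [] := by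
      rw [update_of_ne hiw, hs1, update_of_ne hiw, update_self]
    rw [hi1] at h4
    have h5 : update (update (update s1 w []) u []) i (List.reverse [] ++ []) =
        update (update s d (blk (List.tail []))) i (Nat.bits ((List.headD [] 0))) := by
      funext x
      by_cases hxi : x = i
      · subst hxi; rw [update_self, update_self]; simp
      · rw [update_of_ne hxi, update_of_ne hxi]
        by_cases hxd : x = d
        · subst hxd
          rw [update_self, update_of_ne hdu, update_of_ne hdw, hd']
          rfl
        · rw [update_of_ne hxd]
          by_cases hxu : x = u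
          · subst hxu; rw [update_self, hu]
          · rw [update_of_ne hxu]
            by_cases hxw : x = w
            · subst hxw; rw [update_self, hw]
            · rw [update_of_ne hxw, hs1, update_of_ne hxw, update_of_ne hxi]
    rw [h5] at h4
    exact (h1.seq (h2.seq (h3'.seq h4))).monoT (by simp)
  | cons x A =>
    have hd' : s1 d = mrk (Nat.bits x) ++ false :: blk A := hd1
    have hxB : (Nat.bits x).length ≤ B := by
      have := hl1 d
      rw [hd', List.length_append, mrk_length] at this
      omega
    have h3 := runs_pop_loop (v := v) (B := B) hdu hdw huw (Nat.bits x) (blk A) s1 hd' hw1 hl1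
      (by rw [hu1, List.length_nil]; omega)
    rw [hu1, List.append_nil] at h3
    set s2 : Mem := update (update (update s1 d (blk A)) u (Nat.bits x).reverse) w [] with hs2
    have hAB : (blk A).length ≤ B := by
      have := hl1 d
      rw [hd', List.length_append, List.length_cons] at this
      omega
    have hl2 : ∀ j, (s2 j).length ≤ B := upd_le (upd_le (upd_le hl1 hAB) (by
      rw [List.length_reverse]; exact hxB)) (by simp)
    have hu2 : s2 u = (Nat.bits x).reverse := by rw [hs2, update_of_ne huw, update_self]
    have hi2 : s2 i = [] := by
      rw [hs2, update_of_ne hiw, update_of_ne hiu, update_of_ne hid, hs1, update_of_ne hiw,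
        update_self]
    have h4 := runs_pour (v := v) (B := B) (s := s2) u i hiu.symm hl2 (by
      rw [hu2, hi2, List.length_reverse]; simpa using hxB)
    rw [hu2, hi2, List.reverse_reverse, List.append_nil, List.length_reverse] at h4
    have h5 : update (update s2 u []) i (Nat.bits x) =
        update (update s d (blk (List.tail (x :: A)))) i (Nat.bits ((List.headD (x :: A) 0))) := by
      funext y
      by_cases hxi : y = i
      · subst hxi; rw [update_self, update_self]; rfl
      · rw [update_of_ne hxi, update_of_ne hxi]
        by_cases hxu : y = u
        · subst hxu; rw [update_self, update_of_ne hdu.symm, hu]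
        · rw [update_of_ne hxu, hs2]
          by_cases hxw : y = w
          · subst hxw; rw [update_self, update_of_ne hdw.symm, hw]
          · rw [update_of_ne hxw, update_of_ne hxu]
            by_cases hxd : y = d
            · subst hxd; rw [update_self, update_self]; rfl
            · rw [update_of_ne hxd, update_of_ne hxd, hs1, update_of_ne hxw, update_of_ne hxi]
    rw [h5] at h4
    refine (h1.seq (h2.seq (h3.seq h4))).monoT ?_
    show _ ≤ 2 * (s i).length + 7 * Nat.size x + 12
    rw [← bits_length x]
    omega

end LSP
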