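import Pool.Agent.H69P.Cmp

/-!
# Calls of programs
-/

set_option autoImplicit false

namespace LSP

open H85L Function

variable {Δ : Type} {v : View Δ} {B : ℕ}

/-- call the program `p` for a function of `k` arguments: the arguments are on the stacks `arg j`, the
result is put on the stack `dst`; the stacks from `N` on are used (and empty before and after) -/
def callP (p : Prog Δ) (k N : ℕ) (arg : Fin k → ℕ) (dst : ℕ) : Prog Δ :=
  .seq (seqs ((List.range k).map fun j => if h : j < k then cpy (arg ⟨j, h⟩) (N + (j + 1)) N
      else seqs []))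
    (.seq (p.shift N) (.seq (seqs ((List.range k).map fun j => clr (N + (j + 1))))
      (mov (N + (k + 1)) dst N)))

theorem callP_det {p : Prog Δ} (hp : p.Det) (k N : ℕ) (arg : Fin k → ℕ) (dst : ℕ) :
    (callP p k N arg dst).Det := by
  refine ⟨seqs_det ?_, shift_det N hp, seqs_det ?_, mov_det _ _ _⟩
  · intro q hq
    rw [List.mem_map] at hq
    obtain ⟨j, -, rfl⟩ := hq
    by_cases h : j < k
    · simp only [h, dif_pos]
      exact cpy_det _ _ _
    · simp only [h, dif_neg, not_false_iff]
      exact seqs_det (by simp)
  · intro q hq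
    rw [List.mem_map] at hq
    obtain ⟨j, -, rfl⟩ := hq
    exact clr_det _

/-- the first `j` arguments -/
def part {k : ℕ} (a : Fin k → ℕ) (j : ℕ) : Mem := fun i =>
  if h : 1 ≤ i ∧ i ≤ k ∧ i ≤ j then Nat.bits (a ⟨i - 1, by omega⟩) else []

theorem part_all {k : ℕ} (a : Fin k → ℕ) : part a k = regs a 0 := by
  funext i
  unfold part regs
  by_cases h : 1 ≤ i ∧ i ≤ k
  · rw [dif_pos ⟨h.1, h.2, h.2⟩, dif_pos h]
  · rw [dif_neg (by tauto), dif_neg h]
    split_ifs <;> rfl

theorem part_zero {k : ℕ} (a : Fin k → ℕ) : part a 0 = fun _ => [] := by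
  funext i
  unfold part
  rw [dif_neg (by omega)]

theorem part_len {k : ℕ} (a : Fin k → ℕ) (j i : ℕ) : (part a j i).length ≤ sz a := by
  unfold part
  split_ifs with h
  · rw [bits_length]
    exact size_le_sz a _
  · simp

/-- after the arguments from the `j`-th on are cleared -/
def rest {k : ℕ} (a : Fin k → ℕ) (r : ℕ) (j : ℕ) : Mem := fun i =>
  if 1 ≤ i ∧ i ≤ j then [] else regs a r i

theorem rest_zero {k : ℕ} (a : Fin k → ℕ) (r : ℕ) : rest a r 0 = regs a r := by
  funext i
  unfold rest
  rw [if_neg (by omega)]

theorem glue_empty {N : ℕ} {S : Mem} (hS : ∀ i, N ≤ i → S i = []) :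
    glue N S (fun _ => []) = S := by
  funext i
  unfold glue
  split_ifs with h
  · rfl
  · exact (hS i (by omega)).symm

theorem glue_self {N : ℕ} {S s : Mem} : glue N S s N = s 0 := by
  unfold glue
  rw [if_neg (by omega), Nat.sub_self]

theorem glue_upd {N : ℕ} {S s : Mem} (i : ℕ) (l : List Bool) :
    update (glue N S s) (N + i) l = glue N S (update s i l) := by
  funext x
  by_cases hx : x < N
  · rw [update_of_ne (by omega), glue_lo hx, glue_lo hx]
  · obtain ⟨y, rfl⟩ := Nat.exists_eq_add_of_le (show N ≤ x by omega)
    rw [glue_hi]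
    by_cases hy : y = i
    · subst hy; rw [update_self, update_self]
    · rw [update_of_ne (by omega), update_of_ne hy, glue_hi]

theorem runs_call {p : Prog Δ} {k N : ℕ} {arg : Fin k → ℕ} {dst : ℕ} {a : Fin k → ℕ} {r : ℕ}
    {S : Mem} {T : ℕ} (hN : 0 < N) (hS : ∀ i, (S i).length ≤ B) (hhi : ∀ i, N ≤ i → S i = [])
    (harg : ∀ j, arg j < N ∧ S (arg j) = Nat.bits (a j)) (hdst : dst < N ∧ S dst = [])
    (ha : sz a ≤ B) (hr : Nat.size r ≤ B)
    (hp : Runs (fun _ => v (S 0)) B p (regs a 0) (regs a r) T) :
    Runs v B (callP p k N arg dst) S (update S dst (Nat.bits r))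
      (T + k * (6 * sz a + 6) + 4 * Nat.size r + 9) := by
  -- copying the arguments
  have hg : ∀ s : Mem, (∀ i, (s i).length ≤ B) → ∀ i, (glue N S s i).length ≤ B :=
    fun s hs => glue_le hS hs
  have h1 := Runs.seqsN (v := v) (B := B) (n := k)
    (fun j => if h : j < k then cpy (arg ⟨j, h⟩) (N + (j + 1)) N else seqs [])
    (fun j => glue N S (part a j)) (4 * sz a + 3)
    (hg _ fun i => (part_len a k i).trans ha) (fun j hj => by
      rw [dif_pos hj]
      have hb := harg ⟨j, hj⟩
      have h2 := runs_cpy (v := v) (B := B) (s := glue N S (part a j)) (arg ⟨j, hj⟩)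
        (N + (j + 1)) N (by omega) (by omega) (by omega)
        (by rw [glue_hi]; unfold part; rw [dif_neg (by omega)])
        (by
          rw [glue_self]
          unfold part
          rw [dif_neg (by omega)])
        (hg _ fun i => (part_len a j i).trans ha)
      rw [glue_lo hb.1, hb.2, glue_upd, bits_length] at h2
      have h3 : update (part a j) (j + 1) (Nat.bits (a ⟨j, hj⟩)) = part a (j + 1) := by
        funext i
        by_cases hi : i = j + 1
        · subst hi
          rw [update_self]
          unfold part
          rw [dif_pos ⟨by omega, by omega, le_rfl⟩]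
          congr 1
        · rw [update_of_ne hi]
          unfold part
          by_cases hc : 1 ≤ i ∧ i ≤ k ∧ i ≤ j
          · rw [dif_pos hc, dif_pos ⟨hc.1, hc.2.1, by omega⟩]
          · rw [dif_neg hc, dif_neg (by omega)]
      rw [h3] at h2
      exact h2.monoT (by have := size_le_sz a ⟨j, hj⟩; omega))
  simp only [part_zero, part_all, glue_empty hhi] at h1
  -- the program
  have hregs : ∀ i, (regs a r i).length ≤ B := by
    intro i
    unfold regs
    split_ifs with h h'
    · rw [bits_length]
      exact (size_le_sz a _).trans ha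
    · rw [bits_length]; exact hr
    · simp
  have h2 := hp.shift (v := v) hN hS
  -- clearing
  have h3 := Runs.seqsN (v := v) (B := B) (n := k) (fun j => clr (N + (j + 1)))
    (fun j => glue N S (rest a r j)) (2 * sz a + 1)
    (hg _ fun i => by
      unfold rest
      split_ifs
      · simp
      · exact hregs i) (fun j hj => by
      have h4 := runs_clr (v := v) (B := B) (s := glue N S (rest a r j)) (N + (j + 1))
        (hg _ fun i => by
          unfold rest
          split_ifs
          · simp
          · exact hregs i)
      have h5 : rest a r j (j + 1) = Nat.bits (a ⟨j, hj⟩) := by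
        unfold rest
        rw [if_neg (by omega)]
        exact regs_arg a r ⟨j, hj⟩
      rw [glue_hi, h5, glue_upd, bits_length] at h4
      have h6 : update (rest a r j) (j + 1) [] = rest a r (j + 1) := by
        funext i
        by_cases hi : i = j + 1
        · subst hi
          rw [update_self]
          unfold rest
          rw [if_pos (by omega)]
        · rw [update_of_ne hi]
          unfold rest
          by_cases hc : 1 ≤ i ∧ i ≤ j
          · rw [if_pos hc, if_pos (by omega)]
          · rw [if_neg hc, if_neg (by omega)]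
      rw [h6] at h4
      exact h4.monoT (by have := size_le_sz a ⟨j, hj⟩; omega))
  simp only [rest_zero] at h3
  have h7 : rest a r k = update (fun _ => []) (k + 1) (Nat.bits r) := by
    funext i
    by_cases hi : i = k + 1
    · subst hi
      rw [update_self]
      unfold rest
      rw [if_neg (by omega), regs_res]
    · rw [update_of_ne hi]
      unfold rest
      by_cases hc : 1 ≤ i ∧ i ≤ k
      · rw [if_pos hc]
      · rw [if_neg hc]
        unfold regs
        rw [dif_neg hc, if_neg hi]
  rw [h7] at h3
  -- the result
  have h8 := runs_mov (v := v) (B := B) (s := glue N S (update (fun _ => []) (k + 1) (Nat.bits r)))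
    (N + (k + 1)) dst N (by omega) (by omega) (by omega)
    (by rw [glue_lo hdst.1]; exact hdst.2)
    (by rw [glue_self, update_of_ne (by omega)])
    (hg _ (upd_le (fun _ => by simp) (by rw [bits_length]; exact hr)))
  rw [glue_hi, update_self, glue_upd, update_idem, bits_length] at h8
  have h9 : update (fun _ => ([] : List Bool)) (k + 1) [] = fun _ => [] := by
    funext i
    by_cases hi : i = k + 1
    · subst hi; rw [update_self]
    · rw [update_of_ne hi]
  rw [h9, glue_empty hhi] at h8
  refine (h1.seq (h2.seq (h3.seq h8))).monoT ?_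
  have e1 : k * (4 * sz a + 3 + 1) + k * (2 * sz a + 1 + 1) = k * (6 * sz a + 6) := by ring
  omega

end LSP
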