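import Pool.Agent.H69P.NComp

/-!
# Closure properties of the class of computed functions: composition and bounded iteration
-/

set_option autoImplicit false

namespace LSP

open H85L Function

variable {κ : Kind}

theorem NBd.mono_L {L L' : ℕ} (hL : L ≤ L') {P : NProg κ} {R : ℕ → ℕ} {τ : ℕ}
    (h : NBd L P R τ) : NBd L' P R τ := by
  induction h with
  | asg h => exact .asg (h.trans hL)
  | gss h => exact .gss (h.trans hL)
  | seq _ _ ih1 ih2 => exact .seq ih1 ih2
  | ifz0 h _ ih => exact .ifz0 h ih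
  | ifz1 h _ ih => exact .ifz1 h ih
  | loop0 h => exact .loop0 h
  | loop1 h _ _ ih1 ih2 => exact .loop1 h ih1 ih2
  | fail => exact .fail
  | mono h _ ih => exact .mono h ih

/-- single-valued computations -/
structure NRuns (L : ℕ) (P : NProg κ) (R R' : ℕ → ℕ) (τ : ℕ) : Prop where
  bd : NBd L P R τ
  ex : NRes P R R'
  un : ∀ R'', NRes P R R'' → R'' = R'

theorem NRuns.mono {L L' : ℕ} {P : NProg κ} {R R' : ℕ → ℕ} {τ τ' : ℕ} (h : NRuns L P R R' τ)
    (hL : L ≤ L') (hτ : τ ≤ τ') : NRuns L' P R R' τ' :=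
  ⟨.mono hτ (h.bd.mono_L hL), h.ex, h.un⟩

theorem NRuns.monoT {L : ℕ} {P : NProg κ} {R R' : ℕ → ℕ} {τ τ' : ℕ} (h : NRuns L P R R' τ)
    (hτ : τ ≤ τ') : NRuns L P R R' τ' := h.mono le_rfl hτ

theorem NRuns.asg {L k : ℕ} {F : (Fin k → ℕ) → ℕ} (hF : Cmp κ F) (arg : Fin k → ℕ) (dst : ℕ)
    (R : ℕ → ℕ) (hL : Nat.size (F fun j => R (arg j)) ≤ L) :
    NRuns L (.asg k F hF arg dst) R (update R dst (F fun j => R (arg j))) 1 :=
  ⟨.asg hL, .asg _ _ _ _ _ _, fun R'' h => by cases h; rfl⟩

theorem NRuns.seq {L : ℕ} {P Q : NProg κ} {R R1 R2 : ℕ → ℕ} {T1 T2 : ℕ} (h1 : NRuns L P R R1 T1)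
    (h2 : NRuns L Q R1 R2 T2) : NRuns L (.seq P Q) R R2 (T1 + T2 + 1) := by
  refine ⟨.seq h1.bd fun R' hr => ?_, .seq h1.ex h2.ex, fun R'' hr => ?_⟩
  · rw [h1.un _ hr]; exact h2.bd
  · cases hr with
    | seq a b => rw [h1.un _ a] at b; exact h2.un _ b

theorem NRuns.ifz0 {L i : ℕ} {P Q : NProg κ} {R R' : ℕ → ℕ} {T : ℕ} (hi : R i = 0)
    (h : NRuns L P R R' T) : NRuns L (.ifz i P Q) R R' (T + 1) := by
  refine ⟨.ifz0 hi h.bd, .ifz0 hi h.ex, fun R'' hr => ?_⟩
  cases hr with
  | ifz0 _ a => exact h.un _ a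
  | ifz1 b _ => exact absurd hi b

theorem NRuns.ifz1 {L i : ℕ} {P Q : NProg κ} {R R' : ℕ → ℕ} {T : ℕ} (hi : R i ≠ 0)
    (h : NRuns L Q R R' T) : NRuns L (.ifz i P Q) R R' (T + 1) := by
  refine ⟨.ifz1 hi h.bd, .ifz1 hi h.ex, fun R'' hr => ?_⟩
  cases hr with
  | ifz1 _ a => exact h.un _ a
  | ifz0 b _ => exact absurd b hi

theorem NRuns.loop0 {L i : ℕ} {P : NProg κ} {R : ℕ → ℕ} (hi : R i = 0) :
    NRuns L (.loop i P) R R 1 := by
  refine ⟨.loop0 hi, .loop0 hi, fun R'' hr => ?_⟩
  cases hr with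
  | loop0 _ => rfl
  | loop1 b _ _ => exact absurd hi b

theorem NRuns.loop1 {L i : ℕ} {P : NProg κ} {R R1 R2 : ℕ → ℕ} {T1 T2 : ℕ} (hi : R i ≠ 0)
    (h1 : NRuns L P R R1 T1) (h2 : NRuns L (.loop i P) R1 R2 T2) :
    NRuns L (.loop i P) R R2 (T1 + T2 + 1) := by
  refine ⟨.loop1 hi h1.bd fun R' hr => ?_, .loop1 hi h1.ex h2.ex, fun R'' hr => ?_⟩
  · rw [h1.un _ hr]; exact h2.bd
  · cases hr with
    | loop0 b => exact absurd b hi
    | loop1 _ a b => rw [h1.un _ a] at b; exact h2.un _ b

theorem NRuns.loopN {L i : ℕ} {P : NProg κ} (m : ℕ → ℕ → ℕ) (n T : ℕ) (hend : m n i = 0)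
    (hne : ∀ j < n, m j i ≠ 0) (h : ∀ j < n, NRuns L P (m j) (m (j + 1)) T) :
    NRuns L (.loop i P) (m 0) (m n) (n * (T + 1) + 1) := by
  induction n generalizing m with
  | zero => exact (NRuns.loop0 hend).monoT (by omega)
  | succ n ih =>
    have h2 := ih (fun j => m (j + 1)) hend (fun j hj => hne (j + 1) (by omega))
      (fun j hj => h (j + 1) (by omega))
    exact (NRuns.loop1 (hne 0 (by omega)) (h 0 (by omega)) h2).monoT (by
      rw [Nat.succ_mul]
      omega)

/-- do nothing -/
def nskip : NProg κ := .asg 1 (fun a => a 0) (cmp_proj κ 0) (fun _ => 0) 0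

theorem runs_nskip {L : ℕ} {R : ℕ → ℕ} (hL : Nat.size (R 0) ≤ L) : NRuns L (nskip : NProg κ) R R 1 := by
  have h := NRuns.asg (L := L) (cmp_proj κ (0 : Fin 1)) (fun _ => 0) 0 R hL
  rw [update_eq_self] at h
  exact h

/-- `P 0, ..., P (n - 1)` -/
def nseqN (P : ℕ → NProg κ) : ℕ → NProg κ
  | 0 => nskip
  | n + 1 => .seq (nseqN P n) (P n)

theorem nseqN_det {P : ℕ → NProg κ} {n : ℕ} (h : ∀ j < n, (P j).Det) : (nseqN P n).Det := by
  induction n with
  | zero => trivial
  | succ n ih => exact ⟨ih fun j hj => h j (by omega), h n (by omega)⟩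

theorem nseqN_uses {P : ℕ → NProg κ} {n M : ℕ} (hM : 0 < M) (h : ∀ j < n, (P j).Uses M) :
    (nseqN P n).Uses M := by
  induction n with
  | zero => exact ⟨fun _ => hM, hM⟩
  | succ n ih => exact ⟨ih fun j hj => h j (by omega), h n (by omega)⟩

theorem NRuns.seqN {L : ℕ} (P : ℕ → NProg κ) (m : ℕ → ℕ → ℕ) (n T : ℕ)
    (h0 : Nat.size (m 0 0) ≤ L) (h : ∀ j < n, NRuns L (P j) (m j) (m (j + 1)) T) :
    NRuns L (nseqN P n) (m 0) (m n) (n * (T + 1) + 1) := by
  induction n with
  | zero => exact (runs_nskip h0).monoT (by omega)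
  | succ n ih =>
    exact ((ih fun j hj => h j (by omega)).seq (h n (by omega))).monoT (by
      rw [Nat.succ_mul]
      omega)

/-- outside the used variables nothing changes -/
theorem NRes.frame {P : NProg κ} {R R' : ℕ → ℕ} (h : NRes P R R') {M : ℕ} :
    P.Uses M → ∀ i, M ≤ i → R' i = R i := by
  induction h with
  | asg k F hF arg dst R =>
    intro hP i hi
    exact update_of_ne (by have := hP.2; omega) _ _
  | gss dst b R =>
    intro hP i hi
    exact update_of_ne (by have : dst < M := hP; omega) _ _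
  | seq _ _ ih1 ih2 => intro hP i hi; rw [ih2 hP.2 i hi, ih1 hP.1 i hi]
  | ifz0 _ _ ih => intro hP i hi; exact ih hP.2.1 i hi
  | ifz1 _ _ ih => intro hP i hi; exact ih hP.2.2 i hi
  | loop0 _ => intro _ _ _; rfl
  | loop1 _ _ _ ih1 ih2 => intro hP i hi; rw [ih2 hP i hi, ih1 hP.2 i hi]

/-- put `0` into the variable `i` -/
def nzero (i : ℕ) : NProg κ := .asg 0 (fun _ => 0) (cmp_zero κ 0) (fun j => j.elim0) i

/-- copy the variable `i` into the variable `j` -/
def ncopy (i j : ℕ) : NProg κ := .asg 1 (fun a => a 0) (cmp_proj κ 0) (fun _ => i) j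

theorem runs_nzero {L i : ℕ} {R : ℕ → ℕ} : NRuns L (nzero i : NProg κ) R (update R i 0) 1 :=
  NRuns.asg (cmp_zero κ 0) (fun j => j.elim0) i R (by simp)

theorem runs_ncopy {L i j : ℕ} {R : ℕ → ℕ} (hL : Nat.size (R i) ≤ L) :
    NRuns L (ncopy i j : NProg κ) R (update R j (R i)) 1 :=
  NRuns.asg (cmp_proj κ (0 : Fin 1)) (fun _ => i) j R hL

/-- A function is computed if a program with number variables computes it: the arguments are the
variables `0, ..., k - 1`, the result is the variable `k`, and `M` variables are used. -/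
theorem Cmp.of_nprog {k : ℕ} {F : (Fin k → ℕ) → ℕ} (P : NProg κ) (M : ℕ) (hP : P.Uses M)
    (hkM : k < M) (hdet : κ.det = true → P.Det) (c : ℕ)
    (h : ∀ (a : Fin k → ℕ) (R : ℕ → ℕ), (∀ i : Fin k, R i = a i) →
      (∀ i, k ≤ i → i < M → R i = 0) →
      NBd (c * (sz a + 1)) P R (2 ^ (c * (sz a + 1))) ∧ (∃ R', NRes P R R') ∧
      ∀ R', NRes P R R' → R' k = F a) : Cmp κ F := by
  -- the wrapper
  set save : NProg κ := nseqN (fun j => ncopy j (M + j)) k with hsave
  set rest : NProg κ := nseqN (fun j => ncopy (M + j) j) k with hrest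
  set clean : NProg κ := nseqN (fun j => nzero (k + 1 + j)) (M - 1) with hclean
  set W : NProg κ := .seq save (.seq P (.seq rest clean)) with hW
  have hWU : W.Uses (M + k) := by
    refine ⟨nseqN_uses (by omega) fun j hj => ⟨fun _ => show j < M + k by omega, by omega⟩, ?_,
      nseqN_uses (by omega) fun j hj => ⟨fun _ => show M + j < M + k by omega, by omega⟩,
      nseqN_uses (by omega) fun j hj => ⟨fun j => j.elim0, by omega⟩⟩
    have mono : ∀ (Q : NProg κ) (M' M'' : ℕ), M' ≤ M'' → Q.Uses M' → Q.Uses M'' := by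
      intro Q M' M'' hM
      induction Q with
      | asg k F hF arg dst =>
        intro h
        exact ⟨fun j => (h.1 j).trans_le hM, h.2.trans_le hM⟩
      | gss dst => intro h; exact lt_of_lt_of_le h hM
      | seq p q h1 h2 => intro h; exact ⟨h1 h.1, h2 h.2⟩
      | ifz i p q h1 h2 => intro h; exact ⟨lt_of_lt_of_le h.1 hM, h1 h.2.1, h2 h.2.2⟩
      | loop i p h1 => intro h; exact ⟨lt_of_lt_of_le h.1 hM, h1 h.2⟩
      | fail => intro _; trivial
    exact mono P M (M + k) (by omega) hP
  have hWD : κ.det = true → W.Det := fun hκ =>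
    ⟨nseqN_det fun _ _ => trivial, hdet hκ, nseqN_det fun _ _ => trivial,
      nseqN_det fun _ _ => trivial⟩
  -- what the wrapper does
  have key : ∀ a : Fin k → ℕ, ∀ R : ℕ → ℕ, (∀ i : Fin k, R i = a i) → (∀ i, k ≤ i → R i = 0) →
      ∀ L, c * (sz a + 1) ≤ L → sz a ≤ L → ∀ T, 2 ^ (c * (sz a + 1)) ≤ T →
      NBd L W R ((k * 2 + 1) + (T + ((k * 2 + 1) + ((M - 1) * 2 + 1) + 1) + 1) + 1) ∧
      (∃ R', NRes W R R') ∧ ∀ R', NRes W R R' → (∀ i : Fin k, R' i = a i) ∧ R' k = F a ∧
        ∀ i, k < i → i < M + k → R' i = 0 := by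
    intro a R hR hR0 L hL hsL T hT
    have hsz : ∀ i, Nat.size (R i) ≤ L := by
      intro i
      by_cases hi : i < k
      · rw [hR ⟨i, hi⟩]
        exact (size_le_sz a ⟨i, hi⟩).trans hsL
      · rw [hR0 i (by omega)]
        simp
    -- saving
    have h1 := NRuns.seqN (κ := κ) (L := L) (fun j => ncopy j (M + j))
      (fun j i => if M ≤ i ∧ i < M + j then R (i - M) else R i) k 1
      (by simpa using hsz 0) (fun j hj => by
        have h2 := runs_ncopy (κ := κ) (L := L) (i := j) (j := M + j)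
          (R := fun i => if M ≤ i ∧ i < M + j then R (i - M) else R i) (by
            show Nat.size (if M ≤ j ∧ j < M + j then R (j - M) else R j) ≤ L
            rw [if_neg (by omega)]
            exact hsz j)
        have h3 : update (fun i => if M ≤ i ∧ i < M + j then R (i - M) else R i) (M + j)
            (if M ≤ j ∧ j < M + j then R (j - M) else R j) =
            fun i => if M ≤ i ∧ i < M + (j + 1) then R (i - M) else R i := by
          funext i
          by_cases hi : i = M + j
          · subst hi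
            rw [update_self, if_neg (by omega), if_pos (by omega)]
            congr 1
            omega
          · rw [update_of_ne hi]
            by_cases hc : M ≤ i ∧ i < M + j
            · rw [if_pos hc, if_pos (by omega)]
            · rw [if_neg hc, if_neg (by omega)]
        rw [h3] at h2
        exact h2)
    set R1 : ℕ → ℕ := fun i => if M ≤ i ∧ i < M + k then R (i - M) else R i with hR1
    have h10 : (fun i => if M ≤ i ∧ i < M + 0 then R (i - M) else R i) = R := by
      funext i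
      rw [if_neg (by omega)]
    simp only [h10] at h1
    -- the program
    obtain ⟨b1, b2, b3⟩ := h a R1 (fun i => by
      have := i.2
      rw [hR1]
      simp only
      rw [if_neg (by omega), hR i]) (fun i h1 h2 => by
      rw [hR1]
      simp only
      rw [if_neg (by omega), hR0 i h1])
    -- restoring and cleaning, from any memory
    have h4 : ∀ R2 : ℕ → ℕ, (∀ i, M ≤ i → R2 i = R1 i) → (∀ i < M, Nat.size (R2 i) ≤ L) →
        ∃ R3, NRuns L (.seq rest clean) R2 R3 ((k * 2 + 1) + ((M - 1) * 2 + 1) + 1) ∧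
          (∀ i : Fin k, R3 i = a i) ∧ R3 k = R2 k ∧ ∀ i, k < i → i < M + k → R3 i = 0 := by
      intro R2 hR2 hs2
      have h5 := NRuns.seqN (κ := κ) (L := L) (fun j => ncopy (M + j) j)
        (fun j i => if i < j then R2 (M + i) else R2 i) k 1
        (by simpa using hs2 0 (by omega)) (fun j hj => by
          have h2 := runs_ncopy (κ := κ) (L := L) (i := M + j) (j := j)
            (R := fun i => if i < j then R2 (M + i) else R2 i) (by
              show Nat.size (if M + j < j then _ else R2 (M + j)) ≤ L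
              rw [if_neg (by omega), hR2 _ (by omega), hR1]
              simp only
              rw [if_pos (by omega)]
              exact hsz _)
          have h3 : update (fun i => if i < j then R2 (M + i) else R2 i) j
              (if M + j < j then R2 (M + (M + j)) else R2 (M + j)) =
              fun i => if i < j + 1 then R2 (M + i) else R2 i := by
            funext i
            by_cases hi : i = j
            · subst hi
              rw [update_self, if_neg (by omega), if_pos (by omega)]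
            · rw [update_of_ne hi]
              by_cases hc : i < j
              · rw [if_pos hc, if_pos (by omega)]
              · rw [if_neg hc, if_neg (by omega)]
          rw [h3] at h2
          exact h2)
      set R3 : ℕ → ℕ := fun i => if i < k then R2 (M + i) else R2 i with hR3
      have h50 : (fun i => if i < 0 then R2 (M + i) else R2 i) = R2 := by
        funext i
        rw [if_neg (by omega)]
      simp only [h50] at h5
      have h6 := NRuns.seqN (κ := κ) (L := L) (fun j => nzero (k + 1 + j))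
        (fun j i => if k + 1 ≤ i ∧ i < k + 1 + j then 0 else R3 i) (M - 1) 1
        (by
          show Nat.size (if k + 1 ≤ 0 ∧ 0 < k + 1 + 0 then 0 else R3 0) ≤ L
          rw [if_neg (by omega), hR3]
          simp only
          split_ifs with h0
          · rw [hR2 _ (by omega), hR1]
            simp only
            rw [if_pos (by omega)]
            exact hsz _
          · exact hs2 0 (by omega)) (fun j hj => by
          have h2 := runs_nzero (κ := κ) (L := L) (i := k + 1 + j)
            (R := fun i => if k + 1 ≤ i ∧ i < k + 1 + j then 0 else R3 i)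
          have h3 : update (fun i => if k + 1 ≤ i ∧ i < k + 1 + j then 0 else R3 i) (k + 1 + j) 0 =
              fun i => if k + 1 ≤ i ∧ i < k + 1 + (j + 1) then 0 else R3 i := by
            funext i
            by_cases hi : i = k + 1 + j
            · subst hi
              rw [update_self, if_pos (by omega)]
            · rw [update_of_ne hi]
              by_cases hc : k + 1 ≤ i ∧ i < k + 1 + j
              · rw [if_pos hc, if_pos (by omega)]
              · rw [if_neg hc, if_neg (by omega)]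
          rw [h3] at h2
          exact h2)
      have h60 : (fun i => if k + 1 ≤ i ∧ i < k + 1 + 0 then 0 else R3 i) = R3 := by
        funext i
        rw [if_neg (by omega)]
      simp only [h60] at h6
      refine ⟨_, h5.seq h6, ?_, ?_, ?_⟩
      · intro i
        have hi := i.2
        rw [if_neg (by omega), hR3]
        simp only
        rw [if_pos hi, hR2 _ (by omega), hR1]
        simp only
        rw [if_pos (by omega), ← hR i]
        congr 1
        omega
      · rw [if_neg (by omega), hR3]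
        simp only
        rw [if_neg (by omega)]
      · intro i hi1 hi2
        rw [if_pos (by omega)]
    have hs1 : ∀ i < M, Nat.size (R1 i) ≤ L := by
      intro i hi
      rw [hR1]
      simp only
      rw [if_neg (by omega)]
      exact hsz i
    have b1' : NBd L P R1 T := .mono hT (b1.mono_L hL)
    have hf : ∀ R2, NRes P R1 R2 → (∀ i, M ≤ i → R2 i = R1 i) ∧ ∀ i < M, Nat.size (R2 i) ≤ L :=
      fun R2 hr => ⟨hr.frame hP, b1'.sizes R2 hr hs1⟩
    refine ⟨?_, ?_, ?_⟩
    · refine .mono ?_ (.seq (T2 := T + ((k * 2 + 1) + ((M - 1) * 2 + 1) + 1) + 1) h1.bd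
        fun R' hr => ?_)
      · omega
      · rw [h1.un _ hr]
        refine .seq b1' fun R2 hr2 => ?_
        obtain ⟨R3, h7, -⟩ := h4 R2 (hf R2 hr2).1 (hf R2 hr2).2
        exact h7.bd
    · obtain ⟨R2, hr2⟩ := b2
      obtain ⟨R3, h7, -⟩ := h4 R2 (hf R2 hr2).1 (hf R2 hr2).2
      exact ⟨R3, .seq h1.ex (.seq hr2 h7.ex)⟩
    · intro R' hr
      rw [hW] at hr
      cases hr with
      | seq x y =>
        rw [h1.un _ x] at y
        cases y with
        | @seq _ _ _ R2 _ hr2 z =>
          obtain ⟨R3, h7, h8, h9, h10⟩ := h4 R2 (hf R2 hr2).1 (hf R2 hr2).2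
          rw [h7.un _ z]
          exact ⟨h8, by rw [h9, b3 R2 hr2], h10⟩
  -- compile
  intro Δ
  obtain ⟨p, hp⟩ := NProg.compile (Δ := Δ) W hWU
  obtain ⟨c', hc'⟩ := hp.bd
  refine ⟨p, fun hκ => hp.det hκ (hWD hκ), c' * (c + 2) + c + 4 * M + 4 * k + 12, fun v a => ?_⟩
  set R : ℕ → ℕ := fun i => if h : i < k then a ⟨i, h⟩ else 0 with hR
  set L := (c + 1) * (sz a + 1) with hL
  have hLs : sz a ≤ L := by rw [hL]; nlinarith
  have hLc : c * (sz a + 1) ≤ L := by rw [hL]; nlinarith
  obtain ⟨k1, k2, k3⟩ := key a R (fun i => by rw [hR]; simp) (fun i hi => by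
    rw [hR]; simp only; rw [dif_neg (by omega)]) L hLc hLs (2 ^ (c * (sz a + 1))) le_rfl
  have hmem0 : memN (M + k) R = regs a 0 := by
    funext i
    unfold memN regs
    by_cases hi : 1 ≤ i ∧ i ≤ k
    · rw [if_pos (by omega), dif_pos hi, hR]
      simp only
      rw [dif_pos (by omega)]
    · rw [dif_neg hi]
      have h0 : (if i = k + 1 then Nat.bits 0 else ([] : List Bool)) = [] := by split_ifs <;> rfl
      rw [h0]
      split_ifs with h1
      · rw [hR]
        simp only
        rw [dif_neg (by omega)]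
        rfl
      · rfl
  have hmem1 : ∀ R', NRes W R R' → memN (M + k) R' = regs a (F a) := by
    intro R' hr
    obtain ⟨e1, e2, e3⟩ := k3 R' hr
    funext i
    unfold memN regs
    by_cases hi : 1 ≤ i ∧ i ≤ k
    · rw [if_pos (by omega), dif_pos hi, e1 ⟨i - 1, by omega⟩]
    · rw [dif_neg hi]
      by_cases hi' : i = k + 1
      · subst hi'
        rw [if_pos (by omega), if_pos rfl, Nat.add_sub_cancel, e2]
      · rw [if_neg hi']
        split_ifs with h1
        · rw [e3 (i - 1) (by omega) (by omega)]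
          rfl
        · rfl
  have hsR : ∀ i < M + k, Nat.size (R i) ≤ L := by
    intro i _
    rw [hR]
    simp only
    split_ifs with h1
    · exact (size_le_sz a _).trans hLs
    · simp
  have hbd := hc' v L R _ hsR k1
  rw [hmem0] at hbd
  obtain ⟨R', hr'⟩ := k2
  obtain ⟨t, ht⟩ := hp.cpl v R R' hr'
  rw [hmem0, hmem1 R' hr'] at ht
  have hruns : Runs v (hb κ c' L) p (regs a 0) (regs a (F a))
      (((k * 2 + 1) + (2 ^ (c * (sz a + 1)) + ((k * 2 + 1) + ((M - 1) * 2 + 1) + 1) + 1) + 1) *
        2 ^ (c' * (L + 1))) := by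
    refine ⟨hbd, ⟨t, ht⟩, fun s' t' hr => ?_⟩
    rw [← hmem0] at hr
    obtain ⟨R'', rfl, hr''⟩ := hp.snd v R s' t' hr
    exact hmem1 R'' hr''
  have hsF : Nat.size (F a) ≤ L := by
    have h1 := k1.sizes (M := M + k) R' hr' hsR k (by omega)
    rw [(k3 R' hr').2.1] at h1
    exact h1
  have e0 : (c' * (c + 2) + c + 4 * M + 4 * k + 12) * (sz a + 1) = c' * (c + 2) * (sz a + 1) +
      c * (sz a + 1) + (4 * M + 4 * k + 12) * (sz a + 1) := by ring
  have e1 : c' * (L + 1) ≤ c' * (c + 2) * (sz a + 1) := by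
    rw [mul_assoc]
    refine Nat.mul_le_mul_left _ ?_
    rw [hL]
    nlinarith
  have e2 : (4 * M + 4 * k + 12) ≤ (4 * M + 4 * k + 12) * (sz a + 1) := Nat.le_mul_of_pos_right _
    (by omega)
  refine ⟨_, _, hruns, ?_, ?_, ?_⟩
  · have e3 : (k * 2 + 1) + (2 ^ (c * (sz a + 1)) + ((k * 2 + 1) + ((M - 1) * 2 + 1) + 1) + 1) + 1 ≤
        2 ^ (c * (sz a + 1)) * 2 ^ (4 * M + 4 * k + 11) := by
      have f1 : 4 * M + 4 * k + 11 < 2 ^ (4 * M + 4 * k + 11) := Nat.lt_two_pow_self
      have f2 : 1 ≤ 2 ^ (c * (sz a + 1)) := Nat.one_le_two_pow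
      have f3 : 2 ^ (c * (sz a + 1)) + (4 * M + 4 * k + 11) ≤
          2 ^ (c * (sz a + 1)) * (4 * M + 4 * k + 12) := by nlinarith
      have f4 : 2 ^ (c * (sz a + 1)) * (4 * M + 4 * k + 12) ≤
        2 ^ (c * (sz a + 1)) * 2 ^ (4 * M + 4 * k + 11) := Nat.mul_le_mul_left _ (by omega)
      omega
    refine (Nat.mul_le_mul_right _ e3).trans ?_
    rw [← pow_add, ← pow_add]
    exact Nat.pow_le_pow_right (by norm_num) (by omega)
  · intro hκ
    unfold hb
    rw [hκ]
    simp only [Bool.false_eq_true, if_false]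
    omega
  · have e4 : L = c * (sz a + 1) + (sz a + 1) := by rw [hL]; ring
    have e5 : (sz a + 1) ≤ (4 * M + 4 * k + 12) * (sz a + 1) := Nat.le_mul_of_pos_left _ (by omega)
    omega

theorem Cmp.size {k : ℕ} {F : (Fin k → ℕ) → ℕ} (h : Cmp κ F) :
    ∃ c, ∀ a, Nat.size (F a) ≤ c * (sz a + 1) := by
  obtain ⟨p, -, c, hp⟩ := h Unit
  refine ⟨c, fun a => ?_⟩
  obtain ⟨B, T, -, -, -, h4⟩ := hp (fun _ => none) a
  exact h4

end LSP
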