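import Pool.Agent.H69P.Shift

/-!
# Functions computed by programs

`Cmp κ F`: the function `F` of `k` natural numbers is computed by a (single-valued) program of the kind
`κ`: the arguments are on the stacks `1, ..., k`, the result is put on the stack `k + 1`, and all other
stacks are empty before and after. Every program terminates after `2 ^ O(size)` moves, for the kinds with
space bounds all stacks have heights `O(size)`, and the result has size `O(size)`.
-/

set_option autoImplicit false

namespace LSP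

open H85L Function

variable {Δ : Type} {v : View Δ} {B : ℕ}

theorem Res.len {p : Prog Δ} {s s' : Mem} {t : ℕ} (h : Res v p s s' t) (i : ℕ) :
    (s' i).length ≤ (s i).length + t := by
  induction h with
  | move k F s b =>
    unfold doMove
    split_ifs with hi
    · exact Mach.app_length_le _ _
    · omega
  | seq _ _ ih1 ih2 => omega
  | ift0 _ _ ih => omega
  | ift1 _ _ ih => omega
  | ift2 _ _ ih => omega
  | loop0 _ => omega
  | loop1 _ _ _ ih1 ih2 => omega

theorem Bd.time {p : Prog Δ} {s : Mem} {T : ℕ} (h : Bd v B p s T) :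
    ∀ s' t, Res v p s s' t → t ≤ T := by
  induction h with
  | move _ => intro s' t hr; cases hr; exact le_rfl
  | fail => intro s' t hr; cases hr
  | seq _ _ ih1 ih2 =>
    intro s' t hr
    cases hr with
    | seq a b =>
      have h1 := ih1 _ _ a
      have h2 := ih2 _ _ a _ _ b
      omega
  | ift0 hh _ ih =>
    intro s' t hr
    cases hr with
    | ift0 _ a => have := ih _ _ a; omega
    | ift1 b a => rw [hh] at b; simp at b
    | ift2 b a => rw [hh] at b; simp at b
  | ift1 hh _ ih =>
    intro s' t hr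
    cases hr with
    | ift1 _ a => have := ih _ _ a; omega
    | ift0 b a => rw [hh] at b; simp at b
    | ift2 b a => rw [hh] at b; simp at b
  | ift2 hh _ ih =>
    intro s' t hr
    cases hr with
    | ift2 _ a => have := ih _ _ a; omega
    | ift0 b a => rw [hh] at b; simp at b
    | ift1 b a => rw [hh] at b; simp at b
  | loop0 hh =>
    intro s' t hr
    cases hr with
    | loop0 _ => exact le_rfl
    | loop1 a _ _ => exact absurd hh a
  | loop1 hh _ _ ih1 ih2 =>
    intro s' t hr
    cases hr with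
    | loop0 a => exact absurd a hh
    | loop1 _ a b =>
      have h1 := ih1 _ _ a
      have h2 := ih2 _ _ a _ _ b
      omega
  | mono hT _ ih => intro s' t hr; exact (ih s' t hr).trans hT

/-- the heights are bounded by the time -/
theorem Bd.heights {p : Prog Δ} {s : Mem} {T : ℕ} (h : Bd v B p s T) :
    ∀ m, (∀ i, (s i).length ≤ m) → Bd v (m + T) p s T := by
  induction h with
  | @move k F s _ =>
    intro m hm
    refine .move fun b i => ?_
    have := (Res.move (v := v) k F s b).len i
    have := hm i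
    omega
  | fail => intro m _; exact .fail
  | @seq p q s T1 T2 h1 _ ih1 ih2 =>
    intro m hm
    refine .seq ((ih1 m hm).mono_B (by omega)) fun s1 t hr => ?_
    refine (ih2 s1 t hr (m + T1) fun i => ?_).mono_B (by omega)
    have a1 := hr.len i
    have a2 := h1.time _ _ hr
    have a3 := hm i
    omega
  | ift0 hh _ ih => intro m hm; exact .ift0 hh ((ih m hm).mono_B (by omega))
  | ift1 hh _ ih => intro m hm; exact .ift1 hh ((ih m hm).mono_B (by omega))
  | ift2 hh _ ih => intro m hm; exact .ift2 hh ((ih m hm).mono_B (by omega))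
  | loop0 hh => intro m _; exact .loop0 hh
  | @loop1 i p s T1 T2 hh h1 _ ih1 ih2 =>
    intro m hm
    refine .loop1 hh ((ih1 m hm).mono_B (by omega)) fun s1 t hr => ?_
    refine (ih2 s1 t hr (m + T1) fun i => ?_).mono_B (by omega)
    have a1 := hr.len i
    have a2 := h1.time _ _ hr
    have a3 := hm i
    omega
  | mono hT _ ih => intro m hm; exact .mono hT ((ih m hm).mono_B (by omega))

theorem Runs.heights {p : Prog Δ} {s s' : Mem} {T : ℕ} (h : Runs v B p s s' T) {m : ℕ}
    (hm : ∀ i, (s i).length ≤ m) : Runs v (m + T) p s s' T := ⟨h.bd.heights m hm, h.ex, h.un⟩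

/-! ### Registers -/

/-- total size of the arguments -/
def sz {k : ℕ} (a : Fin k → ℕ) : ℕ := ∑ i, Nat.size (a i)

theorem size_le_sz {k : ℕ} (a : Fin k → ℕ) (i : Fin k) : Nat.size (a i) ≤ sz a :=
  Finset.single_le_sum (f := fun i => Nat.size (a i)) (fun _ _ => Nat.zero_le _) (Finset.mem_univ i)

theorem sz_le {k : ℕ} (a : Fin k → ℕ) {L : ℕ} (h : ∀ i, Nat.size (a i) ≤ L) : sz a ≤ k * L := by
  have := Finset.sum_le_card_nsmul Finset.univ (fun i => Nat.size (a i)) L (fun i _ => h i)
  simpa [sz] using this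

/-- the arguments on the stacks `1, ..., k` and the result on the stack `k + 1` -/
def regs {k : ℕ} (a : Fin k → ℕ) (r : ℕ) : Mem := fun i =>
  if h : 1 ≤ i ∧ i ≤ k then Nat.bits (a ⟨i - 1, by omega⟩) else if i = k + 1 then Nat.bits r else []

theorem regs_arg {k : ℕ} (a : Fin k → ℕ) (r : ℕ) (j : Fin k) :
    regs a r (j + 1) = Nat.bits (a j) := by
  unfold regs
  rw [dif_pos ⟨by omega, by have := j.2; omega⟩]
  congr 1

theorem regs_res {k : ℕ} (a : Fin k → ℕ) (r : ℕ) : regs a r (k + 1) = Nat.bits r := by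
  unfold regs
  rw [dif_neg (by omega), if_pos rfl]

theorem regs_zero {k : ℕ} (a : Fin k → ℕ) (r : ℕ) : regs a r 0 = [] := by
  unfold regs
  rw [dif_neg (by omega), if_neg (by omega)]

theorem regs_hi {k : ℕ} (a : Fin k → ℕ) (r : ℕ) {i : ℕ} (h : k + 1 < i) : regs a r i = [] := by
  unfold regs
  rw [dif_neg (by omega), if_neg (by omega)]

theorem regs_upd {k : ℕ} (a : Fin k → ℕ) (r r' : ℕ) :
    update (regs a r) (k + 1) (Nat.bits r') = regs a r' := by
  funext i
  by_cases h : i = k + 1
  · subst h; rw [update_self, regs_res]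
  · rw [update_of_ne h]
    unfold regs
    rw [if_neg h, if_neg h]

theorem regs_len {k : ℕ} (a : Fin k → ℕ) (r : ℕ) (i : ℕ) :
    (regs a r i).length ≤ sz a + Nat.size r := by
  unfold regs
  split_ifs with h h'
  · rw [bits_length]
    have := size_le_sz a ⟨i - 1, by omega⟩
    omega
  · rw [bits_length]
    omega
  · simp

/-- functions computed by a program of the kind `κ` -/
def Cmp (κ : Kind) {k : ℕ} (F : (Fin k → ℕ) → ℕ) : Prop :=
  ∀ Δ : Type, ∃ p : Prog Δ, (κ.det = true → p.Det) ∧ ∃ c : ℕ, ∀ (v : View Δ) (a : Fin k → ℕ),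
    ∃ B T, Runs v B p (regs a 0) (regs a (F a)) T ∧ T ≤ 2 ^ (c * (sz a + 1)) ∧
      (κ.time = false → B ≤ c * (sz a + 1)) ∧ Nat.size (F a) ≤ c * (sz a + 1)

/-- bound for the heights -/
def hb (κ : Kind) (c L : ℕ) : ℕ := if κ.time then 2 ^ (c * (L + 1)) else c * (L + 1)

theorem le_hb (κ : Kind) (c L : ℕ) : c * (L + 1) ≤ hb κ c L := by
  unfold hb
  split_ifs
  · exact (Nat.lt_two_pow_self).le
  · exact le_rfl

theorem hb_mono (κ : Kind) {c c' L : ℕ} (h : c ≤ c') : hb κ c L ≤ hb κ c' L := by
  unfold hb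
  split_ifs
  · exact Nat.pow_le_pow_right (by norm_num) (Nat.mul_le_mul_right _ h)
  · exact Nat.mul_le_mul_right _ h

/-- uniform version -/
theorem Cmp.unif {κ : Kind} {k : ℕ} {F : (Fin k → ℕ) → ℕ} (h : Cmp κ F) (Δ : Type) :
    ∃ p : Prog Δ, (κ.det = true → p.Det) ∧ ∃ c : ℕ, ∀ (v : View Δ) (L : ℕ) (a : Fin k → ℕ),
      (∀ i, Nat.size (a i) ≤ L) →
      Runs v (hb κ c L) p (regs a 0) (regs a (F a)) (2 ^ (c * (L + 1))) ∧
        Nat.size (F a) ≤ c * (L + 1) := by
  obtain ⟨p, hdet, c, hp⟩ := h Δ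
  refine ⟨p, hdet, (c + 1) * (k + 1) + 1, fun v L a ha => ?_⟩
  obtain ⟨B, T, h1, h2, h3, h4⟩ := hp v a
  have hs : sz a ≤ k * L := sz_le a ha
  have hc : (c + 1) * (sz a + 1) ≤ (c + 1) * (k + 1) * (L + 1) := by
    rw [mul_assoc]
    refine Nat.mul_le_mul_left _ ?_
    nlinarith
  have hc2 : (c + 1) * (k + 1) * (L + 1) + (L + 1) = ((c + 1) * (k + 1) + 1) * (L + 1) := by ring
  have hc1 : c * (sz a + 1) + (sz a + 1) = (c + 1) * (sz a + 1) := by ring
  have hT : T ≤ 2 ^ (((c + 1) * (k + 1) + 1) * (L + 1)) :=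
    h2.trans (Nat.pow_le_pow_right (by norm_num) (by omega))
  refine ⟨?_, by omega⟩
  cases hκ : κ.time with
  | false =>
    have hB : hb κ ((c + 1) * (k + 1) + 1) L = ((c + 1) * (k + 1) + 1) * (L + 1) := by
      unfold hb; rw [hκ]; rfl
    rw [hB]
    exact h1.mono ((h3 hκ).trans (by omega)) hT
  | true =>
    have hB : hb κ ((c + 1) * (k + 1) + 1) L = 2 ^ (((c + 1) * (k + 1) + 1) * (L + 1)) := by
      unfold hb; rw [hκ]; rfl
    rw [hB]
    have h5 := h1.heights (m := sz a) (fun i => by
      have := regs_len a 0 i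
      simpa using this)
    refine h5.mono ?_ hT
    have h6 : sz a ≤ 2 ^ (c * (sz a + 1) + sz a) := (Nat.lt_two_pow_self).le.trans
      (Nat.pow_le_pow_right (by norm_num) (by omega))
    have h7 : 2 ^ (c * (sz a + 1)) ≤ 2 ^ (c * (sz a + 1) + sz a) :=
      Nat.pow_le_pow_right (by norm_num) (by omega)
    calc sz a + T ≤ 2 ^ (c * (sz a + 1) + sz a) + 2 ^ (c * (sz a + 1) + sz a) := by omega
      _ = 2 ^ (c * (sz a + 1) + sz a + 1) := by rw [pow_succ]; ring
      _ ≤ _ := Nat.pow_le_pow_right (by norm_num) (by omega)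

/-! ### Basic functions -/

theorem cmp_zero (κ : Kind) (k : ℕ) : Cmp κ (fun _ : Fin k → ℕ => 0) := by
  intro Δ
  refine ⟨seqs [], fun _ => seqs_det (by simp), 1, fun v a => ⟨sz a, 1, ?_, ?_, ?_, ?_⟩⟩
  · exact Runs.seqs_nil (fun i => by simpa using regs_len a 0 i)
  · exact Nat.one_le_two_pow
  · intro _; omega
  · simp

theorem cmp_proj (κ : Kind) {k : ℕ} (j : Fin k) : Cmp κ (fun a : Fin k → ℕ => a j) := by
  intro Δ
  refine ⟨cpy (j + 1) (k + 1) 0, fun _ => cpy_det _ _ _, 5, fun v a => ?_⟩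
  have hj := j.2
  have hsj := size_le_sz a j
  have h := runs_cpy (v := v) (B := sz a) (s := regs a 0) (j + 1) (k + 1) 0 (by omega) (by omega)
    (by omega) (by rw [regs_res]; rfl) (regs_zero _ _) (fun i => by simpa using regs_len a 0 i)
  rw [regs_arg, regs_upd, bits_length] at h
  refine ⟨sz a, _, h, ?_, ?_, ?_⟩
  · refine le_trans ?_ (Nat.lt_two_pow_self (n := 5 * (sz a + 1))).le
    omega
  · intro _; omega
  · show Nat.size (a j) ≤ _
    omega

theorem size_succ_le (n : ℕ) : Nat.size (n + 1) ≤ Nat.size n + 1 := by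
  rw [Nat.size_le]
  have := Nat.lt_size_self n
  rw [pow_succ]
  omega

theorem cmp_succ (κ : Kind) {k : ℕ} (j : Fin k) : Cmp κ (fun a : Fin k → ℕ => a j + 1) := by
  intro Δ
  refine ⟨.seq (cpy (j + 1) (k + 1) 0) (inc (k + 1) 0 (k + 2)), fun _ => ⟨cpy_det _ _ _,
    inc_det _ _ _⟩, 17, fun v a => ?_⟩
  have hj := j.2
  have hsj := size_le_sz a j
  have hs0 : ∀ i, (regs a 0 i).length ≤ sz a + 1 := fun i =>
    (by simpa using regs_len a 0 i : (regs a 0 i).length ≤ sz a).trans (by omega)
  have hs1 : ∀ i, (regs a (a j) i).length ≤ sz a + 1 := fun i => by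
    by_cases hi : i = k + 1
    · subst hi; rw [regs_res, bits_length]; omega
    · have h1 := hs0 i
      have h2 := congrFun (regs_upd a 0 (a j)) i
      rw [update_of_ne hi] at h2
      rw [← h2]
      exact h1
  have h := runs_cpy (v := v) (B := sz a + 1) (s := regs a 0) (j + 1) (k + 1) 0 (by omega)
    (by omega) (by omega) (by rw [regs_res]; rfl) (regs_zero _ _) hs0
  rw [regs_arg, regs_upd, bits_length] at h
  have h' := runs_inc (v := v) (B := sz a + 1) (s := regs a (a j)) (k + 1) 0 (k + 2) (by omega)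
    (by omega) (by omega) (a j) (regs_res _ _) (regs_zero _ _) (regs_hi _ _ (by omega)) hs1
    (by omega)
  rw [regs_upd] at h'
  refine ⟨sz a + 1, _, h.seq h', ?_, ?_, ?_⟩
  · refine le_trans ?_ (Nat.lt_two_pow_self (n := 17 * (sz a + 1))).le
    omega
  · intro _; omega
  · have := size_succ_le (a j)
    show Nat.size (a j + 1) ≤ _
    omega

theorem cmp_pred (κ : Kind) {k : ℕ} (j : Fin k) : Cmp κ (fun a : Fin k → ℕ => a j - 1) := by
  intro Δ
  refine ⟨.seq (cpy (j + 1) (k + 1) 0) (.ift (k + 1) (seqs []) (dec (k + 1) 0 (k + 2))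
    (dec (k + 1) 0 (k + 2))), fun _ => ⟨cpy_det _ _ _, seqs_det (by simp), dec_det _ _ _,
    dec_det _ _ _⟩, 18, fun v a => ?_⟩
  have hj := j.2
  have hsj := size_le_sz a j
  have hs0 : ∀ i, (regs a 0 i).length ≤ sz a + 1 := fun i =>
    (by simpa using regs_len a 0 i : (regs a 0 i).length ≤ sz a).trans (by omega)
  have hs1 : ∀ i, (regs a (a j) i).length ≤ sz a + 1 := fun i => by
    by_cases hi : i = k + 1
    · subst hi; rw [regs_res, bits_length]; omega
    · have h1 := hs0 i
      have h2 := congrFun (regs_upd a 0 (a j)) i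
      rw [update_of_ne hi] at h2
      rw [← h2]
      exact h1
  have h := runs_cpy (v := v) (B := sz a + 1) (s := regs a 0) (j + 1) (k + 1) 0 (by omega)
    (by omega) (by omega) (by rw [regs_res]; rfl) (regs_zero _ _) hs0
  rw [regs_arg, regs_upd, bits_length] at h
  have hsz : Nat.size (a j - 1) ≤ Nat.size (a j) := Nat.size_le_size (by omega)
  have h' : Runs v (sz a + 1) (.ift (k + 1) (seqs []) (dec (k + 1) 0 (k + 2))
      (dec (k + 1) 0 (k + 2))) (regs a (a j)) (regs a (a j - 1)) (11 * sz a + 14) := by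
    by_cases h0 : a j = 0
    · rw [h0] at hs1 ⊢
      exact (Runs.ift0 (by rw [regs_res]; rfl) (Runs.seqs_nil hs1)).monoT (by omega)
    · have h' := runs_dec (v := v) (B := sz a + 1) (s := regs a (a j)) (k + 1) 0 (k + 2)
        (by omega) (by omega) (by omega) (a j) h0 (regs_res _ _) (regs_zero _ _)
        (regs_hi _ _ (by omega)) hs1 (by omega)
      rw [regs_upd] at h'
      cases hb : Nat.bits (a j) with
      | nil => exact absurd (bits_eq_nil.1 hb) h0
      | cons x l =>
        cases x with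
        | false => exact (Runs.ift1 (l := l) (by rw [regs_res]; exact hb) h').monoT (by omega)
        | true => exact (Runs.ift2 (l := l) (by rw [regs_res]; exact hb) h').monoT (by omega)
  refine ⟨sz a + 1, _, h.seq h', ?_, ?_, ?_⟩
  · refine le_trans ?_ (Nat.lt_two_pow_self (n := 18 * (sz a + 1))).le
    omega
  · intro _; omega
  · show Nat.size (a j - 1) ≤ _
    omega

end LSP
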