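import Pool.Agent.H69P.Closure

/-!
# Composition and bounded iteration
-/

set_option autoImplicit false

namespace LSP

open H85L Function

variable {κ : Kind}

/-- composition -/
theorem Cmp.comp {k m : ℕ} {F : (Fin m → ℕ) → ℕ} {G : Fin m → (Fin k → ℕ) → ℕ} (hF : Cmp κ F)
    (hG : ∀ j, Cmp κ (G j)) : Cmp κ (fun a : Fin k → ℕ => F fun j => G j a) := by
  classical
  choose cG hcG using fun j => (hG j).size
  obtain ⟨cF, hcF⟩ := hF.size
  set C := ∑ j, cG j with hC
  have hCj : ∀ j, cG j ≤ C := fun j => Finset.single_le_sum (f := cG) (fun _ _ => Nat.zero_le _)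
    (Finset.mem_univ j)
  set P1 : NProg κ := nseqN (fun j => if h : j < m then
    .asg k (G ⟨j, h⟩) (hG ⟨j, h⟩) (fun i => i) (k + 1 + j) else nskip) m with hP1
  set P2 : NProg κ := .asg m F hF (fun j => k + 1 + j) k with hP2
  refine Cmp.of_nprog (.seq P1 P2) (k + 1 + m) ⟨nseqN_uses (by omega) fun j hj => ?_,
    fun j => ?_, by omega⟩ (by omega) (fun _ => ⟨nseqN_det fun j hj => ?_, trivial⟩)
    (C + cF * (m * C + 1) + 1 + 2 * m + 4) fun a R hR hR0 => ?_
  · rw [dif_pos hj]
    exact ⟨fun i => (by have := i.2; omega : (i : ℕ) < k + 1 + m), by omega⟩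
  · have := j.2
    show k + 1 + (j : ℕ) < k + 1 + m
    omega
  · rw [dif_pos hj]
    trivial
  · set L := (C + cF * (m * C + 1) + 1 + 2 * m + 4) * (sz a + 1) with hL
    have e1 : L = C * (sz a + 1) + cF * (m * C + 1) * (sz a + 1) + (sz a + 1) +
      (2 * m + 4) * (sz a + 1) := by rw [hL]; ring
    have hGs : ∀ j, Nat.size (G j a) ≤ C * (sz a + 1) := fun j =>
      (hcG j a).trans (Nat.mul_le_mul_right _ (hCj j))
    have h1 := NRuns.seqN (κ := κ) (L := L) (fun j => if h : j < m then
      .asg k (G ⟨j, h⟩) (hG ⟨j, h⟩) (fun i => i) (k + 1 + j) else nskip)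
      (fun j i => if h : k + 1 ≤ i ∧ i < k + 1 + j ∧ i < k + 1 + m then
        G ⟨i - (k + 1), by omega⟩ a else R i) m 1
      (by
        show Nat.size (dite _ _ _) ≤ L
        rw [dif_neg (by omega)]
        by_cases hk : 0 < k
        · have h2 := hR ⟨0, hk⟩
          simp only at h2
          rw [h2]
          have := size_le_sz a ⟨0, hk⟩
          omega
        · rw [hR0 0 (by omega) (by omega)]
          simp) (fun j hj => by
        rw [dif_pos hj]
        have harg : (fun i : Fin k => (fun i => if h : k + 1 ≤ i ∧ i < k + 1 + j ∧ i < k + 1 + m then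
            G ⟨i - (k + 1), by omega⟩ a else R i) (i : ℕ)) = a := by
          funext i
          have := i.2
          show dite _ _ _ = _
          rw [dif_neg (by omega)]
          exact hR i
        have h2 := NRuns.asg (κ := κ) (L := L) (hG ⟨j, hj⟩) (fun i : Fin k => (i : ℕ)) (k + 1 + j)
          (fun i => if h : k + 1 ≤ i ∧ i < k + 1 + j ∧ i < k + 1 + m then
            G ⟨i - (k + 1), by omega⟩ a else R i) (by
            rw [harg]
            have := hGs ⟨j, hj⟩
            omega)
        rw [harg] at h2
        have h3 : update (fun i => if h : k + 1 ≤ i ∧ i < k + 1 + j ∧ i < k + 1 + m then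
            G ⟨i - (k + 1), by omega⟩ a else R i) (k + 1 + j) (G ⟨j, hj⟩ a) =
            fun i => if h : k + 1 ≤ i ∧ i < k + 1 + (j + 1) ∧ i < k + 1 + m then
              G ⟨i - (k + 1), by omega⟩ a else R i := by
          funext i
          by_cases hi : i = k + 1 + j
          · subst hi
            rw [update_self, dif_pos ⟨by omega, by omega, by omega⟩]
            congr 1
            congr 1
            simp
          · rw [update_of_ne hi]
            by_cases hc : k + 1 ≤ i ∧ i < k + 1 + j ∧ i < k + 1 + m
            · rw [dif_pos hc, dif_pos ⟨hc.1, by omega, hc.2.2⟩]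
            · rw [dif_neg hc, dif_neg (by omega)]
        rw [h3] at h2
        exact h2)
    set R1 : ℕ → ℕ := fun i => if h : k + 1 ≤ i ∧ i < k + 1 + m ∧ i < k + 1 + m then
        G ⟨i - (k + 1), by omega⟩ a else R i with hR1
    have h10 : (fun i => if h : k + 1 ≤ i ∧ i < k + 1 + 0 ∧ i < k + 1 + m then
        G ⟨i - (k + 1), by omega⟩ a else R i) = R := by
      funext i
      rw [dif_neg (by omega)]
    rw [h10] at h1
    have harg2 : (fun j : Fin m => R1 (k + 1 + j)) = fun j => G j a := by
      funext j
      have := j.2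
      rw [hR1]
      show dite _ _ _ = _
      rw [dif_pos ⟨by omega, by omega, by omega⟩]
      congr 1
      ext
      show k + 1 + (j : ℕ) - (k + 1) = j
      omega
    have h2 := NRuns.asg (κ := κ) (L := L) hF (fun j : Fin m => k + 1 + (j : ℕ)) k R1 (by
      rw [harg2]
      refine (hcF _).trans ?_
      have h3 : sz (fun j => G j a) ≤ m * (C * (sz a + 1)) := sz_le _ hGs
      have h4 : cF * (sz (fun j => G j a) + 1) ≤ cF * (m * C + 1) * (sz a + 1) := by
        rw [mul_assoc]
        refine Nat.mul_le_mul_left _ ?_
        nlinarith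
      omega)
    have h5 := h1.seq h2
    rw [harg2] at h5
    refine ⟨h5.bd.mono ?_, ⟨_, h5.ex⟩, fun R' hr => ?_⟩
    · have e2 : (m * (1 + 1) + 1 + 1 + 1) ≤ (2 * m + 4) * (sz a + 1) := by nlinarith
      refine le_trans ?_ (Nat.lt_two_pow_self (n := L)).le
      omega
    · rw [h5.un _ hr, update_self]

/-- Bounded iteration: the value after `n a` steps of `r ↦ h a y r` (`y` is the number of the step),
starting from `g a`. In `hh` the first two arguments are `y` and `r`. -/
theorem Cmp.iter {k : ℕ} {n g : (Fin k → ℕ) → ℕ} {h : (Fin k → ℕ) → ℕ → ℕ → ℕ} (hn : Cmp κ n)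
    (hg : Cmp κ g) (hh : Cmp κ (fun b : Fin (k + 2) → ℕ => h (fun i => b i.succ.succ) (b 0) (b 1)))
    (hb : ∃ c, ∀ a y, y ≤ n a →
      Nat.size (Nat.rec (motive := fun _ => ℕ) (g a) (fun y r => h a y r) y) ≤ c * (sz a + 1)) :
    Cmp κ (fun a => Nat.rec (motive := fun _ => ℕ) (g a) (fun y r => h a y r) (n a)) := by
  obtain ⟨c, hc⟩ := hb
  obtain ⟨cn, hcn⟩ := hn.size
  set H : (Fin (k + 2) → ℕ) → ℕ := fun b => h (fun i => b i.succ.succ) (b 0) (b 1) with hH
  -- variables: arguments `0, ..., k - 1`, result `k`, index `k + 1`, counter `k + 2`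
  set arg : Fin (k + 2) → ℕ := fun i => if (i : ℕ) = 0 then k + 1 else if (i : ℕ) = 1 then k
    else i - 2 with harg
  set body : NProg κ := .seq (.asg (k + 2) H hh arg k)
    (.seq (.asg 1 (fun a => a 0 + 1) (cmp_succ κ 0) (fun _ => k + 1) (k + 1))
      (.asg 1 (fun a => a 0 - 1) (cmp_pred κ 0) (fun _ => k + 2) (k + 2))) with hbody
  set P : NProg κ := .seq (.asg k g hg (fun i => i) k)
    (.seq (.asg k n hn (fun i => i) (k + 2)) (.loop (k + 2) body)) with hP
  have harglt : ∀ i, arg i < k + 3 := by
    intro i
    have := i.2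
    rw [harg]
    show (if (i : ℕ) = 0 then k + 1 else if (i : ℕ) = 1 then k else i - 2) < k + 3
    split_ifs <;> omega
  refine Cmp.of_nprog P (k + 3) ⟨⟨fun i => (by have := i.2; omega : (i : ℕ) < k + 3), by omega⟩,
    ⟨fun i => (by have := i.2; omega : (i : ℕ) < k + 3), by omega⟩, by omega,
    ⟨harglt, by omega⟩, ⟨fun _ => (by omega : k + 1 < k + 3), by omega⟩,
    ⟨fun _ => (by omega : k + 2 < k + 3), by omega⟩⟩ (by omega)
    (fun _ => ⟨trivial, trivial, trivial, trivial, trivial⟩) (c + cn + 5) fun a R hR hR0 => ?_
  set L := (c + cn + 5) * (sz a + 1) with hL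
  have e1 : L = c * (sz a + 1) + cn * (sz a + 1) + 5 * (sz a + 1) := by rw [hL]; ring
  set f : ℕ → ℕ := fun y => Nat.rec (motive := fun _ => ℕ) (g a) (fun y r => h a y r) y with hf
  have hf0 : f 0 = g a := rfl
  have hfs : ∀ y, f (y + 1) = h a y (f y) := fun y => rfl
  have hfc : ∀ y, y ≤ n a → Nat.size (f y) ≤ c * (sz a + 1) := fun y hy => hc a y hy
  have hRa : ∀ S : ℕ → ℕ, (∀ i, i < k → S i = R i) → (fun i : Fin k => S (i : ℕ)) = a := by
    intro S hS
    funext i
    rw [hS i i.2, hR i]
  -- first assignment
  have h1 := NRuns.asg (κ := κ) (L := L) hg (fun i : Fin k => (i : ℕ)) k R (by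
    rw [hRa R fun _ _ => rfl, ← hf0]
    have := hfc 0 (by omega)
    omega)
  rw [hRa R fun _ _ => rfl] at h1
  -- second assignment
  have h2 := NRuns.asg (κ := κ) (L := L) hn (fun i : Fin k => (i : ℕ)) (k + 2)
    (update R k (g a)) (by
      rw [hRa _ fun i hi => update_of_ne (by omega) _ _]
      have := hcn a
      omega)
  rw [hRa _ fun i hi => update_of_ne (by omega) _ _] at h2
  -- the loop
  set m : ℕ → ℕ → ℕ := fun y => update (update (update R k (f y)) (k + 2) (n a - y)) (k + 1) y
    with hm
  have hnL : ∀ y, y ≤ n a → Nat.size y ≤ cn * (sz a + 1) := fun y hy =>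
    (Nat.size_le_size hy).trans (hcn a)
  have h3 := NRuns.loopN (κ := κ) (L := L) (i := k + 2) (P := body) m (n a) 5
    (by
      rw [hm]
      simp only
      rw [update_of_ne (by omega), update_self, Nat.sub_self])
    (fun y hy => by
      rw [hm]
      simp only
      rw [update_of_ne (by omega), update_self]
      omega)
    (fun y hy => by
      have m0 : m y (k + 1) = y := by rw [hm]; simp only; rw [update_self]
      have m1 : m y k = f y := by
        rw [hm]; simp only; rw [update_of_ne (by omega), update_of_ne (by omega), update_self]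
      have m2 : m y (k + 2) = n a - y := by
        rw [hm]; simp only; rw [update_of_ne (by omega), update_self]
      have m3 : ∀ i, i < k → m y i = R i := fun i hi => by
        rw [hm]; simp only
        rw [update_of_ne (by omega), update_of_ne (by omega), update_of_ne (by omega)]
      have hHv : H (fun j => m y (arg j)) = f (y + 1) := by
        rw [hH, hfs]
        simp only
        have a0 : arg 0 = k + 1 := by rw [harg]; rfl
        have a1 : arg 1 = k := by rw [harg]; rfl
        rw [a0, a1, m0, m1]
        congr 1
        funext i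
        have ha : arg i.succ.succ = i := by
          rw [harg]
          show (if ((i.succ.succ : Fin (k + 2)) : ℕ) = 0 then k + 1 else
            if ((i.succ.succ : Fin (k + 2)) : ℕ) = 1 then k else
              ((i.succ.succ : Fin (k + 2)) : ℕ) - 2) = i
          rw [if_neg (by simp), if_neg (by simp)]
          simp
        rw [ha, m3 i i.2, hR i]
      have g1 := NRuns.asg (κ := κ) (L := L) hh arg k (m y) (by
        have h4 : H (fun j => m y (arg j)) = f (y + 1) := hHv
        show Nat.size (H (fun j => m y (arg j))) ≤ L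
        rw [h4]
        have := hfc (y + 1) (by omega)
        omega)
      have g1' : NRuns L (.asg (k + 2) H hh arg k) (m y) (update (m y) k (f (y + 1))) 1 := by
        have h4 : H (fun j => m y (arg j)) = f (y + 1) := hHv
        rw [← h4]
        exact g1
      have g2 := NRuns.asg (κ := κ) (L := L) (cmp_succ κ (0 : Fin 1)) (fun _ => k + 1) (k + 1)
        (update (m y) k (f (y + 1))) (by
          show Nat.size (update (m y) k (f (y + 1)) (k + 1) + 1) ≤ L
          rw [update_of_ne (by omega), m0]
          have := hnL (y + 1) (by omega)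
          omega)
      have g2' : NRuns L (.asg 1 (fun a => a 0 + 1) (cmp_succ κ 0) (fun _ => k + 1) (k + 1))
          (update (m y) k (f (y + 1)))
          (update (update (m y) k (f (y + 1))) (k + 1) (y + 1)) 1 := by
        have h4 : update (m y) k (f (y + 1)) (k + 1) = y := by
          rw [update_of_ne (by omega), m0]
        change NRuns L _ _ (update (update (m y) k (f (y + 1))) (k + 1)
          (update (m y) k (f (y + 1)) (k + 1) + 1)) 1 at g2
        rw [h4] at g2
        exact g2
      have g3 := NRuns.asg (κ := κ) (L := L) (cmp_pred κ (0 : Fin 1)) (fun _ => k + 2) (k + 2)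
        (update (update (m y) k (f (y + 1))) (k + 1) (y + 1)) (by
          show Nat.size (update (update (m y) k (f (y + 1))) (k + 1) (y + 1) (k + 2) - 1) ≤ L
          rw [update_of_ne (by omega), update_of_ne (by omega), m2]
          have := hnL (n a - y - 1) (by omega)
          omega)
      have g3' : NRuns L (.asg 1 (fun a => a 0 - 1) (cmp_pred κ 0) (fun _ => k + 2) (k + 2))
          (update (update (m y) k (f (y + 1))) (k + 1) (y + 1)) (m (y + 1)) 1 := by
        have h4 : update (update (update (m y) k (f (y + 1))) (k + 1) (y + 1)) (k + 2)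
            (update (update (m y) k (f (y + 1))) (k + 1) (y + 1) (k + 2) - 1) = m (y + 1) := by
          rw [update_of_ne (by omega), update_of_ne (by omega), m2, hm]
          funext i
          simp only
          by_cases i0 : i = k + 1
          · subst i0
            rw [update_of_ne (by omega), update_self, update_self]
          · by_cases i1 : i = k + 2
            · subst i1
              rw [update_self, update_of_ne (by omega), update_self]
              omega
            · by_cases i2 : i = k
              · subst i2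
                rw [update_of_ne (by omega), update_of_ne (by omega), update_self,
                  update_of_ne (by omega), update_of_ne (by omega), update_self]
              · rw [update_of_ne i1, update_of_ne i0, update_of_ne i2, update_of_ne i0,
                  update_of_ne i1, update_of_ne i2, update_of_ne i0, update_of_ne i1,
                  update_of_ne i2]
        rw [← h4]
        exact g3
      exact (g1'.seq (g2'.seq g3')).monoT (by omega))
  have hm0 : m 0 = update (update R k (g a)) (k + 2) (n a) := by
    rw [hm]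
    funext i
    simp only
    by_cases i0 : i = k + 1
    · subst i0
      rw [update_self, update_of_ne (by omega), update_of_ne (by omega),
        hR0 (k + 1) (by omega) (by omega)]
    · rw [update_of_ne i0, hf0, Nat.sub_zero]
  rw [hm0] at h3
  have h5 := h1.seq (h2.seq h3)
  refine ⟨h5.bd.mono ?_, ⟨_, h5.ex⟩, fun R' hr => ?_⟩
  · have e2 : n a < 2 ^ (cn * (sz a + 1)) :=
      (Nat.lt_size_self _).trans_le (Nat.pow_le_pow_right (by norm_num) (hcn a))
    have e3 : 2 ^ (cn * (sz a + 1)) * 2 ^ 5 ≤ 2 ^ L := by
      rw [← pow_add]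
      exact Nat.pow_le_pow_right (by norm_num) (by omega)
    have e4 : 1 ≤ 2 ^ (cn * (sz a + 1)) := Nat.one_le_two_pow
    norm_num at e3
    omega
  · rw [h5.un _ hr, hm]
    simp only
    rw [update_of_ne (by omega), update_of_ne (by omega), update_self]

end LSP
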