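import Pool.Agent.H69P.Prog
import Pool.Agent.H85L.Sim

/-!
# From programs to machines with finitely many states
-/

set_option autoImplicit false

namespace LSP

open H85L

variable {Δ : Type}

/-- the continuations which occur in computations of the program `p` followed by `c` -/
def conts : Prog Δ → List (Prog Δ) → Set (List (Prog Δ))
  | .move k F, c => {.move k F :: c, c}
  | .seq p q, c => insert (.seq p q :: c) (conts p (q :: c) ∪ conts q c)
  | .ift i p0 p1 p2, c => insert (.ift i p0 p1 p2 :: c) (conts p0 c ∪ conts p1 c ∪ conts p2 c)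
  | .loop i p, c => insert (.loop i p :: c) (insert c (conts p (.loop i p :: c)))
  | .fail, c => {.fail :: c}

theorem self_mem_conts (p : Prog Δ) (c : List (Prog Δ)) : p :: c ∈ conts p c := by
  cases p with
  | move k F => exact Or.inl rfl
  | seq p q => exact Or.inl rfl
  | ift i p0 p1 p2 => exact Or.inl rfl
  | loop i p => exact Or.inl rfl
  | fail => exact rfl

theorem finite_conts (p : Prog Δ) : ∀ c : List (Prog Δ), (conts p c).Finite := by
  induction p with
  | move k F => intro c; exact (Set.finite_singleton c).insert (.move k F :: c)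
  | seq p q ihp ihq => intro c; exact ((ihp _).union (ihq _)).insert _
  | ift i p0 p1 p2 h0 h1 h2 => intro c; exact (((h0 _).union (h1 _)).union (h2 _)).insert _
  | loop i p ih => intro c; exact ((ih _).insert _).insert _
  | fail => intro c; exact Set.finite_singleton (.fail :: c)

theorem ctrl_mem (p : Prog Δ) (h : ℕ → Option Bool) : ∀ (c : List (Prog Δ)) (x : List (Prog Δ)),
    x ∈ conts p c → x ≠ c → ctrl x h ∈ conts p c := by
  induction p with
  | move k F =>
    intro c x hx hne
    rcases hx with rfl | hx
    · exact Or.inr rfl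
    · exact absurd hx hne
  | seq p q ihp ihq =>
    intro c x hx hne
    rcases hx with rfl | hx | hx
    · exact Or.inr (Or.inl (self_mem_conts p _))
    · by_cases hxq : x = q :: c
      · subst hxq
        refine Or.inr (Or.inr (ihq c _ (self_mem_conts q c) hne))
      · exact Or.inr (Or.inl (ihp _ x hx hxq))
    · exact Or.inr (Or.inr (ihq c x hx hne))
  | ift i p0 p1 p2 h0 h1 h2 =>
    intro c x hx hne
    rcases hx with rfl | (hx | hx) | hx
    · show (match h i with
        | none => p0 :: c
        | some false => p1 :: c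
        | some true => p2 :: c) ∈ _
      rcases h i with _ | _ | _
      · exact Or.inr (Or.inl (Or.inl (self_mem_conts p0 c)))
      · exact Or.inr (Or.inl (Or.inr (self_mem_conts p1 c)))
      · exact Or.inr (Or.inr (self_mem_conts p2 c))
    · exact Or.inr (Or.inl (Or.inl (h0 c x hx hne)))
    · exact Or.inr (Or.inl (Or.inr (h1 c x hx hne)))
    · exact Or.inr (Or.inr (h2 c x hx hne))
  | loop i p ih =>
    intro c x hx hne
    rcases hx with rfl | rfl | hx
    · show (match h i with
        | none => c
        | some _ => p :: .loop i p :: c) ∈ _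
      rcases h i with _ | _
      · exact Or.inr (Or.inl rfl)
      · exact Or.inr (Or.inr (self_mem_conts p _))
    · exact absurd rfl hne
    · by_cases hxl : x = .loop i p :: c
      · subst hxl
        show (match h i with
          | none => c
          | some _ => p :: .loop i p :: c) ∈ _
        rcases h i with _ | _
        · exact Or.inr (Or.inl rfl)
        · exact Or.inr (Or.inr (self_mem_conts p _))
      · exact Or.inr (Or.inr (ih _ x hx hxl))
  | fail =>
    intro c x hx hne
    rcases hx with rfl
    exact rfl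

/-- the states of the machine of the program `p` -/
abbrev PSt (p : Prog Δ) := {x // x ∈ insert ([] : List (Prog Δ)) (conts p [])} ⊕ Bool

instance (p : Prog Δ) : Finite (PSt p) := by
  have : Finite {x // x ∈ insert ([] : List (Prog Δ)) (conts p [])} :=
    ((finite_conts p []).insert []).to_subtype
  exact inferInstance

/-- forget that the states are restricted -/
def PSt.val {p : Prog Δ} : PSt p → List (Prog Δ) ⊕ Bool
  | .inl x => .inl x.1
  | .inr b => .inr b

/-- the next state -/
def PSt.next {p : Prog Δ} (N : ℕ) : PSt p → (Fin (N + 1) → Option Bool) → PSt p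
  | .inl ⟨[], _⟩, h => .inr (ext h 1).isSome
  | .inl ⟨a :: l, hx⟩, h => .inl ⟨ctrl (a :: l) (ext h),
      Set.mem_insert_of_mem _ (ctrl_mem p (ext h) [] (a :: l)
        (Or.resolve_left (Set.mem_insert_iff.1 hx) (by simp)) (by simp))⟩
  | .inr b, _ => .inr b

/-- the machine of the program `p` -/
def progM (N : ℕ) (p : Prog Δ) : Mach Δ (PSt p) Bool (Fin (N + 1)) where
  adr := 0
  bit := id
  start := .inl ⟨[p], Set.mem_insert_of_mem _ (self_mem_conts p [])⟩
  out := fun x => outOf x.val
  next := fun x h o b => (x.next N h, ((bigM Δ N p).next x.val h o b).2)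

theorem progM_next (N : ℕ) (p : Prog Δ) (x : PSt p) (h : Fin (N + 1) → Option Bool)
    (o : Option Δ) (b : Bool) :
    (x.next N h).val = ((bigM Δ N p).next x.val h o b).1 := by
  rcases x with ⟨x, hx⟩ | b
  · cases x with
    | nil => rfl
    | cons a l => rfl
  · rfl

theorem progM_step (N : ℕ) (p : Prog Δ) (v : View Δ) (b : Bool)
    (c : Cfg (PSt p) Bool (Fin (N + 1))) :
    (bigM Δ N p).step v b ⟨c.q.val, c.s⟩ =
      ⟨((progM N p).step v b c).q.val, ((progM N p).step v b c).s⟩ := by
  by_cases h : ((progM N p).out c.q).isSome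
  · rw [Mach.step_halted (progM N p) v b c h]
    exact Mach.step_halted (bigM Δ N p) v b ⟨c.q.val, c.s⟩ h
  · have h1 : (progM N p).out c.q = none := by simpa using h
    have h2 : (bigM Δ N p).out (Cfg.q (⟨c.q.val, c.s⟩ : Cfg (List (Prog Δ) ⊕ Bool) Bool
      (Fin (N + 1)))) = none := h1
    rw [Mach.step_live _ _ _ _ h1, Mach.step_live _ _ _ _ h2]
    ext1
    · exact (progM_next N p c.q _ _ b).symm
    · rfl

theorem progM_run (N : ℕ) (p : Prog Δ) (v : View Δ) (g : ℕ → Bool) (t : ℕ) :
    (bigM Δ N p).run v g t = ⟨((progM N p).run v g t).q.val, ((progM N p).run v g t).s⟩ := by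
  induction t with
  | zero => rfl
  | succ t ih =>
    show (bigM Δ N p).step v (g t) ((bigM Δ N p).run v g t) = _
    rw [ih, progM_step]
    rfl

theorem progM_det (N : ℕ) (p : Prog Δ) (hp : p.Det) : (progM N p).Det := by
  have key : ∀ (q : Prog Δ) (c : List (Prog Δ)), q.Det → (∀ y ∈ c, y.Det) →
      ∀ x ∈ conts q c, ∀ y ∈ x, y.Det := by
    intro q
    induction q with
    | move k F =>
      intro c hq hc x hx y hy
      rcases hx with rfl | rfl
      · rcases List.mem_cons.1 hy with rfl | hy
        · exact hq
        · exact hc y hy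
      · exact hc y hy
    | seq p q ihp ihq =>
      intro c hq hc x hx y hy
      rcases hx with rfl | hx | hx
      · rcases List.mem_cons.1 hy with rfl | hy
        · exact hq
        · exact hc y hy
      · refine ihp (q :: c) hq.1 (fun z hz => ?_) x hx y hy
        rcases List.mem_cons.1 hz with rfl | hz
        · exact hq.2
        · exact hc z hz
      · exact ihq c hq.2 hc x hx y hy
    | ift i p0 p1 p2 h0 h1 h2 =>
      intro c hq hc x hx y hy
      rcases hx with rfl | (hx | hx) | hx
      · rcases List.mem_cons.1 hy with rfl | hy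
        · exact hq
        · exact hc y hy
      · exact h0 c hq.1 hc x hx y hy
      · exact h1 c hq.2.1 hc x hx y hy
      · exact h2 c hq.2.2 hc x hx y hy
    | loop i p ih =>
      intro c hq hc x hx y hy
      rcases hx with rfl | rfl | hx
      · rcases List.mem_cons.1 hy with rfl | hy
        · exact hq
        · exact hc y hy
      · exact hc y hy
      · refine ih (.loop i p :: c) hq (fun z hz => ?_) x hx y hy
        rcases List.mem_cons.1 hz with rfl | hz
        · exact hq
        · exact hc z hz
    | fail =>
      intro c hq hc x hx y hy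
      rcases hx with rfl
      rcases List.mem_cons.1 hy with rfl | hy
      · exact hq
      · exact hc y hy
  rintro (⟨x, hx⟩ | b) h o b1 b2
  · refine Prod.ext rfl ?_
    show ((bigM Δ N p).next (.inl x) h o b1).2 = ((bigM Δ N p).next (.inl x) h o b2).2
    cases x with
    | nil => rfl
    | cons a l =>
      show (fun i : Fin (N + 1) => opsOf (a :: l) (ext h) o b1 i) =
        fun i : Fin (N + 1) => opsOf (a :: l) (ext h) o b2 i
      funext i
      have ha : a.Det := key p [] hp (by simp) _ (hx.resolve_left (by simp)) a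
        (List.mem_cons_self)
      cases a with
      | move k F =>
        show (if hi : (i : ℕ) < k then F _ o b1 ⟨i, hi⟩ else Op.stay) =
          if hi : (i : ℕ) < k then F _ o b2 ⟨i, hi⟩ else Op.stay
        by_cases hi : (i : ℕ) < k
        · rw [dif_pos hi, dif_pos hi, ha _ _ b1 b2]
        · rw [dif_neg hi, dif_neg hi]
      | seq p q => rfl
      | ift i p0 p1 p2 => rfl
      | loop i p => rfl
      | fail => rfl
  · rfl

theorem bigM_init (N : ℕ) (p : Prog Δ) : (bigM Δ N p).init = emb N [p] (fun _ => []) := rfl

/-- The machine of a program: it halts within `T + 1` moves, its stacks are not higher than `B`, and it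
accepts if some computation of the program ends with a nonempty stack `1`. -/
theorem compile (p : Prog Δ) : ∃ (Q K : Type) (_ : Finite Q) (_ : Finite K) (M : Mach Δ Q Bool K),
    (p.Det → M.Det) ∧ ∀ (v : View Δ) (B T : ℕ), Bd v B p (fun _ => []) T →
      (∀ g, (M.out (M.run v g (T + 1)).q).isSome) ∧ (∀ g t i, ((M.run v g t).s i).length ≤ B) ∧
      (M.Accepts v ↔ ∃ s' t, Res v p (fun _ => []) s' t ∧ s' 1 ≠ []) := by
  obtain ⟨N, hN⟩ := p.exists_uses
  have hU : p.Uses (N + 1 + 1) := hN.mono (by omega)
  refine ⟨PSt p, Fin (N + 1 + 1), inferInstance, inferInstance, progM (N + 1) p,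
    progM_det (N + 1) p, fun v B T hB => ?_⟩
  have hout : ∀ g t, (progM (N + 1) p).out ((progM (N + 1) p).run v g t).q =
      (bigM Δ (N + 1) p).out ((bigM Δ (N + 1) p).run v g t).q := by
    intro g t
    rw [progM_run]
    rfl
  have hs : ∀ g t i, ((progM (N + 1) p).run v g t).s i = ((bigM Δ (N + 1) p).run v g t).s i := by
    intro g t i
    rw [progM_run]
  have hD := hB.does (N + 1) p hU (fun i => Nat.zero_le _) []
  -- the end of a computation
  have hend : ∀ g, ∃ t ≤ T, (∀ t' ≤ t, ∀ i,
      (((bigM Δ (N + 1) p).run v g t').s i).length ≤ B) ∧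
      (((bigM Δ (N + 1) p).out ((bigM Δ (N + 1) p).run v g t).q = some false) ∨
        ∃ s', Res v p (fun _ => []) s' t ∧ (∀ i, (s' i).length ≤ B) ∧
          (bigM Δ (N + 1) p).run v g (t + 1) = ⟨.inr (s' 1).head?.isSome, fun i => s' i⟩ ∧
          (bigM Δ (N + 1) p).out ((bigM Δ (N + 1) p).run v g t).q = none) := by
    intro g
    obtain ⟨t, ht, h1, h2⟩ := hD g
    refine ⟨t, ht, h1, ?_⟩
    rcases h2 with ⟨s', h3, h4, h5⟩ | ⟨s', c', h5⟩
    · right
      refine ⟨s', h3, h4, ?_, ?_⟩
      · show (bigM Δ (N + 1) p).step v (g t) ((bigM Δ (N + 1) p).run v g t) = _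
        rw [show (bigM Δ (N + 1) p).run v g t = emb (N + 1) [] s' from h5]
        exact step_end (N + 1) p v (g t) (by omega) s'
      · rw [show (bigM Δ (N + 1) p).run v g t = emb (N + 1) [] s' from h5]
        rfl
    · left
      rw [show (bigM Δ (N + 1) p).run v g t = emb (N + 1) (.fail :: c') s' from h5]
      rfl
  refine ⟨?_, ?_, ?_⟩
  · intro g
    rw [hout]
    obtain ⟨t, ht, -, h2⟩ := hend g
    rcases h2 with h2 | ⟨s', -, -, h4, -⟩
    · exact (bigM Δ (N + 1) p).halted_mono v g _ (show t ≤ T + 1 by omega)
        (show ((bigM Δ (N + 1) p).out ((bigM Δ (N + 1) p).run v g t).q).isSome by rw [h2]; rfl)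
    · refine (bigM Δ (N + 1) p).halted_mono v g _ (show t + 1 ≤ T + 1 by omega) ?_
      show ((bigM Δ (N + 1) p).out ((bigM Δ (N + 1) p).run v g (t + 1)).q).isSome
      rw [h4]
      rfl
  · intro g t i
    rw [hs]
    obtain ⟨t0, -, h1, h2⟩ := hend g
    by_cases ht : t ≤ t0
    · exact h1 t ht i
    · obtain ⟨u, rfl⟩ := Nat.exists_eq_add_of_le (show t0 ≤ t by omega)
      rcases h2 with h2 | ⟨s', -, h3, h4, -⟩
      · have h5 := (bigM Δ (N + 1) p).runFrom_halted v g (bigM Δ (N + 1) p).init t0 u
          (show ((bigM Δ (N + 1) p).out ((bigM Δ (N + 1) p).run v g t0).q).isSome by rw [h2]; rfl)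
        show (((bigM Δ (N + 1) p).runFrom v g (bigM Δ (N + 1) p).init (t0 + u)).s i).length ≤ B
        rw [h5]
        exact h1 t0 le_rfl i
      · obtain ⟨w, rfl⟩ := Nat.exists_eq_add_of_le (show 1 ≤ u by omega)
        have h5 := (bigM Δ (N + 1) p).runFrom_halted v g (bigM Δ (N + 1) p).init (t0 + 1) w
          (show ((bigM Δ (N + 1) p).out ((bigM Δ (N + 1) p).run v g (t0 + 1)).q).isSome by
            rw [h4]; rfl)
        show (((bigM Δ (N + 1) p).runFrom v g (bigM Δ (N + 1) p).init (t0 + (1 + w))).s i).length
          ≤ B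
        rw [← add_assoc, h5]
        show (((bigM Δ (N + 1) p).run v g (t0 + 1)).s i).length ≤ B
        rw [h4]
        exact h3 i
  · constructor
    · rintro ⟨g, t, ht⟩
      rw [hout] at ht
      obtain ⟨t0, -, h1, h2⟩ := hend g
      rcases h2 with h2 | ⟨s', hr, h3, h4, h5⟩
      · exfalso
        rcases le_total t t0 with h | h
        · obtain ⟨u, rfl⟩ := Nat.exists_eq_add_of_le h
          have h6 := (bigM Δ (N + 1) p).runFrom_halted v g (bigM Δ (N + 1) p).init t u
            (show ((bigM Δ (N + 1) p).out ((bigM Δ (N + 1) p).run v g t).q).isSome by rw [ht]; rfl)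
          have h7 : (bigM Δ (N + 1) p).run v g (t + u) = (bigM Δ (N + 1) p).run v g t := h6
          rw [h7, ht] at h2
          simp at h2
        · obtain ⟨u, rfl⟩ := Nat.exists_eq_add_of_le h
          have h6 := (bigM Δ (N + 1) p).runFrom_halted v g (bigM Δ (N + 1) p).init t0 u
            (show ((bigM Δ (N + 1) p).out ((bigM Δ (N + 1) p).run v g t0).q).isSome by
              rw [h2]; rfl)
          have h7 : (bigM Δ (N + 1) p).run v g (t0 + u) = (bigM Δ (N + 1) p).run v g t0 := h6
          rw [h7, h2] at ht
          simp at ht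
      · refine ⟨s', t0, hr, ?_⟩
        have h8 : (bigM Δ (N + 1) p).out ((bigM Δ (N + 1) p).run v g (t0 + 1)).q = some true := by
          rcases le_total t (t0 + 1) with h | h
          · obtain ⟨u, hu⟩ := Nat.exists_eq_add_of_le h
            have h6 := (bigM Δ (N + 1) p).runFrom_halted v g (bigM Δ (N + 1) p).init t u
              (show ((bigM Δ (N + 1) p).out ((bigM Δ (N + 1) p).run v g t).q).isSome by
                rw [ht]; rfl)
            have h7 : (bigM Δ (N + 1) p).run v g (t + u) = (bigM Δ (N + 1) p).run v g t := h6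
            rw [hu, h7, ht]
          · obtain ⟨u, rfl⟩ := Nat.exists_eq_add_of_le h
            have h6 := (bigM Δ (N + 1) p).runFrom_halted v g (bigM Δ (N + 1) p).init (t0 + 1) u
              (show ((bigM Δ (N + 1) p).out ((bigM Δ (N + 1) p).run v g (t0 + 1)).q).isSome by
                rw [h4]; rfl)
            have h7 : (bigM Δ (N + 1) p).run v g (t0 + 1 + u) =
              (bigM Δ (N + 1) p).run v g (t0 + 1) := h6
            rw [h7] at ht
            exact ht
        rw [h4] at h8
        have h9 : (s' 1).head?.isSome = true := Option.some.inj h8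
        intro h10
        rw [h10] at h9
        simp at h9
    · rintro ⟨s', t, hr, hne⟩
      obtain ⟨g, hg⟩ := hr.runs (N + 1) p hU []
      refine ⟨g, t + 1, ?_⟩
      rw [hout]
      have : (bigM Δ (N + 1) p).run v g (t + 1) = ⟨.inr (s' 1).head?.isSome, fun i => s' i⟩ := by
        show (bigM Δ (N + 1) p).step v (g t) ((bigM Δ (N + 1) p).run v g t) = _
        rw [show (bigM Δ (N + 1) p).run v g t = emb (N + 1) [] s' from hg]
        exact step_end (N + 1) p v (g t) (by omega) s'
      rw [this]
      cases hs1 : s' 1 with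
      | nil => exact absurd hs1 hne
      | cons a l => rfl

end LSP
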