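import Pool.Agent.H69P.AClose

/-!
# Recursion with access to all earlier values, for the kinds with time bounds
-/

set_option autoImplicit false

namespace LSP

open H85L Function

variable {κ : Kind}

/-- truncated subtraction -/
theorem cmp_sub (κ : Kind) {k : ℕ} (i j : Fin k) : Cmp κ (fun a : Fin k → ℕ => a i - a j) := by
  have h := Cmp.iter (κ := κ) (n := fun a : Fin k → ℕ => a j) (g := fun a => a i)
    (h := fun _ _ r => r - 1) (cmp_proj κ j) (cmp_proj κ i) (cmp_pred κ 1) ⟨1, fun a y _ => by
      have h1 : ∀ y, (Nat.rec (motive := fun _ => ℕ) (a i) (fun _ r => r - 1) y) ≤ a i := by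
        intro y
        induction y with
        | zero => exact le_rfl
        | succ y ih => exact (Nat.sub_le _ _).trans ih
      have h2 := Nat.size_le_size (h1 y)
      have h3 := size_le_sz a i
      omega⟩
  have h1 : ∀ a : Fin k → ℕ, Nat.rec (motive := fun _ => ℕ) (a i) (fun _ r => r - 1) (a j) =
      a i - a j := by
    intro a
    generalize a j = y
    induction y with
    | zero => rfl
    | succ y ih =>
      show (Nat.rec (motive := fun _ => ℕ) (a i) (fun _ r => r - 1) y) - 1 = _
      rw [ih]
      omega
  simp only [h1] at h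
  exact h

/-- two stacks -/
def bst (l m : List ℕ) : Bool → List ℕ := fun s => if s then m else l

theorem bst_false (l m : List ℕ) : bst l m false = l := rfl
theorem bst_true (l m : List ℕ) : bst l m true = m := rfl

theorem bst_updf (l m l' : List ℕ) : update (bst l m) false l' = bst l' m := by
  funext s
  cases s
  · rw [update_self]; rfl
  · rw [update_of_ne (by simp)]; rfl

theorem bst_updt (l m l' : List ℕ) : update (bst l m) true l' = bst l l' := by
  funext s
  cases s
  · rw [update_of_ne (by simp)]; rfl
  · rw [update_self]; rfl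

/-- decrement -/
def ndec (i : ℕ) : NProg κ := .asg 1 (fun a => a 0 - 1) (cmp_pred κ 0) (fun _ => i) i

/-- increment -/
def ninc (i : ℕ) : NProg κ := .asg 1 (fun a => a 0 + 1) (cmp_succ κ 0) (fun _ => i) i

theorem runs_ndec {L i : ℕ} {R : ℕ → ℕ} (h : Nat.size (R i - 1) ≤ L) :
    NRuns L (ndec i : NProg κ) R (update R i (R i - 1)) 1 :=
  NRuns.asg (cmp_pred κ (0 : Fin 1)) (fun _ => i) i R h

theorem runs_ninc {L i : ℕ} {R : ℕ → ℕ} (h : Nat.size (R i + 1) ≤ L) :
    NRuns L (ninc i : NProg κ) R (update R i (R i + 1)) 1 :=
  NRuns.asg (cmp_succ κ (0 : Fin 1)) (fun _ => i) i R h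

/-- move `c` numbers from the stack `s` to the other stack; `x` is an auxiliary variable -/
def mvP (s : Bool) (c x : ℕ) : AProg κ :=
  .loop c (.seq (.pop s x) (.seq (.psh (!s) x) (.seq (.num (nzero x)) (.num (ndec c)))))

/-- the number with the index `idx` in the stack `false` is put into the variable `y`; `c` and `x` are
auxiliary variables -/
def getP (idx y c x : ℕ) : AProg κ :=
  .seq (.num (ncopy idx c)) (.seq (mvP false c x) (.seq (.pop false y) (.seq (.psh false y)
    (.seq (.num (ncopy idx c)) (mvP true c x)))))

theorem getP_det (idx y c x : ℕ) : (getP idx y c x : AProg κ).Det :=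
  ⟨trivial, ⟨trivial, trivial, trivial, trivial⟩, trivial, trivial, trivial, trivial, trivial,
    trivial, trivial⟩

theorem getP_uses {idx y c x M : ℕ} (h1 : idx < M) (h2 : y < M) (h3 : c < M) (h4 : x < M) :
    (getP idx y c x : AProg κ).Uses M :=
  ⟨⟨fun _ => h1, h3⟩, ⟨h3, h4, h4, ⟨fun j => j.elim0, h4⟩, fun _ => h3, h3⟩, h2, h2,
    ⟨fun _ => h1, h3⟩, h3, h4, h4, ⟨fun j => j.elim0, h4⟩, fun _ => h3, h3⟩

theorem runs_mvf {L c x : ℕ} (hcx : c ≠ x) (l m : List ℕ) (q : ℕ) (hq : q ≤ l.length)
    (hl : ∀ z ∈ l, Nat.size z ≤ L) (hqL : Nat.size q ≤ L) (R : ℕ → ℕ) (hx : R x = 0) :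
    ARuns (κ := κ) L (mvP false c x) (update R c q) (bst l m) (update R c 0)
      (bst (l.drop q) ((l.take q).reverse ++ m)) (q * 8 + 1) := by
  have h := ARuns.loopN (κ := κ) (L := L) (i := c)
    (P := .seq (.pop false x) (.seq (.psh (!false) x) (.seq (.num (nzero x)) (.num (ndec c)))))
    (fun j => update R c (q - j)) (fun j => bst (l.drop j) ((l.take j).reverse ++ m)) q 7
    (by rw [update_self, Nat.sub_self]) (fun j hj => by
      rw [update_self]
      omega) (fun j hj => by
      have hjl : j < l.length := by omega
      have e1 : (bst (l.drop j) ((l.take j).reverse ++ m) false).headD 0 = l[j] := by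
        rw [bst_false, List.drop_eq_getElem_cons hjl]
        rfl
      have e2 : (bst (l.drop j) ((l.take j).reverse ++ m) false).tail = l.drop (j + 1) := by
        rw [bst_false, List.tail_drop]
      have h1 := ARuns.pop (κ := κ) (L := L) (R := update R c (q - j))
        (A := bst (l.drop j) ((l.take j).reverse ++ m)) false x (by
          rw [e1]; exact hl _ (List.getElem_mem hjl))
      rw [e1, e2, bst_updf] at h1
      have h2 := ARuns.psh (κ := κ) (L := L) (R := update (update R c (q - j)) x l[j])
        (A := bst (l.drop (j + 1)) ((l.take j).reverse ++ m)) true x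
      rw [update_self, bst_true, bst_updt] at h2
      have e3 : l[j] :: ((l.take j).reverse ++ m) = (l.take (j + 1)).reverse ++ m := by
        rw [List.take_succ_eq_append_getElem hjl, List.reverse_append]
        rfl
      rw [e3] at h2
      have h3 := ARuns.num (runs_nzero (κ := κ) (L := L) (i := x)
        (R := update (update R c (q - j)) x l[j])) (bst (l.drop (j + 1))
          ((l.take (j + 1)).reverse ++ m))
      have e4 : update (update (update R c (q - j)) x l[j]) x 0 = update R c (q - j) := by
        rw [update_idem]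
        funext z
        by_cases hz : z = x
        · subst hz; rw [update_self, update_of_ne hcx.symm, hx]
        · rw [update_of_ne hz]
      rw [e4] at h3
      have h4 := ARuns.num (runs_ndec (κ := κ) (L := L) (i := c) (R := update R c (q - j)) (by
        rw [update_self]
        exact (Nat.size_le_size (by omega)).trans hqL)) (bst (l.drop (j + 1))
          ((l.take (j + 1)).reverse ++ m))
      rw [update_self, update_idem, show q - j - 1 = q - (j + 1) by omega] at h4
      exact (h1.seq (h2.seq (h3.seq h4))).monoT (by omega))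
  simp only [Nat.sub_zero, Nat.sub_self, List.drop_zero, List.take_zero, List.reverse_nil,
    List.nil_append] at h
  exact h

theorem runs_mvt' {L c x : ℕ} (hcx : c ≠ x) (l m : List ℕ) (q : ℕ) (hq : q ≤ l.length)
    (hl : ∀ z ∈ l, Nat.size z ≤ L) (hqL : Nat.size q ≤ L) (R : ℕ → ℕ) (hx : R x = 0) :
    ARuns (κ := κ) L (mvP true c x) (update R c q) (bst (l.drop q) ((l.take q).reverse ++ m))
      (update R c 0) (bst l m) (q * 8 + 1) := by
  have h := ARuns.loopN (κ := κ) (L := L) (i := c)
    (P := .seq (.pop true x) (.seq (.psh (!true) x) (.seq (.num (nzero x)) (.num (ndec c)))))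
    (fun j => update R c (q - j)) (fun j => bst (l.drop (q - j)) ((l.take (q - j)).reverse ++ m))
    q 7
    (by rw [update_self, Nat.sub_self]) (fun j hj => by
      rw [update_self]
      omega) (fun j hj => by
      obtain ⟨i, hi⟩ : ∃ i, q - j = i + 1 := ⟨q - j - 1, by omega⟩
      have hi' : q - (j + 1) = i := by omega
      have hil : i < l.length := by omega
      rw [hi, hi']
      have e0 : (l.take (i + 1)).reverse ++ m = l[i] :: ((l.take i).reverse ++ m) := by
        rw [List.take_succ_eq_append_getElem hil, List.reverse_append]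
        rfl
      have h1 := ARuns.pop (κ := κ) (L := L) (R := update R c (i + 1))
        (A := bst (l.drop (i + 1)) ((l.take (i + 1)).reverse ++ m)) true x (by
          rw [bst_true, e0]; exact hl _ (List.getElem_mem hil))
      rw [bst_true, e0, List.headD_cons, List.tail_cons, bst_updt] at h1
      have h2 := ARuns.psh (κ := κ) (L := L) (R := update (update R c (i + 1)) x l[i])
        (A := bst (l.drop (i + 1)) ((l.take i).reverse ++ m)) false x
      rw [update_self, bst_false, bst_updf, ← List.drop_eq_getElem_cons hil] at h2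
      have h3 := ARuns.num (runs_nzero (κ := κ) (L := L) (i := x)
        (R := update (update R c (i + 1)) x l[i])) (bst (l.drop i) ((l.take i).reverse ++ m))
      have e4 : update (update (update R c (i + 1)) x l[i]) x 0 = update R c (i + 1) := by
        rw [update_idem]
        funext z
        by_cases hz : z = x
        · subst hz; rw [update_self, update_of_ne hcx.symm, hx]
        · rw [update_of_ne hz]
      rw [e4] at h3
      have h4 := ARuns.num (runs_ndec (κ := κ) (L := L) (i := c) (R := update R c (i + 1)) (by
        rw [update_self]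
        exact (Nat.size_le_size (by omega)).trans hqL)) (bst (l.drop i) ((l.take i).reverse ++ m))
      rw [update_self, update_idem, Nat.add_sub_cancel] at h4
      rw [e0]
      exact (h1.seq (h2.seq (h3.seq h4))).monoT (by omega))
  simp only [Nat.sub_zero, Nat.sub_self, List.drop_zero, List.take_zero, List.reverse_nil,
    List.nil_append] at h
  exact h

theorem runs_getP {L idx y c x : ℕ} (hcx : c ≠ x) (hyi : y ≠ idx)
    (hyc : y ≠ c) (hyx : y ≠ x) (l m : List ℕ) (q : ℕ) (hq : q < l.length)
    (hl : ∀ z ∈ l, Nat.size z ≤ L) (hqL : Nat.size q ≤ L) (R : ℕ → ℕ) (hx : R x = 0) (hc : R c = 0)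
    (hi : R idx = q) :
    ARuns (κ := κ) L (getP idx y c x) R (bst l m) (update R y l[q]) (bst l m)
      (q * 16 + 11) := by
  have h1 := ARuns.num (runs_ncopy (κ := κ) (L := L) (i := idx) (j := c) (R := R) (by
    rw [hi]; exact hqL)) (bst l m)
  rw [hi] at h1
  have h2 := runs_mvf (κ := κ) (L := L) hcx l m q hq.le hl hqL R hx
  have e1 : update R c 0 = R := by rw [← hc, update_eq_self]
  rw [e1] at h2
  have h3 := ARuns.pop (κ := κ) (L := L) (R := R)
    (A := bst (l.drop q) ((l.take q).reverse ++ m)) false y (by
      rw [bst_false, List.drop_eq_getElem_cons hq]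
      exact hl _ (List.getElem_mem hq))
  rw [bst_false, List.drop_eq_getElem_cons hq, List.headD_cons, List.tail_cons, bst_updf] at h3
  have h4 := ARuns.psh (κ := κ) (L := L) (R := update R y l[q])
    (A := bst (l.drop (q + 1)) ((l.take q).reverse ++ m)) false y
  rw [update_self, bst_false, bst_updf, ← List.drop_eq_getElem_cons hq] at h4
  have h5 := ARuns.num (runs_ncopy (κ := κ) (L := L) (i := idx) (j := c) (R := update R y l[q]) (by
    rw [update_of_ne hyi.symm, hi]; exact hqL)) (bst (l.drop q) ((l.take q).reverse ++ m))
  rw [update_of_ne hyi.symm, hi] at h5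
  have h6 := runs_mvt' (κ := κ) (L := L) hcx l m q hq.le hl hqL (update R y l[q])
    (by rw [update_of_ne hyx.symm, hx])
  have e2 : update (update R y l[q]) c 0 = update R y l[q] := by
    funext z
    by_cases hz : z = c
    · subst hz; rw [update_self, update_of_ne hyc.symm, hc]
    · rw [update_of_ne hz]
  rw [e2] at h6
  have hdrop : bst (l[q] :: l.drop (q + 1)) ((l.take q).reverse ++ m) =
    bst (l.drop q) ((l.take q).reverse ++ m) := by rw [← List.drop_eq_getElem_cons hq]
  rw [hdrop] at h3
  exact (h1.seq (h2.seq (h3.seq (h4.seq (h5.seq h6))))).monoT (by omega)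

end LSP
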