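import Pool.Agent.H69P.Hist

/-!
# Recursion with access to all earlier values: the theorem
-/

set_option autoImplicit false

namespace LSP

open H85L Function

variable {κ : Kind}

/-- composition with a function of two arguments -/
theorem Cmp.comp2 {k : ℕ} {F : ℕ → ℕ → ℕ} (hF : Cmp κ (fun c : Fin 2 → ℕ => F (c 0) (c 1)))
    {g1 g2 : (Fin k → ℕ) → ℕ} (h1 : Cmp κ g1) (h2 : Cmp κ g2) :
    Cmp κ (fun a => F (g1 a) (g2 a)) := by
  have h := Cmp.comp (κ := κ) (F := fun c : Fin 2 → ℕ => F (c 0) (c 1))
    (G := fun (j : Fin 2) (a : Fin k → ℕ) => if j = 0 then g1 a else g2 a) hF (fun j => by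
      by_cases hj : j = 0
      · simp only [hj, if_true]; exact h1
      · simp only [hj, if_false]; exact h2)
  simpa using h

/-- the variables in the program for the recursion -/
def stH (k r : ℕ) (R : ℕ → ℕ) (cur t cnt idx : ℕ) (ys : ℕ → ℕ) : ℕ → ℕ := fun x =>
  if x < k + 1 then R x else if x = k + 1 then cur else if x = k + 2 then t
  else if x = k + 3 then cnt else if x = k + 4 then idx else if x < k + 7 then 0
  else if x < k + 7 + r then ys (x - (k + 7)) else R x

section
variable {k r : ℕ} {R : ℕ → ℕ} {cur t cnt idx : ℕ} {ys : ℕ → ℕ}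

theorem stH_lo {x : ℕ} (h : x < k + 1) : stH k r R cur t cnt idx ys x = R x := if_pos h

theorem stH_cur : stH k r R cur t cnt idx ys (k + 1) = cur := by
  unfold stH
  rw [if_neg (by omega), if_pos rfl]

theorem stH_t : stH k r R cur t cnt idx ys (k + 2) = t := by
  unfold stH
  rw [if_neg (by omega), if_neg (by omega), if_pos rfl]

theorem stH_cnt : stH k r R cur t cnt idx ys (k + 3) = cnt := by
  unfold stH
  rw [if_neg (by omega), if_neg (by omega), if_neg (by omega), if_pos rfl]

theorem stH_idx : stH k r R cur t cnt idx ys (k + 4) = idx := by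
  unfold stH
  rw [if_neg (by omega), if_neg (by omega), if_neg (by omega), if_neg (by omega), if_pos rfl]

theorem stH_z {x : ℕ} (h : x = k + 5 ∨ x = k + 6) : stH k r R cur t cnt idx ys x = 0 := by
  unfold stH
  rw [if_neg (by omega), if_neg (by omega), if_neg (by omega), if_neg (by omega),
    if_neg (by omega), if_pos (by omega)]

theorem stH_y {j : ℕ} (h : j < r) : stH k r R cur t cnt idx ys (k + 7 + j) = ys j := by
  unfold stH
  rw [if_neg (by omega), if_neg (by omega), if_neg (by omega), if_neg (by omega),
    if_neg (by omega), if_neg (by omega), if_pos (by omega)]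
  congr 1
  omega

theorem updH_cur {v : ℕ} : update (stH k r R cur t cnt idx ys) (k + 1) v =
    stH k r R v t cnt idx ys := by
  funext x
  by_cases hx : x = k + 1
  · subst hx; rw [update_self, stH_cur]
  · rw [update_of_ne hx]
    unfold stH
    simp only [hx, if_false]

theorem updH_t {v : ℕ} : update (stH k r R cur t cnt idx ys) (k + 2) v =
    stH k r R cur v cnt idx ys := by
  funext x
  by_cases hx : x = k + 2
  · subst hx; rw [update_self, stH_t]
  · rw [update_of_ne hx]
    unfold stH
    simp only [hx, if_false]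

theorem updH_cnt {v : ℕ} : update (stH k r R cur t cnt idx ys) (k + 3) v =
    stH k r R cur t v idx ys := by
  funext x
  by_cases hx : x = k + 3
  · subst hx; rw [update_self, stH_cnt]
  · rw [update_of_ne hx]
    unfold stH
    simp only [hx, if_false]

theorem updH_idx {v : ℕ} : update (stH k r R cur t cnt idx ys) (k + 4) v =
    stH k r R cur t cnt v ys := by
  funext x
  by_cases hx : x = k + 4
  · subst hx; rw [update_self, stH_idx]
  · rw [update_of_ne hx]
    unfold stH
    simp only [hx, if_false]

theorem updH_y {j v : ℕ} (h : j < r) : update (stH k r R cur t cnt idx ys) (k + 7 + j) v =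
    stH k r R cur t cnt idx (update ys j v) := by
  funext x
  by_cases hx : x = k + 7 + j
  · subst hx; rw [update_self, stH_y h, update_self]
  · rw [update_of_ne hx]
    unfold stH
    split_ifs with h1 h2 h3 h4 h5 h6 h7
    · rfl
    · rfl
    · rfl
    · rfl
    · rfl
    · rfl
    · rw [update_of_ne (by omega)]
    · rfl

theorem stH_congr {ys' : ℕ → ℕ} (h : ∀ j < r, ys j = ys' j) :
    stH k r R cur t cnt idx ys = stH k r R cur t cnt idx ys' := by
  funext x
  unfold stH
  split_ifs with h1 h2 h3 h4 h5 h6 h7
  · rfl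
  · rfl
  · rfl
  · rfl
  · rfl
  · rfl
  · exact h _ (by omega)
  · rfl

end

/-- the list of the earlier values -/
def hl (f : ℕ → ℕ) : ℕ → List ℕ
  | 0 => [f 0]
  | t + 1 => f (t + 1) :: hl f t

theorem hl_length (f : ℕ → ℕ) (t : ℕ) : (hl f t).length = t + 1 := by
  induction t with
  | zero => rfl
  | succ t ih => show (hl f t).length + 1 = _; rw [ih]

theorem hl_get (f : ℕ → ℕ) (t : ℕ) : ∀ q (h : q < (hl f t).length), (hl f t)[q] = f (t - q) := by
  induction t with
  | zero =>
    intro q h
    rw [hl_length] at h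
    obtain rfl : q = 0 := by omega
    rfl
  | succ t ih =>
    intro q h
    cases q with
    | zero => rfl
    | succ q =>
      rw [hl_length] at h
      show (hl f t)[q]'(by rw [hl_length]; omega) = _
      rw [ih q (by rw [hl_length]; omega)]
      congr 1
      omega

theorem hl_mem (f : ℕ → ℕ) (t : ℕ) : ∀ z ∈ hl f t, ∃ q ≤ t, z = f q := by
  induction t with
  | zero =>
    intro z hz
    exact ⟨0, le_rfl, by simpa [hl] using hz⟩
  | succ t ih =>
    intro z hz
    rcases List.mem_cons.1 hz with rfl | hz
    · exact ⟨t + 1, le_rfl, rfl⟩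
    · obtain ⟨q, hq, rfl⟩ := ih z hz
      exact ⟨q, by omega, rfl⟩

theorem hist_bound {r n s c L T : ℕ} (hn : n < 2 ^ s) (hL : L = (c + 2 * r + 12) * (s + 1))
    (hT : T ≤ n * (r * (n * 16 + 16) + 16) + 16) : T ≤ 2 ^ L := by
  have e1 : L = c * (s + 1) + (s + 1) + (s + 1) + (2 * r + 10) * (s + 1) := by rw [hL]; ring
  have e2 : 2 ^ ((s + 1) + (s + 1) + (2 * r + 10)) ≤ 2 ^ L := by
    refine Nat.pow_le_pow_right (by norm_num) ?_
    have : 2 * r + 10 ≤ (2 * r + 10) * (s + 1) := Nat.le_mul_of_pos_right _ (by omega)
    omega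
  refine le_trans ?_ e2
  have e3 : 2 ^ (2 * r + 10) = 2 ^ r * 2 ^ r * 1024 := by
    rw [show 2 * r + 10 = r + r + 10 by ring, pow_add, pow_add]; norm_num
  have e4 : r < 2 ^ r := Nat.lt_two_pow_self
  rw [pow_add, pow_add, e3, pow_succ]
  generalize 2 ^ s = X at *
  generalize 2 ^ r = Y at *
  have h1 : r * (n * 16 + 16) + 16 ≤ Y * (X * 32) + 16 := by
    have := Nat.mul_le_mul e4.le (show n * 16 + 16 ≤ X * 32 by omega)
    omega
  have h2 : n * (r * (n * 16 + 16) + 16) ≤ X * (Y * (X * 32) + 16) := Nat.mul_le_mul hn.le h1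
  have h3 : X * (Y * (X * 32) + 16) + 16 ≤ X * 2 * (X * 2) * (Y * Y * 1024) := by
    have h4 : 1 ≤ X := by omega
    have h5 : 1 ≤ Y := by omega
    have h6 : X ≤ X * X := Nat.le_mul_of_pos_left _ h4
    have h7 : X * X ≤ X * X * (Y * Y) := Nat.le_mul_of_pos_right _ (by positivity)
    have h8 : X * X * Y ≤ X * X * (Y * Y) :=
      Nat.mul_le_mul_left _ (Nat.le_mul_of_pos_left _ h5)
    have h9 : X * 2 * (X * 2) * (Y * Y * 1024) = 4096 * (X * X * (Y * Y)) := by ring
    have h10 : X * (Y * (X * 32) + 16) = 32 * (X * X * Y) + 16 * X := by ring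
    rw [h9, h10]
    omega
  omega

/-- Recursion with access to all earlier values: for a kind with time bounds, `f` is computed if
`f a 0 = g a` and `f a (t + 1) = H (a, t, f a t, f a q_1, ..., f a q_r)`, where `q_j` is the minimum of
`Q_j (a, t, f a t)` and `t`, and if all values have linear size. -/
theorem Cmp.hist (hκ : κ.time = true) {k r : ℕ} {g : (Fin k → ℕ) → ℕ}
    {Q : Fin r → (Fin (k + 2) → ℕ) → ℕ} {H : (Fin (k + 2 + r) → ℕ) → ℕ} (hg : Cmp κ g)
    (hQ : ∀ j, Cmp κ (Q j)) (hH : Cmp κ H) (f : (Fin k → ℕ) → ℕ → ℕ) (h0 : ∀ a, f a 0 = g a)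
    (hs : ∀ a t, f a (t + 1) = H (Fin.append
      (Fin.snoc (α := fun _ => ℕ) (Fin.snoc (α := fun _ => ℕ) a t) (f a t)) fun j =>
        f a (min (Q j (Fin.snoc (α := fun _ => ℕ) (Fin.snoc (α := fun _ => ℕ) a t) (f a t))) t)))
    (hb : ∃ c, ∀ a t, Nat.size (f a t) ≤ c * (sz a + Nat.size t + 1)) :
    Cmp κ (fun b : Fin (k + 1) → ℕ => f (fun i => b i.castSucc) (b (Fin.last k))) := by
  obtain ⟨c, hc⟩ := hb
  set G : Fin r → (Fin (k + 2) → ℕ) → ℕ := fun j b => b (Fin.last k).castSucc - Q j b with hG
  have hGc : ∀ j, Cmp κ (G j) := fun j =>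
    Cmp.comp2 (F := fun x y => x - y) (cmp_sub κ 0 1) (cmp_proj κ (Fin.last k).castSucc) (hQ j)
  set argG : Fin (k + 2) → ℕ := fun i => if (i : ℕ) < k then i else if (i : ℕ) = k then k + 2
    else k + 1 with hargG
  set argH : Fin (k + 2 + r) → ℕ := fun i => if (i : ℕ) < k then i else if (i : ℕ) = k then k + 2
    else if (i : ℕ) = k + 1 then k + 1 else i + 5 with hargH
  set fetch : AProg κ := aseqN (fun j => if h : j < r then
    .seq (.num (.asg (k + 2) (G ⟨j, h⟩) (hGc ⟨j, h⟩) argG (k + 4)))
      (.seq (getP (k + 4) (k + 7 + j) (k + 5) (k + 6)) (.num (nzero (k + 4))))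
    else .num nskip) r with hfetch
  set body : AProg κ := .seq fetch (.seq (.num (.asg (k + 2 + r) H hH argH (k + 1)))
    (.seq (.psh false (k + 1)) (.seq (.num (ninc (k + 2))) (.num (ndec (k + 3)))))) with hbody
  set P : AProg κ := .seq (.num (.asg k g hg (fun i => i) (k + 1))) (.seq (.psh false (k + 1))
    (.seq (.num (ncopy k (k + 3))) (.loop (k + 3) body))) with hP
  refine Cmp.of_aprog hκ P (k + 7 + r) ?_ (by omega) (fun _ => ?_) (c + 2 * r + 12)
    fun b R hR hR0 => ?_
  · refine ⟨⟨fun i => (by have := i.2; omega : (i : ℕ) < k + 7 + r), by omega⟩,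
      (by omega : k + 1 < k + 7 + r), ⟨fun _ => (by omega : k < k + 7 + r), by omega⟩,
      by omega, aseqN_uses (by omega) fun j hj => ?_, ⟨fun i => ?_, by omega⟩,
      (by omega : k + 1 < k + 7 + r), ⟨fun _ => (by omega : k + 2 < k + 7 + r), by omega⟩,
      fun _ => (by omega : k + 3 < k + 7 + r), by omega⟩
    · rw [dif_pos hj]
      refine ⟨⟨fun i => ?_, by omega⟩, getP_uses (by omega) (by omega) (by omega) (by omega),
        fun i => i.elim0, by omega⟩
      have := i.2
      rw [hargG]
      show (if (i : ℕ) < k then (i : ℕ) else if (i : ℕ) = k then k + 2 else k + 1) < _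
      split_ifs <;> omega
    · have := i.2
      rw [hargH]
      show (if (i : ℕ) < k then (i : ℕ) else if (i : ℕ) = k then k + 2
        else if (i : ℕ) = k + 1 then k + 1 else i + 5) < _
      split_ifs <;> omega
  · refine ⟨trivial, trivial, trivial, aseqN_det fun j hj => ?_, trivial, trivial, trivial, trivial⟩
    rw [dif_pos hj]
    exact ⟨trivial, getP_det _ _ _ _, trivial⟩
  set a : Fin k → ℕ := fun i => b i.castSucc with ha
  set n := b (Fin.last k) with hn
  set L := (c + 2 * r + 12) * (sz b + 1) with hL
  have e1 : L = c * (sz b + 1) + 2 * r * (sz b + 1) + 12 * (sz b + 1) := by rw [hL]; ring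
  have hszb : sz b = sz a + Nat.size n := by
    unfold sz
    rw [Fin.sum_univ_castSucc]
  have hfL : ∀ t, t ≤ n → Nat.size (f a t) ≤ L := by
    intro t ht
    have h1 : Nat.size (f a t) ≤ c * (sz b + 1) := by
      refine (hc a t).trans (Nat.mul_le_mul_left _ ?_)
      have := Nat.size_le_size ht
      omega
    omega
  have htL : ∀ t, t ≤ n → Nat.size t ≤ L := by
    intro t ht
    have := Nat.size_le_size ht
    omega
  have hRn : R k = n := hR (Fin.last k)
  have hRa : ∀ i : Fin k, R i = a i := fun i => hR i.castSucc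
  -- the values of the pointers
  set qv : ℕ → ℕ → ℕ := fun t j => if h : j < r then
    f a (min (Q ⟨j, h⟩ (Fin.snoc (α := fun _ => ℕ) (Fin.snoc (α := fun _ => ℕ) a t) (f a t))) t)
    else 0 with hqv
  set ysf : ℕ → ℕ → ℕ := fun t => Nat.casesOn t (fun _ => 0) (fun t => qv t) with hysf
  have hRst : R = stH k r R 0 0 0 0 (fun _ => 0) := by
    funext x
    unfold stH
    split_ifs with h1 h2 h3 h4 h5 h6 h7
    · rfl
    · exact hR0 x (by omega) (by omega)
    · exact hR0 x (by omega) (by omega)
    · exact hR0 x (by omega) (by omega)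
    · exact hR0 x (by omega) (by omega)
    · exact hR0 x (by omega) (by omega)
    · exact hR0 x (by omega) (by omega)
    · rfl
  -- the initial value
  have s1 := ARuns.num (NRuns.asg (κ := κ) (L := L) hg (fun i : Fin k => (i : ℕ)) (k + 1) R (by
    have h1 : (fun i : Fin k => R i) = a := funext hRa
    rw [h1, ← h0]
    exact hfL 0 (by omega))) (bst [] [])
  have h1 : (fun i : Fin k => R i) = a := funext hRa
  have e2 : update R (k + 1) (f a 0) = stH k r R (f a 0) 0 0 0 (fun _ => 0) := by
    conv_lhs => rw [hRst]
    rw [updH_cur]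
  rw [h1, ← h0, e2] at s1
  have s2 := ARuns.psh (κ := κ) (L := L) (R := stH k r R (f a 0) 0 0 0 (fun _ => 0))
    (A := bst [] []) false (k + 1)
  rw [stH_cur, bst_false, bst_updf] at s2
  have s3 := ARuns.num (runs_ncopy (κ := κ) (L := L) (i := k) (j := k + 3)
    (R := stH k r R (f a 0) 0 0 0 (fun _ => 0)) (by
      rw [stH_lo (by omega), hRn]; exact htL n le_rfl)) (bst [f a 0] [])
  rw [stH_lo (by omega), hRn, updH_cnt] at s3
  -- one round
  have hround : ∀ t, t < n → ∀ ys : ℕ → ℕ, ARuns L body
      (stH k r R (f a t) t (n - t) 0 ys) (bst (hl (f a) t) [])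
      (stH k r R (f a (t + 1)) (t + 1) (n - (t + 1)) 0 (qv t)) (bst (hl (f a) (t + 1)) [])
      (r * (n * 16 + 16) + 14) := by
    intro t ht ys
    have hmem : ∀ z ∈ hl (f a) t, Nat.size z ≤ L := by
      intro z hz
      obtain ⟨q, hq, rfl⟩ := hl_mem _ _ z hz
      exact hfL q (by omega)
    have r1 := ARuns.seqN (κ := κ) (L := L) (fun j => if h : j < r then
      .seq (.num (.asg (k + 2) (G ⟨j, h⟩) (hGc ⟨j, h⟩) argG (k + 4)))
        (.seq (getP (k + 4) (k + 7 + j) (k + 5) (k + 6)) (.num (nzero (k + 4))))
      else .num nskip)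
      (fun j => stH k r R (f a t) t (n - t) 0 (fun x => if x < j then qv t x else ys x))
      (fun _ => bst (hl (f a) t) []) r (n * 16 + 15)
      (by
        rw [stH_lo (by omega)]
        have h2 : Nat.size (R 0) ≤ sz b := by
          rw [show R 0 = b 0 from hR 0]
          exact size_le_sz b 0
        omega) (fun j hj => by
        rw [dif_pos hj]
        set Y : ℕ → ℕ := fun x => if x < j then qv t x else ys x with hY
        have harg : (fun x => stH k r R (f a t) t (n - t) 0 Y (argG x)) =
            Fin.snoc (α := fun _ => ℕ) (Fin.snoc (α := fun _ => ℕ) a t) (f a t) := by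
          funext x
          refine Fin.lastCases ?_ (fun z => ?_) x
          · rw [Fin.snoc_last]
            have : argG (Fin.last (k + 1)) = k + 1 := by
              rw [hargG]
              show (if k + 1 < k then k + 1 else if k + 1 = k then k + 2 else k + 1) = _
              rw [if_neg (by omega), if_neg (by omega)]
            rw [this, stH_cur]
          · rw [Fin.snoc_castSucc]
            refine Fin.lastCases ?_ (fun w => ?_) z
            · rw [Fin.snoc_last]
              have : argG (Fin.castSucc (Fin.last k)) = k + 2 := by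
                rw [hargG]
                show (if k < k then k else if k = k then k + 2 else k + 1) = _
                rw [if_neg (by omega), if_pos rfl]
              rw [this, stH_t]
            · rw [Fin.snoc_castSucc]
              have : argG w.castSucc.castSucc = w := by
                rw [hargG]
                show (if (w : ℕ) < k then (w : ℕ) else _) = _
                rw [if_pos w.2]
              rw [this, stH_lo (by have := w.2; omega), hRa]
        set bb : Fin (k + 2) → ℕ :=
          Fin.snoc (α := fun _ => ℕ) (Fin.snoc (α := fun _ => ℕ) a t) (f a t) with hbb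
        have hGv : G ⟨j, hj⟩ bb = t - Q ⟨j, hj⟩ bb := by
          rw [hG]
          show bb (Fin.last k).castSucc - Q ⟨j, hj⟩ bb = _
          rw [hbb, Fin.snoc_castSucc, Fin.snoc_last]
        have u1 := ARuns.num (NRuns.asg (κ := κ) (L := L) (hGc ⟨j, hj⟩) argG (k + 4)
          (stH k r R (f a t) t (n - t) 0 Y) (by
            rw [harg, hGv]
            exact htL _ (by omega))) (bst (hl (f a) t) [])
        rw [harg, hGv, updH_idx] at u1
        have hlt : t - Q ⟨j, hj⟩ bb < (hl (f a) t).length := by rw [hl_length]; omega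
        have u2 := runs_getP (κ := κ) (L := L) (idx := k + 4) (y := k + 7 + j) (c := k + 5)
          (x := k + 6) (by omega) (by omega) (by omega) (by omega) (hl (f a) t) []
          (t - Q ⟨j, hj⟩ bb) hlt hmem (htL _ (by omega))
          (stH k r R (f a t) t (n - t) (t - Q ⟨j, hj⟩ bb) Y) (stH_z (by omega))
          (stH_z (by omega)) stH_idx
        rw [hl_get, updH_y hj] at u2
        have u3 := ARuns.num (runs_nzero (κ := κ) (L := L) (i := k + 4)
          (R := stH k r R (f a t) t (n - t) (t - Q ⟨j, hj⟩ bb)
            (update Y j (f a (t - (t - Q ⟨j, hj⟩ bb)))))) (bst (hl (f a) t) [])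
        rw [updH_idx] at u3
        have e3 : stH k r R (f a t) t (n - t) 0 (update Y j (f a (t - (t - Q ⟨j, hj⟩ bb)))) =
            stH k r R (f a t) t (n - t) 0 (fun x => if x < j + 1 then qv t x else ys x) := by
          refine stH_congr fun x _ => ?_
          by_cases hx : x = j
          · subst hx
            rw [update_self, if_pos (by omega), hqv]
            simp only
            rw [dif_pos hj]
            show f a (t - (t - Q ⟨x, hj⟩ bb)) = f a (min (Q ⟨x, hj⟩ bb) t)
            congr 1
            omega
          · rw [update_of_ne hx, hY]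
            simp only
            by_cases hc : x < j
            · rw [if_pos hc, if_pos (by omega)]
            · rw [if_neg hc, if_neg (by omega)]
        rw [e3] at u3
        exact (u1.seq (u2.seq u3)).monoT (by omega))
    have e4 : stH k r R (f a t) t (n - t) 0 (fun x => if x < 0 then qv t x else ys x) =
        stH k r R (f a t) t (n - t) 0 ys := stH_congr fun x _ => if_neg (by omega)
    have e5 : stH k r R (f a t) t (n - t) 0 (fun x => if x < r then qv t x else ys x) =
        stH k r R (f a t) t (n - t) 0 (qv t) := stH_congr fun x hx => if_pos hx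
    simp only [e4, e5] at r1
    have harg : (fun x => stH k r R (f a t) t (n - t) 0 (qv t) (argH x)) = Fin.append
        (Fin.snoc (α := fun _ => ℕ) (Fin.snoc (α := fun _ => ℕ) a t) (f a t)) fun j =>
        f a (min (Q j (Fin.snoc (α := fun _ => ℕ) (Fin.snoc (α := fun _ => ℕ) a t) (f a t))) t) := by
      funext x
      refine Fin.addCases (fun y => ?_) (fun y => ?_) x
      · rw [Fin.append_left]
        refine Fin.lastCases ?_ (fun z => ?_) y
        · rw [Fin.snoc_last]
          have : argH (Fin.castAdd r (Fin.last (k + 1))) = k + 1 := by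
            rw [hargH]
            show (if k + 1 < k then k + 1 else if k + 1 = k then k + 2
              else if k + 1 = k + 1 then k + 1 else k + 1 + 5) = _
            rw [if_neg (by omega), if_neg (by omega), if_pos rfl]
          rw [this, stH_cur]
        · rw [Fin.snoc_castSucc]
          refine Fin.lastCases ?_ (fun w => ?_) z
          · rw [Fin.snoc_last]
            have : argH (Fin.castAdd r (Fin.castSucc (Fin.last k))) = k + 2 := by
              rw [hargH]
              show (if k < k then k else if k = k then k + 2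
                else if k = k + 1 then k + 1 else k + 5) = _
              rw [if_neg (by omega), if_pos rfl]
            rw [this, stH_t]
          · rw [Fin.snoc_castSucc]
            have : argH (Fin.castAdd r w.castSucc.castSucc) = w := by
              rw [hargH]
              show (if (w : ℕ) < k then (w : ℕ) else _) = _
              rw [if_pos w.2]
            rw [this, stH_lo (by have := w.2; omega), hRa]
      · rw [Fin.append_right]
        have : argH (Fin.natAdd (k + 2) y) = k + 7 + y := by
          rw [hargH]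
          show (if k + 2 + (y : ℕ) < k then k + 2 + (y : ℕ) else if k + 2 + (y : ℕ) = k then k + 2
            else if k + 2 + (y : ℕ) = k + 1 then k + 1 else k + 2 + (y : ℕ) + 5) = _
          rw [if_neg (by omega), if_neg (by omega), if_neg (by omega)]
          omega
        rw [this, stH_y y.2, hqv]
        simp only
        rw [dif_pos y.2]
    have r2 := ARuns.num (NRuns.asg (κ := κ) (L := L) hH argH (k + 1)
      (stH k r R (f a t) t (n - t) 0 (qv t)) (by
        rw [harg, ← hs]
        exact hfL _ (by omega))) (bst (hl (f a) t) [])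
    rw [harg, ← hs, updH_cur] at r2
    have r3 := ARuns.psh (κ := κ) (L := L) (R := stH k r R (f a (t + 1)) t (n - t) 0 (qv t))
      (A := bst (hl (f a) t) []) false (k + 1)
    rw [stH_cur, bst_false, bst_updf] at r3
    have r4 := ARuns.num (runs_ninc (κ := κ) (L := L) (i := k + 2)
      (R := stH k r R (f a (t + 1)) t (n - t) 0 (qv t)) (by
        rw [stH_t]; exact htL _ (by omega))) (bst (hl (f a) (t + 1)) [])
    rw [stH_t, updH_t] at r4
    have r5 := ARuns.num (runs_ndec (κ := κ) (L := L) (i := k + 3)
      (R := stH k r R (f a (t + 1)) (t + 1) (n - t) 0 (qv t)) (by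
        rw [stH_cnt]; exact htL _ (by omega))) (bst (hl (f a) (t + 1)) [])
    rw [stH_cnt, updH_cnt, show n - t - 1 = n - (t + 1) by omega] at r5
    exact (r1.seq (r2.seq (r3.seq (r4.seq r5)))).monoT (by
      have e6 : r * (n * 16 + 15 + 1) = r * (n * 16 + 16) := by ring
      omega)
  -- the loop
  have s4 := ARuns.loopN (κ := κ) (L := L) (i := k + 3) (P := body)
    (fun t => stH k r R (f a t) t (n - t) 0 (ysf t)) (fun t => bst (hl (f a) t) []) n
    (r * (n * 16 + 16) + 14)
    (by
      show stH k r R (f a n) n (n - n) 0 (ysf n) (k + 3) = 0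
      rw [stH_cnt]
      omega)
    (fun t ht => by
      show stH k r R (f a t) t (n - t) 0 (ysf t) (k + 3) ≠ 0
      rw [stH_cnt]
      omega)
    (fun t ht => hround t ht (ysf t))
  have s5 := s1.seq (s2.seq (s3.seq s4))
  have e6 : (fun _ => [] : Bool → List ℕ) = bst [] [] := by
    funext s
    cases s <;> rfl
  rw [← e6] at s5
  refine ⟨_, _, s5.monoT ?_, ?_⟩
  · refine hist_bound (n := n) (s := sz b) (c := c) (r := r) ?_ hL ?_
    · exact (Nat.lt_size_self _).trans_le (Nat.pow_le_pow_right (by norm_num) (by omega))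
    · have e7 : n * (r * (n * 16 + 16) + 14 + 1) ≤ n * (r * (n * 16 + 16) + 16) :=
        Nat.mul_le_mul_left _ (by omega)
      omega
  · exact stH_cur

end LSP
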