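import Pool.Agent.H69P.Ops

/-!
# Increment and decrement of binary numbers

A number is kept on a stack by its binary digits (`Nat.bits`), the least significant digit on the top.
-/

set_option autoImplicit false

namespace LSP

open H85L Function

variable {Δ : Type} {v : View Δ} {B : ℕ}

/-- increment of a list of digits -/
def incL : List Bool → List Bool
  | [] => [true]
  | false :: l => true :: l
  | true :: l => false :: incL l

/-- decrement of a list of digits -/
def decL : List Bool → List Bool
  | [] => []
  | true :: [] => []
  | true :: b :: l => false :: b :: l
  | false :: l => true :: decL l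

theorem bits_succ (n : ℕ) : Nat.bits (n + 1) = incL (Nat.bits n) := by
  induction n using Nat.binaryRec' with
  | zero => rfl
  | bit b n h ih =>
    cases b with
    | false =>
      have h1 : Nat.bit false n + 1 = Nat.bit true n := by simp [Nat.bit_val]
      rw [h1, Nat.bits_append_bit n true (by simp), Nat.bits_append_bit n false h]
      rfl
    | true =>
      have h1 : Nat.bit true n + 1 = Nat.bit false (n + 1) := by simp [Nat.bit_val]; ring
      rw [h1, Nat.bits_append_bit (n + 1) false (by simp), Nat.bits_append_bit n true h, ih]
      rfl

theorem decL_incL (l : List Bool) (h : l = [] ∨ l.getLast? = some true) :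
    decL (incL l) = l := by
  induction l with
  | nil => rfl
  | cons b l ih =>
    have hl : l = [] ∨ l.getLast? = some true := by
      cases l with
      | nil => exact Or.inl rfl
      | cons a l =>
        right
        rcases h with h | h
        · exact absurd h (by simp)
        · simpa [List.getLast?_cons_cons] using h
    cases b with
    | false =>
      cases l with
      | nil =>
        rcases h with h | h
        · exact absurd h (by simp)
        · simp at h
      | cons a l => rfl
    | true =>
      show decL (false :: incL l) = true :: l
      show true :: decL (incL l) = true :: l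
      rw [ih hl]

theorem bits_getLast (n : ℕ) : Nat.bits n = [] ∨ (Nat.bits n).getLast? = some true := by
  induction n using Nat.binaryRec' with
  | zero => exact Or.inl rfl
  | bit b n h ih =>
    right
    rw [Nat.bits_append_bit n b h]
    rcases ih with ih | ih
    · rw [ih]
      have hn : n = 0 := by
        have := Nat.size_eq_bits_len n
        rw [ih, List.length_nil] at this
        exact Nat.size_eq_zero.1 this.symm
      rw [h hn]
      rfl
    · cases hb : Nat.bits n with
      | nil => rw [hb] at ih; simp at ih
      | cons a l => rw [hb] at ih; rw [List.getLast?_cons_cons]; exact ih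

theorem bits_pred (n : ℕ) (hn : n ≠ 0) : Nat.bits (n - 1) = decL (Nat.bits n) := by
  obtain ⟨m, rfl⟩ := Nat.exists_eq_succ_of_ne_zero hn
  rw [Nat.succ_eq_add_one, bits_succ, decL_incL _ (bits_getLast m), Nat.add_sub_cancel]

theorem bits_length (n : ℕ) : (Nat.bits n).length = Nat.size n := (Nat.size_eq_bits_len n)

theorem bits_eq_nil {n : ℕ} : Nat.bits n = [] ↔ n = 0 := by
  constructor
  · intro h
    have := bits_length n
    rw [h, List.length_nil] at this
    exact Nat.size_eq_zero.1 this.symm
  · rintro rfl; rfl

/-- increment the number on the stack `i`; the stacks `t` and `u` are empty -/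
def inc (i t u : ℕ) : Prog Δ :=
  .seq (push u true)
    (.seq (.loop u
      (.ift i (.seq (push i true) (pop u))
        (.seq (pop i) (.seq (push i true) (pop u)))
        (.seq (pop i) (push t false))))
      (pour t i))

/-- decrement the number on the stack `i`; the stacks `t` and `u` are empty -/
def dec (i t u : ℕ) : Prog Δ :=
  .seq (push u true)
    (.seq (.loop u
      (.ift i (pop u)
        (.seq (pop i) (push t true))
        (.seq (pop i) (.seq (.ift i (seqs []) (push i false) (push i false)) (pop u)))))
      (pour t i))

theorem inc_det (i t u : ℕ) : (inc i t u : Prog Δ).Det :=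
  ⟨push_det _ _, ⟨⟨push_det _ _, pop_det _⟩, ⟨pop_det _, push_det _ _, pop_det _⟩, pop_det _,
    push_det _ _⟩, pour_det _ _⟩

theorem dec_det (i t u : ℕ) : (dec i t u : Prog Δ).Det :=
  ⟨push_det _ _, ⟨pop_det _, ⟨pop_det _, push_det _ _⟩, pop_det _,
    ⟨seqs_det (by simp), push_det _ _, push_det _ _⟩, pop_det _⟩, pour_det _ _⟩

theorem runs_inc_loop {i t u : ℕ} (hit : i ≠ t) (hiu : i ≠ u) (htu : t ≠ u) (l : List Bool) :
    ∀ (acc : List Bool) (s : Mem), s i = l → s t = acc → s u = [true] →
      (∀ j, (s j).length ≤ B) → l.length + acc.length + 1 ≤ B →
      ∃ l' acc', acc'.reverse ++ l' = acc.reverse ++ incL l ∧ acc'.length ≤ acc.length + l.length ∧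
        Runs v B (.loop u
          (.ift i (.seq (push i true) (pop u))
            (.seq (pop i) (.seq (push i true) (pop u)))
            (.seq (pop i) (push t false)))) s (update (update (update s i l') t acc') u [])
          (9 * (l.length + 1)) := by
  induction l with
  | nil =>
    intro acc s hi ht hu hs hB
    refine ⟨[true], acc, by simp [incL], by simp, ?_⟩
    have hne : s u ≠ [] := by rw [hu]; simp
    have hs1 : ∀ j, ((update s i [true]) j).length ≤ B := upd_le hs (by simp; omega)
    have h1 := runs_push (v := v) (B := B) (s := s) i true hs (by rw [hi]; simp; omega)
    rw [hi] at h1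
    have h2 := runs_pop (v := v) (B := B) (s := update s i [true]) u hs1
    rw [update_of_ne hiu.symm, hu, List.tail_cons] at h2
    have h3 : update (update (update s i [true]) t acc) u [] =
        update (update s i [true]) u [] := by (funext x; simp only [Function.update_apply]; split_ifs <;>
          first | rfl | (subst_vars; simp_all) | simp_all)
    rw [h3]
    refine (Runs.loop1 hne (Runs.ift0 hi (h1.seq h2)) (Runs.loop0 (by simp))).monoT (by simp)
  | cons b l ih =>
    intro acc s hi ht hu hs hB
    have hne : s u ≠ [] := by rw [hu]; simp
    simp only [List.length_cons] at hB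
    cases b with
    | false =>
      refine ⟨true :: l, acc, by simp [incL], by simp, ?_⟩
      have h0 := runs_pop (v := v) (B := B) (s := s) i hs
      rw [hi, List.tail_cons] at h0
      have hs0 : ∀ j, ((update s i l) j).length ≤ B := upd_le hs (by omega)
      have h1 := runs_push (v := v) (B := B) (s := update s i l) i true hs0 (by
        rw [update_self]; omega)
      rw [update_self, update_idem] at h1
      have hs1 : ∀ j, ((update s i (true :: l)) j).length ≤ B := upd_le hs (by simp; omega)
      have h2 := runs_pop (v := v) (B := B) (s := update s i (true :: l)) u hs1
      rw [update_of_ne hiu.symm, hu, List.tail_cons] at h2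
      have h3 : update (update (update s i (true :: l)) t acc) u [] =
          update (update s i (true :: l)) u [] := by (funext x; simp only [Function.update_apply]; split_ifs <;>
          first | rfl | (subst_vars; simp_all) | simp_all)
      rw [h3]
      refine (Runs.loop1 hne (Runs.ift1 hi (h0.seq (h1.seq h2))) (Runs.loop0 (by simp))).monoT ?_
      simp only [List.length_cons]
      omega
    | true =>
      have h0 := runs_pop (v := v) (B := B) (s := s) i hs
      rw [hi, List.tail_cons] at h0
      have hs0 : ∀ j, ((update s i l) j).length ≤ B := upd_le hs (by omega)
      have h1 := runs_push (v := v) (B := B) (s := update s i l) t false hs0 (by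
        rw [update_of_ne hit.symm, ht]; omega)
      rw [update_of_ne hit.symm, ht] at h1
      obtain ⟨l', acc', e1, e2, h2⟩ := ih (false :: acc) (update (update s i l) t (false :: acc))
        (by rw [update_of_ne hit, update_self]) (by rw [update_self])
        (by rw [update_of_ne htu.symm, update_of_ne hiu.symm, hu])
        (upd_le hs0 (by simp; omega)) (by simp; omega)
      refine ⟨l', acc', ?_, ?_, ?_⟩
      · rw [e1]
        simp [incL]
      · simp only [List.length_cons] at e2 ⊢
        omega
      · have h3 : update (update (update (update (update s i l) t (false :: acc)) i l') t acc') u []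
            = update (update (update s i l') t acc') u [] := by (funext x; simp only [Function.update_apply]; split_ifs <;>
          first | rfl | (subst_vars; simp_all) | simp_all)
        rw [h3] at h2
        refine (Runs.loop1 hne (Runs.ift2 hi (h0.seq h1)) h2).monoT ?_
        simp only [List.length_cons]
        omega

theorem runs_incL {s : Mem} (i t u : ℕ) (hit : i ≠ t) (hiu : i ≠ u) (htu : t ≠ u)
    (ht : s t = []) (hu : s u = []) (hs : ∀ j, (s j).length ≤ B) (hB : (s i).length + 1 ≤ B) :
    Runs v B (inc i t u) s (update s i (incL (s i))) (11 * (s i).length + 13) := by
  have h1 := runs_push (v := v) (B := B) (s := s) u true hs (by rw [hu]; simp; omega)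
  rw [hu] at h1
  obtain ⟨l', acc', e1, e2, h2⟩ := runs_inc_loop (v := v) (B := B) hit hiu htu (s i) []
    (update s u [true]) (by rw [update_of_ne hiu]) (by rw [update_of_ne htu, ht])
    (by rw [update_self]) (upd_le hs (by simp; omega)) (by simpa using hB)
  have hlen : acc'.length + l'.length = (incL (s i)).length := by
    have := congrArg List.length e1
    simpa using this
  have hinc : ∀ l : List Bool, (incL l).length ≤ l.length + 1 := by
    intro l
    induction l with
    | nil => simp [incL]
    | cons b l ih =>
      cases b with
      | false => simp [incL]
      | true => simp only [incL, List.length_cons]; omega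
  have hi1 := hinc (s i)
  have hs2 : ∀ j, ((update (update (update (update s u [true]) i l') t acc') u []) j).length ≤ B :=
    upd_le (upd_le (upd_le (upd_le hs (by simp; omega)) (by omega)) (by omega)) (by simp)
  have h3 := runs_pour (v := v) (B := B)
    (s := update (update (update (update s u [true]) i l') t acc') u []) t i hit.symm hs2 (by
      rw [update_of_ne htu, update_self, update_of_ne hiu, update_of_ne hit, update_self]
      omega)
  rw [update_of_ne htu, update_self, update_of_ne hiu, update_of_ne hit, update_self] at h3
  have e1' : acc'.reverse ++ l' = incL (s i) := by simpa using e1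
  rw [e1'] at h3
  have h4 : update (update (update (update (update (update s u [true]) i l') t acc') u []) t []) i
      (incL (s i)) = update s i (incL (s i)) := by (funext x; simp only [Function.update_apply]; split_ifs <;>
          first | rfl | (subst_vars; simp_all) | simp_all)
  rw [h4] at h3
  refine (h1.seq (h2.seq h3)).monoT ?_
  simp only [List.length_nil, zero_add] at e2
  omega

theorem runs_dec_loop {i t u : ℕ} (hit : i ≠ t) (hiu : i ≠ u) (htu : t ≠ u) (l : List Bool) :
    ∀ (acc : List Bool) (s : Mem), s i = l → s t = acc → s u = [true] →
      (∀ j, (s j).length ≤ B) → l.length + acc.length + 1 ≤ B →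
      ∃ l' acc', acc'.reverse ++ l' = acc.reverse ++ decL l ∧ acc'.length ≤ acc.length + l.length ∧
        l'.length ≤ l.length ∧
        Runs v B (.loop u
          (.ift i (pop u)
            (.seq (pop i) (push t true))
            (.seq (pop i) (.seq (.ift i (seqs []) (push i false) (push i false)) (pop u))))) s
          (update (update (update s i l') t acc') u []) (9 * (l.length + 1)) := by
  induction l with
  | nil =>
    intro acc s hi ht hu hs hB
    refine ⟨[], acc, by simp [decL], by simp, by simp, ?_⟩
    have hne : s u ≠ [] := by rw [hu]; simp
    have h2 := runs_pop (v := v) (B := B) (s := s) u hs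
    rw [hu, List.tail_cons] at h2
    have h3 : update (update (update s i []) t acc) u [] = update s u [] := by (funext x; simp only [Function.update_apply]; split_ifs <;>
          first | rfl | (subst_vars; simp_all) | simp_all)
    rw [h3]
    exact (Runs.loop1 hne (Runs.ift0 hi h2) (Runs.loop0 (by simp))).monoT (by simp)
  | cons b l ih =>
    intro acc s hi ht hu hs hB
    have hne : s u ≠ [] := by rw [hu]; simp
    simp only [List.length_cons] at hB
    have h0 := runs_pop (v := v) (B := B) (s := s) i hs
    rw [hi, List.tail_cons] at h0
    have hs0 : ∀ j, ((update s i l) j).length ≤ B := upd_le hs (by omega)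
    cases b with
    | false =>
      have h1 := runs_push (v := v) (B := B) (s := update s i l) t true hs0 (by
        rw [update_of_ne hit.symm, ht]; omega)
      rw [update_of_ne hit.symm, ht] at h1
      obtain ⟨l', acc', e1, e2, e3, h2⟩ := ih (true :: acc) (update (update s i l) t (true :: acc))
        (by rw [update_of_ne hit, update_self]) (by rw [update_self])
        (by rw [update_of_ne htu.symm, update_of_ne hiu.symm, hu])
        (upd_le hs0 (by simp; omega)) (by simp; omega)
      refine ⟨l', acc', ?_, ?_, ?_, ?_⟩
      · rw [e1]
        simp [decL]
      · simp only [List.length_cons] at e2 ⊢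
        omega
      · simp only [List.length_cons]
        omega
      · have h3 : update (update (update (update (update s i l) t (true :: acc)) i l') t acc') u []
            = update (update (update s i l') t acc') u [] := by (funext x; simp only [Function.update_apply]; split_ifs <;>
          first | rfl | (subst_vars; simp_all) | simp_all)
        rw [h3] at h2
        refine (Runs.loop1 hne (Runs.ift1 hi (h0.seq h1)) h2).monoT ?_
        simp only [List.length_cons]
        omega
    | true =>
      cases l with
      | nil =>
        refine ⟨[], acc, by simp [decL], by simp, by simp, ?_⟩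
        have h1 : Runs v B (.ift i (seqs []) (push i false) (push i false)) (update s i [])
            (update s i []) 2 := Runs.ift0 (by simp) (Runs.seqs_nil hs0)
        have h2 := runs_pop (v := v) (B := B) (s := update s i []) u hs0
        rw [update_of_ne hiu.symm, hu, List.tail_cons] at h2
        have h3 : update (update (update s i []) t acc) u [] =
            update (update s i []) u [] := by (funext x; simp only [Function.update_apply]; split_ifs <;>
          first | rfl | (subst_vars; simp_all) | simp_all)
        rw [h3]
        refine (Runs.loop1 hne (Runs.ift2 hi (h0.seq (h1.seq h2)))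
          (Runs.loop0 (by simp))).monoT ?_
        simp only [List.length_cons]
        omega
      | cons a l =>
        refine ⟨false :: a :: l, acc, by simp [decL], by simp, by simp, ?_⟩
        have h1' := runs_push (v := v) (B := B) (s := update s i (a :: l)) i false hs0 (by
          rw [update_self]; simp only [List.length_cons] at hB ⊢; omega)
        rw [update_self, update_idem] at h1'
        have h1 : Runs v B (.ift i (seqs []) (push i false) (push i false)) (update s i (a :: l))
            (update s i (false :: a :: l)) 2 := by
          cases a with
          | false => exact Runs.ift1 (l := l) (by simp) h1'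
          | true => exact Runs.ift2 (l := l) (by simp) h1'
        have hs1 : ∀ j, ((update s i (false :: a :: l)) j).length ≤ B :=
          upd_le hs (by simp only [List.length_cons] at hB ⊢; omega)
        have h2 := runs_pop (v := v) (B := B) (s := update s i (false :: a :: l)) u hs1
        rw [update_of_ne hiu.symm, hu, List.tail_cons] at h2
        have h3 : update (update (update s i (false :: a :: l)) t acc) u [] =
            update (update s i (false :: a :: l)) u [] := by (funext x; simp only [Function.update_apply]; split_ifs <;>
          first | rfl | (subst_vars; simp_all) | simp_all)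
        rw [h3]
        refine (Runs.loop1 hne (Runs.ift2 hi (h0.seq (h1.seq h2)))
          (Runs.loop0 (by simp))).monoT ?_
        simp only [List.length_cons]
        omega

theorem runs_decL {s : Mem} (i t u : ℕ) (hit : i ≠ t) (hiu : i ≠ u) (htu : t ≠ u)
    (ht : s t = []) (hu : s u = []) (hs : ∀ j, (s j).length ≤ B) (hB : (s i).length + 1 ≤ B) :
    Runs v B (dec i t u) s (update s i (decL (s i))) (11 * (s i).length + 13) := by
  have h1 := runs_push (v := v) (B := B) (s := s) u true hs (by rw [hu]; simp; omega)
  rw [hu] at h1
  obtain ⟨l', acc', e1, e2, e3, h2⟩ := runs_dec_loop (v := v) (B := B) hit hiu htu (s i) []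
    (update s u [true]) (by rw [update_of_ne hiu]) (by rw [update_of_ne htu, ht])
    (by rw [update_self]) (upd_le hs (by simp; omega)) (by simpa using hB)
  have hlen : acc'.length + l'.length = (decL (s i)).length := by
    have := congrArg List.length e1
    simpa using this
  have hdec : ∀ l : List Bool, (decL l).length ≤ l.length := by
    intro l
    induction l with
    | nil => simp [decL]
    | cons b l ih =>
      cases b with
      | false => simp only [decL, List.length_cons]; omega
      | true =>
        cases l with
        | nil => simp [decL]
        | cons a l => simp [decL]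
  have hi1 := hdec (s i)
  have hs2 : ∀ j, ((update (update (update (update s u [true]) i l') t acc') u []) j).length ≤ B :=
    upd_le (upd_le (upd_le (upd_le hs (by simp; omega)) (by omega)) (by omega)) (by simp)
  have h3 := runs_pour (v := v) (B := B)
    (s := update (update (update (update s u [true]) i l') t acc') u []) t i hit.symm hs2 (by
      rw [update_of_ne htu, update_self, update_of_ne hiu, update_of_ne hit, update_self]
      omega)
  rw [update_of_ne htu, update_self, update_of_ne hiu, update_of_ne hit, update_self] at h3
  have e1' : acc'.reverse ++ l' = decL (s i) := by simpa using e1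
  rw [e1'] at h3
  have h4 : update (update (update (update (update (update s u [true]) i l') t acc') u []) t []) i
      (decL (s i)) = update s i (decL (s i)) := by (funext x; simp only [Function.update_apply]; split_ifs <;>
          first | rfl | (subst_vars; simp_all) | simp_all)
  rw [h4] at h3
  refine (h1.seq (h2.seq h3)).monoT ?_
  simp only [List.length_nil, zero_add] at e2
  omega

theorem runs_inc {s : Mem} (i t u : ℕ) (hit : i ≠ t) (hiu : i ≠ u) (htu : t ≠ u) (n : ℕ)
    (hi : s i = Nat.bits n) (ht : s t = []) (hu : s u = []) (hs : ∀ j, (s j).length ≤ B)
    (hB : Nat.size n + 1 ≤ B) :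
    Runs v B (inc i t u) s (update s i (Nat.bits (n + 1))) (11 * Nat.size n + 13) := by
  have h := runs_incL (v := v) (B := B) i t u hit hiu htu ht hu hs (by rw [hi, bits_length]; exact hB)
  rw [hi, bits_length, ← bits_succ] at h
  exact h

theorem runs_dec {s : Mem} (i t u : ℕ) (hit : i ≠ t) (hiu : i ≠ u) (htu : t ≠ u) (n : ℕ)
    (hn : n ≠ 0) (hi : s i = Nat.bits n) (ht : s t = []) (hu : s u = [])
    (hs : ∀ j, (s j).length ≤ B) (hB : Nat.size n + 1 ≤ B) :
    Runs v B (dec i t u) s (update s i (Nat.bits (n - 1))) (11 * Nat.size n + 13) := by
  have h := runs_decL (v := v) (B := B) i t u hit hiu htu ht hu hs (by rw [hi, bits_length]; exact hB)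
  rw [hi, bits_length, ← bits_pred n hn] at h
  exact h

end LSP
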