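import Pool.Agent.H69P.Comp

/-!
# Simultaneous bounded iteration
-/

set_option autoImplicit false

namespace LSP

open H85L Function

variable {κ : Kind}

/-- the variables in the program for simultaneous iteration -/
def stV (k m : ℕ) (R cur nxt : ℕ → ℕ) (idx cnt : ℕ) : ℕ → ℕ := fun x =>
  if x < k + 2 then R x else if x < k + 2 + m then cur (x - (k + 2))
  else if x < k + 2 + 2 * m then nxt (x - (k + 2 + m)) else if x = k + 2 + 2 * m then idx
  else if x = k + 3 + 2 * m then cnt else R x

section
variable {k m : ℕ} {R cur nxt : ℕ → ℕ} {idx cnt : ℕ}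

theorem stV_lo {x : ℕ} (h : x < k + 2) : stV k m R cur nxt idx cnt x = R x := by
  unfold stV
  rw [if_pos h]

theorem stV_cur {j : ℕ} (h : j < m) : stV k m R cur nxt idx cnt (k + 2 + j) = cur j := by
  unfold stV
  rw [if_neg (by omega), if_pos (by omega)]
  congr 1
  omega

theorem stV_nxt {j : ℕ} (h : j < m) : stV k m R cur nxt idx cnt (k + 2 + m + j) = nxt j := by
  unfold stV
  rw [if_neg (by omega), if_neg (by omega), if_pos (by omega)]
  congr 1
  omega

theorem stV_idx : stV k m R cur nxt idx cnt (k + 2 + 2 * m) = idx := by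
  unfold stV
  rw [if_neg (by omega), if_neg (by omega), if_neg (by omega), if_pos rfl]

theorem stV_cnt : stV k m R cur nxt idx cnt (k + 3 + 2 * m) = cnt := by
  unfold stV
  rw [if_neg (by omega), if_neg (by omega), if_neg (by omega), if_neg (by omega), if_pos rfl]

theorem upd_cur {j v : ℕ} (h : j < m) :
    update (stV k m R cur nxt idx cnt) (k + 2 + j) v = stV k m R (update cur j v) nxt idx cnt := by
  funext x
  by_cases hx : x = k + 2 + j
  · subst hx; rw [update_self, stV_cur h, update_self]
  · rw [update_of_ne hx]
    unfold stV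
    split_ifs
    · rfl
    · rw [update_of_ne (by omega)]
    · rfl
    · rfl
    · rfl
    · rfl

theorem upd_nxt {j v : ℕ} (h : j < m) :
    update (stV k m R cur nxt idx cnt) (k + 2 + m + j) v =
      stV k m R cur (update nxt j v) idx cnt := by
  funext x
  by_cases hx : x = k + 2 + m + j
  · subst hx; rw [update_self, stV_nxt h, update_self]
  · rw [update_of_ne hx]
    unfold stV
    split_ifs
    · rfl
    · rfl
    · rw [update_of_ne (by omega)]
    · rfl
    · rfl
    · rfl

theorem upd_idx {v : ℕ} :
    update (stV k m R cur nxt idx cnt) (k + 2 + 2 * m) v = stV k m R cur nxt v cnt := by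
  funext x
  by_cases hx : x = k + 2 + 2 * m
  · subst hx; rw [update_self, stV_idx]
  · rw [update_of_ne hx]
    unfold stV
    split_ifs <;> first | rfl | omega

theorem upd_cnt {v : ℕ} :
    update (stV k m R cur nxt idx cnt) (k + 3 + 2 * m) v = stV k m R cur nxt idx v := by
  funext x
  by_cases hx : x = k + 3 + 2 * m
  · subst hx; rw [update_self, stV_cnt]
  · rw [update_of_ne hx]
    unfold stV
    split_ifs <;> first | rfl | omega

theorem stV_congr {cur' nxt' : ℕ → ℕ} (h : ∀ j < m, cur j = cur' j) (h' : ∀ j < m, nxt j = nxt' j) :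
    stV k m R cur nxt idx cnt = stV k m R cur' nxt' idx cnt := by
  funext x
  unfold stV
  split_ifs
  · rfl
  · exact h _ (by omega)
  · exact h' _ (by omega)
  · rfl
  · rfl
  · rfl

end

/-- simultaneous iteration: the functions `f a i j`, `j < m`, with `f a 0 j = G j a` and
`f a (i + 1) j = H j (a, i, f a i)` are computed if the `G j` and `H j` are, and if the values have
linear size -/
theorem Cmp.iterV {k m : ℕ} {G : Fin m → (Fin k → ℕ) → ℕ} {H : Fin m → (Fin (k + 1 + m) → ℕ) → ℕ}
    (hG : ∀ j, Cmp κ (G j)) (hH : ∀ j, Cmp κ (H j)) (f : (Fin k → ℕ) → ℕ → Fin m → ℕ)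
    (h0 : ∀ a j, f a 0 j = G j a)
    (hs : ∀ a i j, f a (i + 1) j = H j (Fin.append (Fin.snoc (α := fun _ => ℕ) a i) (f a i)))
    (hb : ∃ c, ∀ a i j, Nat.size (f a i j) ≤ c * (sz a + Nat.size i + 1)) :
    ∀ j, Cmp κ (fun b : Fin (k + 1) → ℕ => f (fun i => b i.castSucc) (b (Fin.last k)) j) := by
  intro j0
  obtain ⟨c, hc⟩ := hb
  set argH : Fin (k + 1 + m) → ℕ := fun i => if (i : ℕ) < k then i else if (i : ℕ) = k then
    k + 2 + 2 * m else i + 1 with hargH
  set init : NProg κ := nseqN (fun j => if h : j < m then
    .asg k (G ⟨j, h⟩) (hG ⟨j, h⟩) (fun i => i) (k + 2 + j) else nskip) m with hinit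
  set calc' : NProg κ := nseqN (fun j => if h : j < m then
    .asg (k + 1 + m) (H ⟨j, h⟩) (hH ⟨j, h⟩) argH (k + 2 + m + j) else nskip) m with hcalc
  set back : NProg κ := nseqN (fun j => ncopy (k + 2 + m + j) (k + 2 + j)) m with hback
  set incI : NProg κ := .asg 1 (fun a => a 0 + 1) (cmp_succ κ 0) (fun _ => k + 2 + 2 * m)
    (k + 2 + 2 * m) with hincI
  set decC : NProg κ := .asg 1 (fun a => a 0 - 1) (cmp_pred κ 0) (fun _ => k + 3 + 2 * m)
    (k + 3 + 2 * m) with hdecC
  set body : NProg κ := .seq calc' (.seq back (.seq incI decC)) with hbody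
  set P : NProg κ := .seq init (.seq (ncopy k (k + 3 + 2 * m)) (.seq (.loop (k + 3 + 2 * m) body)
    (ncopy (k + 2 + j0) (k + 1)))) with hP
  have hj0 := j0.2
  have hargHlt : ∀ i, argH i < k + 4 + 2 * m := by
    intro i
    have := i.2
    rw [hargH]
    show (if (i : ℕ) < k then (i : ℕ) else if (i : ℕ) = k then k + 2 + 2 * m else i + 1) < _
    split_ifs <;> omega
  refine Cmp.of_nprog P (k + 4 + 2 * m)
    ⟨nseqN_uses (by omega) fun j hj => ?_, ⟨fun _ => (by omega : k < k + 4 + 2 * m), by omega⟩,
      ⟨by omega, nseqN_uses (by omega) fun j hj => ?_, nseqN_uses (by omega) fun j hj =>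
        ⟨fun _ => (by omega : k + 2 + m + j < k + 4 + 2 * m), by omega⟩,
        ⟨fun _ => (by omega : k + 2 + 2 * m < k + 4 + 2 * m), by omega⟩,
        ⟨fun _ => (by omega : k + 3 + 2 * m < k + 4 + 2 * m), by omega⟩⟩,
      ⟨fun _ => (by omega : k + 2 + (j0 : ℕ) < k + 4 + 2 * m), by omega⟩⟩ (by omega)
    (fun _ => ⟨nseqN_det fun j hj => ?_, trivial, ⟨nseqN_det fun j hj => ?_,
      nseqN_det fun _ _ => trivial, trivial, trivial⟩, trivial⟩) (c + 2 * m + 8) fun b R hR hR0 => ?_
  · rw [dif_pos hj]
    exact ⟨fun i => (by have := i.2; omega : (i : ℕ) < k + 4 + 2 * m), by omega⟩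
  · rw [dif_pos hj]
    exact ⟨hargHlt, by omega⟩
  · rw [dif_pos hj]
    trivial
  · rw [dif_pos hj]
    trivial
  set a : Fin k → ℕ := fun i => b i.castSucc with ha
  set y := b (Fin.last k) with hy
  set L := (c + 2 * m + 8) * (sz b + 1) with hL
  have e1 : L = c * (sz b + 1) + 2 * m * (sz b + 1) + 8 * (sz b + 1) := by rw [hL]; ring
  have hszb : sz b = sz a + Nat.size y := by
    unfold sz
    rw [Fin.sum_univ_castSucc]
  set fv : ℕ → ℕ → ℕ := fun i x => if h : x < m then f a i ⟨x, h⟩ else 0 with hfv
  have hfvL : ∀ i x, i ≤ y → Nat.size (fv i x) ≤ c * (sz b + 1) := by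
    intro i x hi
    rw [hfv]
    simp only
    split_ifs with h
    · refine (hc a i ⟨x, h⟩).trans (Nat.mul_le_mul_left _ ?_)
      have := Nat.size_le_size hi
      omega
    · simp
  have hRk : R k = y := hR (Fin.last k)
  have hRa : ∀ i : Fin k, R i = a i := fun i => hR i.castSucc
  have hRs : ∀ i, i < k + 4 + 2 * m → Nat.size (R i) ≤ sz b := by
    intro i hi
    by_cases h : i < k + 1
    · rw [hR ⟨i, h⟩]
      exact size_le_sz b _
    · rw [hR0 i (by omega) hi]
      simp
  -- the initial memory in the form `stV`
  have hRst : R = stV k m R (fun _ => 0) (fun _ => 0) 0 0 := by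
    funext x
    unfold stV
    split_ifs
    · rfl
    · exact hR0 x (by omega) (by omega)
    · exact hR0 x (by omega) (by omega)
    · exact hR0 x (by omega) (by omega)
    · exact hR0 x (by omega) (by omega)
    · rfl
  -- initial values
  have s1 : NRuns L init R (stV k m R (fv 0) (fun _ => 0) 0 0) (m * 2 + 1) := by
    have h := NRuns.seqN (κ := κ) (L := L) (fun j => if h : j < m then
      .asg k (G ⟨j, h⟩) (hG ⟨j, h⟩) (fun i => i) (k + 2 + j) else nskip)
      (fun j => stV k m R (fun x => if x < j then fv 0 x else 0) (fun _ => 0) 0 0) m 1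
      (by
        rw [stV_lo (by omega)]
        have := hRs 0 (by omega)
        omega) (fun j hj => by
        rw [dif_pos hj]
        have harg : (fun i : Fin k => stV k m R (fun x => if x < j then fv 0 x else 0)
            (fun _ => 0) 0 0 (i : ℕ)) = a := by
          funext i
          rw [stV_lo (by have := i.2; omega), hRa]
        have hv : G ⟨j, hj⟩ a = fv 0 j := by
          rw [hfv]
          simp only
          rw [dif_pos hj, h0]
        have h2 := NRuns.asg (κ := κ) (L := L) (hG ⟨j, hj⟩) (fun i : Fin k => (i : ℕ)) (k + 2 + j)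
          (stV k m R (fun x => if x < j then fv 0 x else 0) (fun _ => 0) 0 0) (by
            rw [harg, hv]
            have := hfvL 0 j (by omega)
            omega)
        rw [harg, hv, upd_cur hj] at h2
        have h3 : stV k m R (update (fun x => if x < j then fv 0 x else 0) j (fv 0 j)) (fun _ => 0) 0 0
            = stV k m R (fun x => if x < j + 1 then fv 0 x else 0) (fun _ => 0) 0 0 := by
          refine stV_congr (fun x _ => ?_) fun _ _ => rfl
          by_cases hx : x = j
          · subst hx; rw [update_self, if_pos (by omega)]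
          · rw [update_of_ne hx]
            by_cases hc : x < j
            · rw [if_pos hc, if_pos (by omega)]
            · rw [if_neg hc, if_neg (by omega)]
        rw [h3] at h2
        exact h2)
    have e2 : stV k m R (fun x => if x < 0 then fv 0 x else 0) (fun _ => 0) 0 0 = R := by
      conv_rhs => rw [hRst]
      exact stV_congr (fun x _ => if_neg (by omega)) fun _ _ => rfl
    have e3 : stV k m R (fun x => if x < m then fv 0 x else 0) (fun _ => 0) 0 0 =
        stV k m R (fv 0) (fun _ => 0) 0 0 := stV_congr (fun x hx => if_pos hx) fun _ _ => rfl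
    simp only [e2, e3] at h
    exact h
  -- the counter
  have s2 : NRuns (κ := κ) L (ncopy k (k + 3 + 2 * m)) (stV k m R (fv 0) (fun _ => 0) 0 0)
      (stV k m R (fv 0) (fun _ => 0) 0 y) 1 := by
    have h := runs_ncopy (κ := κ) (L := L) (i := k) (j := k + 3 + 2 * m)
      (R := stV k m R (fv 0) (fun _ => 0) 0 0) (by
        rw [stV_lo (by omega)]
        have := hRs k (by omega)
        omega)
    rw [stV_lo (by omega), hRk, upd_cnt] at h
    exact h
  -- one round
  have hround : ∀ i, i < y → ∀ nx : ℕ → ℕ, NRuns L body (stV k m R (fv i) nx i (y - i))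
      (stV k m R (fv (i + 1)) (fv (i + 1)) (i + 1) (y - (i + 1))) (4 * m + 8) := by
    intro i hi nx
    have r1 := NRuns.seqN (κ := κ) (L := L) (fun j => if h : j < m then
      .asg (k + 1 + m) (H ⟨j, h⟩) (hH ⟨j, h⟩) argH (k + 2 + m + j) else nskip)
      (fun j => stV k m R (fv i) (fun x => if x < j then fv (i + 1) x else nx x) i (y - i)) m 1
      (by
        rw [stV_lo (by omega)]
        have := hRs 0 (by omega)
        omega) (fun j hj => by
        rw [dif_pos hj]
        have harg : (fun x => stV k m R (fv i) (fun x => if x < j then fv (i + 1) x else nx x) i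
            (y - i) (argH x)) = Fin.append (Fin.snoc (α := fun _ => ℕ) a i) (f a i) := by
          funext x
          refine Fin.addCases (fun z => ?_) (fun z => ?_) x
          · rw [Fin.append_left]
            refine Fin.lastCases ?_ (fun w => ?_) z
            · rw [Fin.snoc_last]
              have : argH (Fin.castAdd m (Fin.last k)) = k + 2 + 2 * m := by
                rw [hargH]
                show (if k < k then k else if k = k then k + 2 + 2 * m else k + 1) = _
                rw [if_neg (by omega), if_pos rfl]
              rw [this, stV_idx]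
            · rw [Fin.snoc_castSucc]
              have : argH (Fin.castAdd m w.castSucc) = w := by
                rw [hargH]
                show (if (w : ℕ) < k then (w : ℕ) else _) = _
                rw [if_pos w.2]
              rw [this, stV_lo (by have := w.2; omega), hRa]
          · rw [Fin.append_right]
            have : argH (Fin.natAdd (k + 1) z) = k + 2 + z := by
              rw [hargH]
              show (if k + 1 + (z : ℕ) < k then k + 1 + (z : ℕ) else if k + 1 + (z : ℕ) = k then
                k + 2 + 2 * m else k + 1 + (z : ℕ) + 1) = _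
              rw [if_neg (by omega), if_neg (by omega)]
              omega
            rw [this, stV_cur z.2, hfv]
            simp only
            rw [dif_pos z.2]
        have hv : H ⟨j, hj⟩ (Fin.append (Fin.snoc (α := fun _ => ℕ) a i) (f a i)) =
            fv (i + 1) j := by
          rw [hfv]
          simp only
          rw [dif_pos hj, hs]
        have h2 := NRuns.asg (κ := κ) (L := L) (hH ⟨j, hj⟩) argH (k + 2 + m + j)
          (stV k m R (fv i) (fun x => if x < j then fv (i + 1) x else nx x) i (y - i)) (by
            rw [harg, hv]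
            have := hfvL (i + 1) j (by omega)
            omega)
        rw [harg, hv, upd_nxt hj] at h2
        have h3 : stV k m R (fv i) (update (fun x => if x < j then fv (i + 1) x else nx x) j
            (fv (i + 1) j)) i (y - i) =
            stV k m R (fv i) (fun x => if x < j + 1 then fv (i + 1) x else nx x) i (y - i) := by
          refine stV_congr (fun _ _ => rfl) fun x _ => ?_
          by_cases hx : x = j
          · subst hx; rw [update_self, if_pos (by omega)]
          · rw [update_of_ne hx]
            by_cases hc : x < j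
            · rw [if_pos hc, if_pos (by omega)]
            · rw [if_neg hc, if_neg (by omega)]
        rw [h3] at h2
        exact h2)
    have e2 : stV k m R (fv i) (fun x => if x < 0 then fv (i + 1) x else nx x) i (y - i) =
        stV k m R (fv i) nx i (y - i) :=
      stV_congr (fun _ _ => rfl) fun x _ => if_neg (by omega)
    have e3 : stV k m R (fv i) (fun x => if x < m then fv (i + 1) x else nx x) i (y - i) =
        stV k m R (fv i) (fv (i + 1)) i (y - i) :=
      stV_congr (fun _ _ => rfl) fun x hx => if_pos hx
    simp only [e2, e3] at r1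
    have r2 := NRuns.seqN (κ := κ) (L := L) (fun j => ncopy (k + 2 + m + j) (k + 2 + j))
      (fun j => stV k m R (fun x => if x < j then fv (i + 1) x else fv i x) (fv (i + 1)) i (y - i))
      m 1 (by
        rw [stV_lo (by omega)]
        have := hRs 0 (by omega)
        omega) (fun j hj => by
        have h2 := runs_ncopy (κ := κ) (L := L) (i := k + 2 + m + j) (j := k + 2 + j)
          (R := stV k m R (fun x => if x < j then fv (i + 1) x else fv i x) (fv (i + 1)) i (y - i))
          (by
            rw [stV_nxt hj]
            have := hfvL (i + 1) j (by omega)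
            omega)
        rw [stV_nxt hj, upd_cur hj] at h2
        have h3 : stV k m R (update (fun x => if x < j then fv (i + 1) x else fv i x) j
            (fv (i + 1) j)) (fv (i + 1)) i (y - i) =
            stV k m R (fun x => if x < j + 1 then fv (i + 1) x else fv i x) (fv (i + 1)) i
              (y - i) := by
          refine stV_congr (fun x _ => ?_) fun _ _ => rfl
          by_cases hx : x = j
          · subst hx; rw [update_self, if_pos (by omega)]
          · rw [update_of_ne hx]
            by_cases hc : x < j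
            · rw [if_pos hc, if_pos (by omega)]
            · rw [if_neg hc, if_neg (by omega)]
        rw [h3] at h2
        exact h2)
    have e4 : stV k m R (fun x => if x < 0 then fv (i + 1) x else fv i x) (fv (i + 1)) i (y - i) =
        stV k m R (fv i) (fv (i + 1)) i (y - i) :=
      stV_congr (fun x _ => if_neg (by omega)) fun _ _ => rfl
    have e5 : stV k m R (fun x => if x < m then fv (i + 1) x else fv i x) (fv (i + 1)) i (y - i) =
        stV k m R (fv (i + 1)) (fv (i + 1)) i (y - i) :=
      stV_congr (fun x hx => if_pos hx) fun _ _ => rfl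
    simp only [e4, e5] at r2
    have hsy : ∀ z, z ≤ y → Nat.size z ≤ sz b := fun z hz =>
      (Nat.size_le_size hz).trans (by omega)
    have r3 := NRuns.asg (κ := κ) (L := L) (cmp_succ κ (0 : Fin 1)) (fun _ => k + 2 + 2 * m)
      (k + 2 + 2 * m) (stV k m R (fv (i + 1)) (fv (i + 1)) i (y - i)) (by
        show Nat.size (stV k m R (fv (i + 1)) (fv (i + 1)) i (y - i) (k + 2 + 2 * m) + 1) ≤ L
        rw [stV_idx]
        have := hsy (i + 1) (by omega)
        omega)
    change NRuns L incI _ (update _ _ (stV k m R (fv (i + 1)) (fv (i + 1)) i (y - i)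
      (k + 2 + 2 * m) + 1)) 1 at r3
    rw [stV_idx, upd_idx] at r3
    have r4 := NRuns.asg (κ := κ) (L := L) (cmp_pred κ (0 : Fin 1)) (fun _ => k + 3 + 2 * m)
      (k + 3 + 2 * m) (stV k m R (fv (i + 1)) (fv (i + 1)) (i + 1) (y - i)) (by
        show Nat.size (stV k m R (fv (i + 1)) (fv (i + 1)) (i + 1) (y - i) (k + 3 + 2 * m) - 1) ≤ L
        rw [stV_cnt]
        have := hsy (y - i - 1) (by omega)
        omega)
    change NRuns L decC _ (update _ _ (stV k m R (fv (i + 1)) (fv (i + 1)) (i + 1) (y - i)
      (k + 3 + 2 * m) - 1)) 1 at r4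
    rw [stV_cnt, upd_cnt, show y - i - 1 = y - (i + 1) by omega] at r4
    exact (r1.seq (r2.seq (r3.seq r4))).monoT (by omega)
  -- the loop
  have s3 := NRuns.loopN (κ := κ) (L := L) (i := k + 3 + 2 * m) (P := body)
    (fun i => stV k m R (fv i) (if i = 0 then fun _ => 0 else fv i) i (y - i)) y (4 * m + 8)
    (by
      show stV k m R (fv y) (if y = 0 then fun _ => 0 else fv y) y (y - y) (k + 3 + 2 * m) = 0
      rw [stV_cnt]
      omega)
    (fun i hi => by
      show stV k m R (fv i) (if i = 0 then fun _ => 0 else fv i) i (y - i) (k + 3 + 2 * m) ≠ 0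
      rw [stV_cnt]
      omega)
    (fun i hi => by
      have h := hround i hi (if i = 0 then fun _ => 0 else fv i)
      have h2 : (if i + 1 = 0 then fun _ => 0 else fv (i + 1)) = fv (i + 1) := if_neg (by omega)
      rw [h2]
      exact h)
  simp only [if_true, Nat.sub_zero] at s3
  -- the result
  set R3 : ℕ → ℕ := stV k m R (fv y) (if y = 0 then fun _ => 0 else fv y) y (y - y) with hR3
  have s4 := runs_ncopy (κ := κ) (L := L) (i := k + 2 + j0) (j := k + 1) (R := R3) (by
    rw [hR3, stV_cur hj0]
    have := hfvL y j0 le_rfl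
    omega)
  have s5 := s1.seq (s2.seq (s3.seq s4))
  refine ⟨s5.bd.mono ?_, ⟨_, s5.ex⟩, fun R' hr => ?_⟩
  · have e2 : y < 2 ^ (sz b) :=
      (Nat.lt_size_self _).trans_le (Nat.pow_le_pow_right (by norm_num) (by omega))
    have e3 : y + 1 ≤ 2 ^ (sz b + 1) := by rw [pow_succ]; omega
    have e4 : (4 * m + 16) < 2 ^ (2 * m + 6) := by
      have h1 : m < 2 ^ m := Nat.lt_two_pow_self
      have h2 : 2 ^ (2 * m + 6) = 2 ^ m * 2 ^ m * 64 := by
        rw [show 2 * m + 6 = m + m + 6 by ring, pow_add, pow_add]; norm_num
      rw [h2]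
      nlinarith
    have e5 : 2 ^ (sz b + 1) * 2 ^ (2 * m + 6) ≤ 2 ^ L := by
      rw [← pow_add]
      refine Nat.pow_le_pow_right (by norm_num) ?_
      have : 2 * m ≤ 2 * m * (sz b + 1) := Nat.le_mul_of_pos_right _ (by omega)
      omega
    have e6 : y * (4 * m + 8 + 1) + (4 * m + 16) ≤ (y + 1) * (4 * m + 16) := by nlinarith
    have e7 : (y + 1) * (4 * m + 16) ≤ 2 ^ (sz b + 1) * 2 ^ (2 * m + 6) :=
      Nat.mul_le_mul e3 e4.le
    omega
  · rw [s5.un _ hr, update_self, hR3, stV_cur hj0, hfv]
    simp only
    rw [dif_pos hj0]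

end LSP
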