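import Pool.Agent.H69P.NProg

/-!
# Compilation of programs with number variables
-/

set_option autoImplicit false

namespace LSP

open H85L Function

variable {κ : Kind}

/-- the program `p` implements the program `P` with `M` variables -/
structure Impl (M : ℕ) {Δ : Type} (P : NProg κ) (p : Prog Δ) : Prop where
  det : κ.det = true → P.Det → p.Det
  snd : ∀ (v : View Δ) (R : ℕ → ℕ) (s' : Mem) (t : ℕ), Res v p (memN M R) s' t →
    ∃ R', s' = memN M R' ∧ NRes P R R'
  cpl : ∀ (v : View Δ) (R R' : ℕ → ℕ), NRes P R R' → ∃ t, Res v p (memN M R) (memN M R') t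
  bd : ∃ c : ℕ, ∀ (v : View Δ) (L : ℕ) (R : ℕ → ℕ) (τ : ℕ), (∀ i < M, Nat.size (R i) ≤ L) →
    NBd L P R τ → Bd v (hb κ c L) p (memN M R) (τ * 2 ^ (c * (L + 1)))

theorem NBd.pos_asg {L k : ℕ} {F : (Fin k → ℕ) → ℕ} {hF : Cmp κ F} {arg : Fin k → ℕ} {dst : ℕ}
    {R : ℕ → ℕ} {τ : ℕ} {P : NProg κ} (h : NBd L P R τ) (hP : P = .asg k F hF arg dst) :
    1 ≤ τ ∧ Nat.size (F fun j => R (arg j)) ≤ L := by
  induction h with
  | asg hs => cases hP; exact ⟨le_rfl, hs⟩
  | mono hT _ ih => exact ⟨(ih hP).1.trans hT, (ih hP).2⟩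
  | gss _ => cases hP
  | seq _ _ => cases hP
  | ifz0 _ _ => cases hP
  | ifz1 _ _ => cases hP
  | loop0 _ => cases hP
  | loop1 _ _ _ => cases hP
  | fail => cases hP

theorem NBd.pos_gss {L dst : ℕ} {R : ℕ → ℕ} {τ : ℕ} {P : NProg κ} (h : NBd L P R τ)
    (hP : P = .gss dst) : 1 ≤ τ ∧ 1 ≤ L := by
  induction h with
  | gss hs => cases hP; exact ⟨le_rfl, hs⟩
  | mono hT _ ih => exact ⟨(ih hP).1.trans hT, (ih hP).2⟩
  | asg _ => cases hP
  | seq _ _ => cases hP
  | ifz0 _ _ => cases hP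
  | ifz1 _ _ => cases hP
  | loop0 _ => cases hP
  | loop1 _ _ _ => cases hP
  | fail => cases hP

theorem NBd.inv_seq {L : ℕ} {R : ℕ → ℕ} {τ : ℕ} {P p q : NProg κ} (h : NBd L P R τ)
    (hP : P = .seq p q) : ∃ T1 T2, T1 + T2 + 1 ≤ τ ∧ NBd L p R T1 ∧
      ∀ R1, NRes p R R1 → NBd L q R1 T2 := by
  induction h with
  | seq h1 h2 => cases hP; exact ⟨_, _, le_rfl, h1, h2⟩
  | mono hT _ ih =>
    obtain ⟨T1, T2, h, h'⟩ := ih hP
    exact ⟨T1, T2, h.trans hT, h'⟩
  | asg _ => cases hP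
  | gss _ => cases hP
  | ifz0 _ _ => cases hP
  | ifz1 _ _ => cases hP
  | loop0 _ => cases hP
  | loop1 _ _ _ => cases hP
  | fail => cases hP

theorem NBd.inv_ifz {L i : ℕ} {R : ℕ → ℕ} {τ : ℕ} {P p q : NProg κ} (h : NBd L P R τ)
    (hP : P = .ifz i p q) : ∃ T, T + 1 ≤ τ ∧ (R i = 0 → NBd L p R T) ∧ (R i ≠ 0 → NBd L q R T) := by
  induction h with
  | ifz0 h1 h2 => cases hP; exact ⟨_, le_rfl, fun _ => h2, fun h => absurd h1 h⟩
  | ifz1 h1 h2 => cases hP; exact ⟨_, le_rfl, fun h => absurd h h1, fun _ => h2⟩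
  | mono hT _ ih =>
    obtain ⟨T, h, h'⟩ := ih hP
    exact ⟨T, h.trans hT, h'⟩
  | asg _ => cases hP
  | gss _ => cases hP
  | seq _ _ => cases hP
  | loop0 _ => cases hP
  | loop1 _ _ _ => cases hP
  | fail => cases hP

section
variable {Δ : Type} {M : ℕ}

theorem impl_fail : Impl (κ := κ) M (.fail) (.fail : Prog Δ) where
  det := fun _ _ => trivial
  snd := fun v R s' t h => by cases h
  cpl := fun v R R' h => by cases h
  bd := ⟨0, fun v L R τ _ _ => .mono (Nat.zero_le _) .fail⟩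

theorem impl_asg (k : ℕ) (F : (Fin k → ℕ) → ℕ) (hF : Cmp κ F) (arg : Fin k → ℕ) (dst : ℕ)
    (harg : ∀ j, arg j < M) (hdst : dst < M) :
    ∃ p : Prog Δ, Impl M (.asg k F hF arg dst) p := by
  obtain ⟨p, hdet, c, hp⟩ := hF.unif Δ
  set C := 6 * (k * k) + 6 * k + 8 * c + 2 + 16 with hC
  have key : ∀ (v : View Δ) (L : ℕ) (R : ℕ → ℕ), (∀ i < M, Nat.size (R i) ≤ L) →
      Runs v (hb κ (c + C + 1) L) (asgP M p k arg dst) (memN M R)
        (memN M (update R dst (F fun j => R (arg j)))) (2 ^ ((c + C + 1) * (L + 1))) := by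
    intro v L R hR
    obtain ⟨h1, h2⟩ := hp (fun _ => v (memN M R 0)) L (fun j => R (arg j)) fun j => hR _ (harg j)
    have hle := le_hb κ (c + C + 1) L
    have e0 : (c + C + 1) * (L + 1) = c * (L + 1) + C * (L + 1) + (L + 1) := by ring
    have e1 : C * (L + 1) = 6 * (k * k) * (L + 1) + 6 * k * (L + 1) + 8 * (c * (L + 1)) +
        18 * (L + 1) := by rw [hC]; ring
    have e2 : k * L ≤ 6 * k * (L + 1) := by nlinarith
    have e3 : k * (6 * (k * L) + 6) ≤ 6 * (k * k) * (L + 1) + 6 * k * (L + 1) := by nlinarith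
    have h3 := runs_asg (v := v) (B := hb κ (c + C + 1) L) (M := M) (p := p) (k := k) (arg := arg)
      (dst := dst) (R := R) (r := F fun j => R (arg j)) (T := 2 ^ (c * (L + 1))) (L := L) hR
      (by omega) harg hdst (by omega) (by omega) (h1.monoB (hb_mono κ (by omega)))
    refine h3.monoT ?_
    have e4 : C * (L + 1) < 2 ^ (C * (L + 1)) := Nat.lt_two_pow_self
    have e5 : 2 ^ (c * (L + 1)) ≤ 2 ^ (c * (L + 1) + C * (L + 1)) :=
      Nat.pow_le_pow_right (by norm_num) (by omega)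
    have e6 : 2 ^ (C * (L + 1)) ≤ 2 ^ (c * (L + 1) + C * (L + 1)) :=
      Nat.pow_le_pow_right (by norm_num) (by omega)
    have e7 : 2 ^ (c * (L + 1) + C * (L + 1) + 1) ≤ 2 ^ ((c + C + 1) * (L + 1)) :=
      Nat.pow_le_pow_right (by norm_num) (by omega)
    rw [pow_succ] at e7
    omega
  refine ⟨asgP M p k arg dst, fun hκ _ => ⟨callP_det (hdet hκ) _ _ _ _, clr_det _, mov_det _ _ _⟩,
    ?_, ?_, c + C + 1, ?_⟩
  · intro v R s' t hr
    have h := key v (∑ i ∈ Finset.range M, Nat.size (R i)) R fun i hi =>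
      Finset.single_le_sum (f := fun i => Nat.size (R i)) (fun _ _ => Nat.zero_le _)
        (Finset.mem_range.2 hi)
    exact ⟨_, h.un _ _ hr, .asg k F hF arg dst R⟩
  · intro v R R' hr
    cases hr
    exact (key v (∑ i ∈ Finset.range M, Nat.size (R i)) R fun i hi =>
      Finset.single_le_sum (f := fun i => Nat.size (R i)) (fun _ _ => Nat.zero_le _)
        (Finset.mem_range.2 hi)).ex
  · intro v L R τ hR hτ
    have h1 := (hτ.pos_asg rfl).1
    exact .mono (Nat.le_mul_of_pos_left _ h1) (key v L R hR).bd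

theorem impl_gss (dst : ℕ) (hdst : dst < M) :
    Impl (κ := κ) M (.gss dst) (gssP dst : Prog Δ) := by
  have hclr : ∀ (v : View Δ) (B : ℕ) (R : ℕ → ℕ), (∀ i, (memN M R i).length ≤ B) →
      Runs v B (clr (dst + 1)) (memN M R) (memN M (update R dst 0))
        (2 * Nat.size (R dst) + 1) := by
    intro v B R hB
    have h := runs_clr (v := v) (B := B) (s := memN M R) (dst + 1) hB
    rw [memN_var hdst, bits_length] at h
    have h1 : update (memN M R) (dst + 1) [] = memN M (update R dst 0) := memN_upd hdst 0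
    rw [h1] at h
    exact h
  refine ⟨fun _ h => h.elim, ?_, ?_, 3, ?_⟩
  · intro v R s' t hr
    unfold gssP at hr
    cases hr with
    | seq a b =>
      have h1 := (hclr v (∑ i ∈ Finset.range M, Nat.size (R i)) R fun i => memN_len (fun i hi =>
        Finset.single_le_sum (f := fun i => Nat.size (R i)) (fun _ _ => Nat.zero_le _)
          (Finset.mem_range.2 hi)) i).un _ _ a
      subst h1
      cases b with
      | move _ _ _ b =>
        rw [gss_move hdst b]
        exact ⟨_, rfl, .gss dst b R⟩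
  · intro v R R' hr
    cases hr with
    | gss _ b _ =>
      obtain ⟨t, ht⟩ := (hclr v (∑ i ∈ Finset.range M, Nat.size (R i)) R fun i =>
        memN_len (fun i hi =>
          Finset.single_le_sum (f := fun i => Nat.size (R i)) (fun _ _ => Nat.zero_le _)
            (Finset.mem_range.2 hi)) i).ex
      refine ⟨t + 1 + 1, ?_⟩
      have h2 := Res.move (v := v) (dst + 2) (fun _ _ b i =>
        if (i : ℕ) = dst + 1 ∧ b = true then Op.push true else .stay) (memN M (update R dst 0)) b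
      rw [gss_move hdst b] at h2
      exact .seq ht h2
  · intro v L R τ hR hτ
    obtain ⟨h1, h2⟩ := hτ.pos_gss rfl
    have hle := le_hb κ 3 L
    have h3 := hclr v (hb κ 3 L) R fun i => (memN_len hR i).trans (by omega)
    refine .mono ?_ (.seq h3.bd (T2 := 1) fun s1 t hr => ?_)
    · have e1 := hR dst hdst
      have e2 : 3 * (L + 1) < 2 ^ (3 * (L + 1)) := Nat.lt_two_pow_self
      have e3 : 1 * 2 ^ (3 * (L + 1)) ≤ τ * 2 ^ (3 * (L + 1)) := Nat.mul_le_mul_right _ h1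
      omega
    · rw [h3.un _ _ hr]
      refine .move fun b i => ?_
      rw [gss_move hdst b]
      refine (memN_len (L := L) (fun j hj => ?_) i).trans (by omega)
      by_cases h : j = dst
      · subst h
        rw [update_self]
        refine le_trans ?_ h2
        cases b <;> simp
      · rw [update_of_ne h]; exact hR j hj

theorem Impl.seq {P Q : NProg κ} {p q : Prog Δ} (hp : Impl M P p) (hq : Impl M Q q) :
    Impl M (.seq P Q) (.seq p q) := by
  obtain ⟨c1, h1⟩ := hp.bd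
  obtain ⟨c2, h2⟩ := hq.bd
  refine ⟨fun hκ h => ⟨hp.det hκ h.1, hq.det hκ h.2⟩, ?_, ?_, c1 + c2, ?_⟩
  · intro v R s' t hr
    cases hr with
    | seq a b =>
      obtain ⟨R1, rfl, r1⟩ := hp.snd _ _ _ _ a
      obtain ⟨R2, rfl, r2⟩ := hq.snd _ _ _ _ b
      exact ⟨R2, rfl, .seq r1 r2⟩
  · intro v R R' hr
    cases hr with
    | seq a b =>
      obtain ⟨t1, e1⟩ := hp.cpl v _ _ a
      obtain ⟨t2, e2⟩ := hq.cpl v _ _ b
      exact ⟨_, .seq e1 e2⟩
  · intro v L R τ hR hτ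
    obtain ⟨T1, T2, hT, b1, b2⟩ := hτ.inv_seq rfl
    have m1 : hb κ c1 L ≤ hb κ (c1 + c2) L := hb_mono κ (by omega)
    have m2 : hb κ c2 L ≤ hb κ (c1 + c2) L := hb_mono κ (by omega)
    refine .mono ?_ (.seq (T2 := T2 * 2 ^ ((c1 + c2) * (L + 1)))
      ((h1 v L R T1 hR b1).mono_B m1) fun s1 t hr => ?_)
    · have e1 : T1 * 2 ^ (c1 * (L + 1)) ≤ T1 * 2 ^ ((c1 + c2) * (L + 1)) :=
        Nat.mul_le_mul_left _ (Nat.pow_le_pow_right (by norm_num)
          (Nat.mul_le_mul_right _ (by omega)))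
      have e2 : (T1 + T2 + 1) * 2 ^ ((c1 + c2) * (L + 1)) ≤ τ * 2 ^ ((c1 + c2) * (L + 1)) :=
        Nat.mul_le_mul_right _ hT
      have e3 : 1 ≤ 2 ^ ((c1 + c2) * (L + 1)) := Nat.one_le_two_pow
      have e4 : (T1 + T2 + 1) * 2 ^ ((c1 + c2) * (L + 1)) = T1 * 2 ^ ((c1 + c2) * (L + 1)) +
        T2 * 2 ^ ((c1 + c2) * (L + 1)) + 2 ^ ((c1 + c2) * (L + 1)) := by ring
      omega
    · obtain ⟨R1, rfl, r1⟩ := hp.snd _ _ _ _ hr
      refine .mono ?_ ((h2 v L R1 T2 (b1.sizes R1 r1 hR) (b2 R1 r1)).mono_B m2)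
      exact Nat.mul_le_mul_left _ (Nat.pow_le_pow_right (by norm_num)
        (Nat.mul_le_mul_right _ (by omega)))

theorem head_var {R : ℕ → ℕ} {i : ℕ} (hi : i < M) :
    memN M R (i + 1) = [] ↔ R i = 0 := by
  rw [memN_var hi, bits_eq_nil]

theorem Impl.ifz {P Q : NProg κ} {p q : Prog Δ} {i : ℕ} (hi : i < M) (hp : Impl M P p)
    (hq : Impl M Q q) : Impl M (.ifz i P Q) (.ift (i + 1) p q q) := by
  obtain ⟨c1, h1⟩ := hp.bd
  obtain ⟨c2, h2⟩ := hq.bd
  refine ⟨fun hκ h => ⟨hp.det hκ h.1, hq.det hκ h.2, hq.det hκ h.2⟩, ?_, ?_, c1 + c2, ?_⟩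
  · intro v R s' t hr
    cases hr with
    | ift0 hh a =>
      obtain ⟨R1, rfl, r1⟩ := hp.snd _ _ _ _ a
      exact ⟨R1, rfl, .ifz0 ((head_var hi).1 (by simpa using hh)) r1⟩
    | ift1 hh a =>
      obtain ⟨R1, rfl, r1⟩ := hq.snd _ _ _ _ a
      refine ⟨R1, rfl, .ifz1 (fun h0 => ?_) r1⟩
      rw [(head_var hi).2 h0] at hh
      simp at hh
    | ift2 hh a =>
      obtain ⟨R1, rfl, r1⟩ := hq.snd _ _ _ _ a
      refine ⟨R1, rfl, .ifz1 (fun h0 => ?_) r1⟩
      rw [(head_var hi).2 h0] at hh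
      simp at hh
  · intro v R R' hr
    cases hr with
    | ifz0 hh a =>
      obtain ⟨t, e⟩ := hp.cpl v _ _ a
      exact ⟨_, .ift0 (by rw [(head_var hi).2 hh]; rfl) e⟩
    | ifz1 hh a =>
      obtain ⟨t, e⟩ := hq.cpl v _ _ a
      cases hm : memN M R (i + 1) with
      | nil => exact absurd ((head_var hi).1 hm) hh
      | cons x l =>
        cases x with
        | false => exact ⟨_, .ift1 (by rw [hm]; rfl) e⟩
        | true => exact ⟨_, .ift2 (by rw [hm]; rfl) e⟩
  · intro v L R τ hR hτ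
    obtain ⟨T, hT, b1, b2⟩ := hτ.inv_ifz rfl
    have m1 : hb κ c1 L ≤ hb κ (c1 + c2) L := hb_mono κ (by omega)
    have m2 : hb κ c2 L ≤ hb κ (c1 + c2) L := hb_mono κ (by omega)
    have e1 : T * 2 ^ (c1 * (L + 1)) ≤ T * 2 ^ ((c1 + c2) * (L + 1)) :=
      Nat.mul_le_mul_left _ (Nat.pow_le_pow_right (by norm_num)
        (Nat.mul_le_mul_right _ (by omega)))
    have e1' : T * 2 ^ (c2 * (L + 1)) ≤ T * 2 ^ ((c1 + c2) * (L + 1)) :=
      Nat.mul_le_mul_left _ (Nat.pow_le_pow_right (by norm_num)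
        (Nat.mul_le_mul_right _ (by omega)))
    have e2 : (T + 1) * 2 ^ ((c1 + c2) * (L + 1)) ≤ τ * 2 ^ ((c1 + c2) * (L + 1)) :=
      Nat.mul_le_mul_right _ hT
    have e3 : 1 ≤ 2 ^ ((c1 + c2) * (L + 1)) := Nat.one_le_two_pow
    have e4 : (T + 1) * 2 ^ ((c1 + c2) * (L + 1)) = T * 2 ^ ((c1 + c2) * (L + 1)) +
      2 ^ ((c1 + c2) * (L + 1)) := by ring
    by_cases h0 : R i = 0
    · exact .mono (by omega) (.ift0 (by rw [(head_var hi).2 h0]; rfl)
        ((h1 v L R T hR (b1 h0)).mono_B m1))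
    · have hB := (h2 v L R T hR (b2 h0)).mono_B m2
      cases hm : memN M R (i + 1) with
      | nil => exact absurd ((head_var hi).1 hm) h0
      | cons x l =>
        cases x with
        | false => exact .mono (by omega) (.ift1 (by rw [hm]; rfl) hB)
        | true => exact .mono (by omega) (.ift2 (by rw [hm]; rfl) hB)

theorem Impl.loop {P : NProg κ} {p : Prog Δ} {i : ℕ} (hi : i < M) (hp : Impl M P p) :
    Impl M (.loop i P) (.loop (i + 1) p) := by
  obtain ⟨c, h1⟩ := hp.bd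
  refine ⟨fun hκ h => hp.det hκ h, ?_, ?_, c, ?_⟩
  · have key : ∀ (v : View Δ) (q : Prog Δ) (s s' : Mem) (t : ℕ), Res v q s s' t →
        ∀ R, q = .loop (i + 1) p → s = memN M R → ∃ R', s' = memN M R' ∧ NRes (.loop i P) R R' := by
      intro v q s s' t hr
      induction hr with
      | loop0 hh =>
        intro R hq hs
        cases hq
        subst hs
        exact ⟨R, rfl, .loop0 ((head_var hi).1 hh)⟩
      | loop1 hh a _ _ ih2 =>
        intro R hq hs
        cases hq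
        subst hs
        obtain ⟨R1, e1, r1⟩ := hp.snd _ _ _ _ a
        obtain ⟨R2, e2, r2⟩ := ih2 R1 rfl e1
        exact ⟨R2, e2, .loop1 (fun h0 => hh ((head_var hi).2 h0)) r1 r2⟩
      | move _ _ _ _ => intro R hq; cases hq
      | seq _ _ => intro R hq; cases hq
      | ift0 _ _ => intro R hq; cases hq
      | ift1 _ _ => intro R hq; cases hq
      | ift2 _ _ => intro R hq; cases hq
    intro v R s' t hr
    exact key v _ _ _ _ hr R rfl rfl
  · have key : ∀ (v : View Δ) (Q : NProg κ) (R R' : ℕ → ℕ), NRes Q R R' → Q = .loop i P →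
        ∃ t, Res v (.loop (i + 1) p) (memN M R) (memN M R') t := by
      intro v Q R R' hr
      induction hr with
      | loop0 hh =>
        intro hQ
        cases hQ
        exact ⟨_, .loop0 ((head_var hi).2 hh)⟩
      | loop1 hh a _ _ ih2 =>
        intro hQ
        cases hQ
        obtain ⟨t1, e1⟩ := hp.cpl v _ _ a
        obtain ⟨t2, e2⟩ := ih2 rfl
        exact ⟨_, .loop1 (fun h0 => hh ((head_var hi).1 h0)) e1 e2⟩
      | asg _ _ _ _ _ _ => intro hQ; cases hQ
      | gss _ _ _ => intro hQ; cases hQ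
      | seq _ _ _ _ => intro hQ; cases hQ
      | ifz0 _ _ => intro hQ; cases hQ
      | ifz1 _ _ => intro hQ; cases hQ
    intro v R R' hr
    exact key v _ _ _ hr rfl
  · have key : ∀ (v : View Δ) (L : ℕ) (Q : NProg κ) (R : ℕ → ℕ) (τ : ℕ), NBd L Q R τ →
        Q = .loop i P → (∀ i < M, Nat.size (R i) ≤ L) →
        Bd v (hb κ c L) (.loop (i + 1) p) (memN M R) (τ * 2 ^ (c * (L + 1))) := by
      intro v L Q R τ hτ
      induction hτ with
      | loop0 hh =>
        intro hQ hR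
        cases hQ
        refine .mono ?_ (.loop0 ((head_var hi).2 hh))
        have e3 : 1 ≤ 2 ^ (c * (L + 1)) := Nat.one_le_two_pow
        omega
      | @loop1 i' P' R T1 T2 hh b1 _ _ ih2 =>
        intro hQ hR
        cases hQ
        refine .mono ?_ (.loop1 (T2 := T2 * 2 ^ (c * (L + 1)))
          (fun h0 => hh ((head_var hi).1 h0)) (h1 v L R T1 hR b1) fun s1 t hr => ?_)
        · have e3 : 1 ≤ 2 ^ (c * (L + 1)) := Nat.one_le_two_pow
          have e4 : (T1 + T2 + 1) * 2 ^ (c * (L + 1)) = T1 * 2 ^ (c * (L + 1)) +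
            T2 * 2 ^ (c * (L + 1)) + 2 ^ (c * (L + 1)) := by ring
          omega
        · obtain ⟨R1, rfl, r1⟩ := hp.snd _ _ _ _ hr
          exact ih2 R1 r1 rfl (b1.sizes R1 r1 hR)
      | mono hT _ ih =>
        intro hQ hR
        exact .mono (Nat.mul_le_mul_right _ hT) (ih hQ hR)
      | asg _ => intro hQ; cases hQ
      | gss _ => intro hQ; cases hQ
      | seq _ _ => intro hQ; cases hQ
      | ifz0 _ _ => intro hQ; cases hQ
      | ifz1 _ _ => intro hQ; cases hQ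
      | fail => intro hQ; cases hQ
    intro v L R τ hR hτ
    exact key v L _ R τ hτ rfl hR

/-- every program with `M` number variables is implemented by a program -/
theorem NProg.compile (P : NProg κ) (hP : P.Uses M) : ∃ p : Prog Δ, Impl M P p := by
  induction P with
  | asg k F hF arg dst => exact impl_asg k F hF arg dst hP.1 hP.2
  | gss dst => exact ⟨_, impl_gss dst hP⟩
  | seq P Q ihP ihQ =>
    obtain ⟨p, hp⟩ := ihP hP.1
    obtain ⟨q, hq⟩ := ihQ hP.2
    exact ⟨_, hp.seq hq⟩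
  | ifz i P Q ihP ihQ =>
    obtain ⟨p, hp⟩ := ihP hP.2.1
    obtain ⟨q, hq⟩ := ihQ hP.2.2
    exact ⟨_, hp.ifz hP.1 hq⟩
  | loop i P ih =>
    obtain ⟨p, hp⟩ := ih hP.2
    exact ⟨_, hp.loop hP.1⟩
  | fail => exact ⟨_, impl_fail⟩

end

end LSP
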