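import Pool.Agent.H69P.Call

/-!
# Programs with number variables

`NProg κ`: a programming language with variables for natural numbers, whose assignments use functions
computed by programs of the kind `κ`. `NRes P R R'`: the program `P` may transform the values `R` of the
variables to `R'`. `NBd L P R τ`: every computation of `P` from `R` has at most `τ` steps, and all values
have size at most `L`.
-/

set_option autoImplicit false

namespace LSP

open H85L Function

/-- Programs with number variables. `asg k F hF arg dst`: put `F` of the variables `arg 0, ...,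
arg (k - 1)` into the variable `dst`; `gss dst`: guess `0` or `1`; `ifz i p q`: do `p` if the variable
`i` is `0`, `q` otherwise; `loop i p`: do `p` as long as the variable `i` is not `0`; `fail`: reject. -/
inductive NProg (κ : Kind) : Type
  | asg (k : ℕ) (F : (Fin k → ℕ) → ℕ) (hF : Cmp κ F) (arg : Fin k → ℕ) (dst : ℕ)
  | gss (dst : ℕ)
  | seq (p q : NProg κ)
  | ifz (i : ℕ) (p q : NProg κ)
  | loop (i : ℕ) (p : NProg κ)
  | fail

variable {κ : Kind}

/-- only the variables `0, ..., M - 1` are used -/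
def NProg.Uses (M : ℕ) : NProg κ → Prop
  | .asg _ _ _ arg dst => (∀ j, arg j < M) ∧ dst < M
  | .gss dst => dst < M
  | .seq p q => p.Uses M ∧ q.Uses M
  | .ifz i p q => i < M ∧ p.Uses M ∧ q.Uses M
  | .loop i p => i < M ∧ p.Uses M
  | .fail => True

/-- no guesses -/
def NProg.Det : NProg κ → Prop
  | .asg _ _ _ _ _ => True
  | .gss _ => False
  | .seq p q => p.Det ∧ q.Det
  | .ifz _ p q => p.Det ∧ q.Det
  | .loop _ p => p.Det
  | .fail => True

/-- possible results -/
inductive NRes : NProg κ → (ℕ → ℕ) → (ℕ → ℕ) → Prop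
  | asg (k : ℕ) (F : (Fin k → ℕ) → ℕ) (hF : Cmp κ F) (arg : Fin k → ℕ) (dst : ℕ) (R : ℕ → ℕ) :
      NRes (.asg k F hF arg dst) R (update R dst (F fun j => R (arg j)))
  | gss (dst : ℕ) (b : Bool) (R : ℕ → ℕ) : NRes (.gss dst) R (update R dst b.toNat)
  | seq {p q : NProg κ} {R R1 R2 : ℕ → ℕ} : NRes p R R1 → NRes q R1 R2 → NRes (.seq p q) R R2
  | ifz0 {i : ℕ} {p q : NProg κ} {R R' : ℕ → ℕ} : R i = 0 → NRes p R R' → NRes (.ifz i p q) R R'
  | ifz1 {i : ℕ} {p q : NProg κ} {R R' : ℕ → ℕ} : R i ≠ 0 → NRes q R R' → NRes (.ifz i p q) R R'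
  | loop0 {i : ℕ} {p : NProg κ} {R : ℕ → ℕ} : R i = 0 → NRes (.loop i p) R R
  | loop1 {i : ℕ} {p : NProg κ} {R R1 R2 : ℕ → ℕ} : R i ≠ 0 → NRes p R R1 →
      NRes (.loop i p) R1 R2 → NRes (.loop i p) R R2

/-- bounds -/
inductive NBd (L : ℕ) : NProg κ → (ℕ → ℕ) → ℕ → Prop
  | asg {k : ℕ} {F : (Fin k → ℕ) → ℕ} {hF : Cmp κ F} {arg : Fin k → ℕ} {dst : ℕ} {R : ℕ → ℕ} :
      Nat.size (F fun j => R (arg j)) ≤ L → NBd L (.asg k F hF arg dst) R 1
  | gss {dst : ℕ} {R : ℕ → ℕ} : 1 ≤ L → NBd L (.gss dst) R 1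
  | seq {p q : NProg κ} {R : ℕ → ℕ} {T1 T2 : ℕ} : NBd L p R T1 →
      (∀ R1, NRes p R R1 → NBd L q R1 T2) → NBd L (.seq p q) R (T1 + T2 + 1)
  | ifz0 {i : ℕ} {p q : NProg κ} {R : ℕ → ℕ} {T : ℕ} : R i = 0 → NBd L p R T →
      NBd L (.ifz i p q) R (T + 1)
  | ifz1 {i : ℕ} {p q : NProg κ} {R : ℕ → ℕ} {T : ℕ} : R i ≠ 0 → NBd L q R T →
      NBd L (.ifz i p q) R (T + 1)
  | loop0 {i : ℕ} {p : NProg κ} {R : ℕ → ℕ} : R i = 0 → NBd L (.loop i p) R 1
  | loop1 {i : ℕ} {p : NProg κ} {R : ℕ → ℕ} {T1 T2 : ℕ} : R i ≠ 0 → NBd L p R T1 →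
      (∀ R1, NRes p R R1 → NBd L (.loop i p) R1 T2) → NBd L (.loop i p) R (T1 + T2 + 1)
  | fail {R : ℕ → ℕ} : NBd L .fail R 0
  | mono {p : NProg κ} {R : ℕ → ℕ} {T T' : ℕ} : T ≤ T' → NBd L p R T → NBd L p R T'

theorem NBd.sizes {L M : ℕ} {P : NProg κ} {R : ℕ → ℕ} {τ : ℕ} (h : NBd L P R τ) :
    ∀ R', NRes P R R' → (∀ i < M, Nat.size (R i) ≤ L) → ∀ i < M, Nat.size (R' i) ≤ L := by
  induction h with
  | @asg k F hF arg dst R hs =>
    intro R' hr hR i hi
    cases hr
    by_cases h : i = dst
    · subst h; rw [update_self]; exact hs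
    · rw [update_of_ne h]; exact hR i hi
  | @gss dst R hs =>
    intro R' hr hR i hi
    cases hr with
    | gss _ b _ =>
      by_cases h : i = dst
      · subst h
        rw [update_self]
        refine le_trans ?_ hs
        cases b <;> simp
      · rw [update_of_ne h]; exact hR i hi
  | seq _ _ ih1 ih2 =>
    intro R' hr hR
    cases hr with
    | seq a b => exact ih2 _ a _ b (ih1 _ a hR)
  | ifz0 hh _ ih =>
    intro R' hr hR
    cases hr with
    | ifz0 _ a => exact ih _ a hR
    | ifz1 b _ => exact absurd hh b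
  | ifz1 hh _ ih =>
    intro R' hr hR
    cases hr with
    | ifz1 _ a => exact ih _ a hR
    | ifz0 b _ => exact absurd b hh
  | loop0 hh =>
    intro R' hr hR
    cases hr with
    | loop0 _ => exact hR
    | loop1 b _ _ => exact absurd hh b
  | loop1 hh _ _ ih1 ih2 =>
    intro R' hr hR
    cases hr with
    | loop0 b => exact absurd b hh
    | loop1 _ a b => exact ih2 _ a _ b (ih1 _ a hR)
  | fail => intro R' hr; cases hr
  | mono _ _ ih => exact ih

/-- the variables `0, ..., M - 1` on the stacks `1, ..., M` -/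
def memN (M : ℕ) (R : ℕ → ℕ) : Mem := fun i => if 1 ≤ i ∧ i ≤ M then Nat.bits (R (i - 1)) else []

theorem memN_var {M : ℕ} {R : ℕ → ℕ} {i : ℕ} (hi : i < M) : memN M R (i + 1) = Nat.bits (R i) := by
  unfold memN
  rw [if_pos (by omega), Nat.add_sub_cancel]

theorem memN_hi {M : ℕ} {R : ℕ → ℕ} {i : ℕ} (hi : M < i) : memN M R i = [] := by
  unfold memN
  rw [if_neg (by omega)]

theorem memN_upd {M : ℕ} {R : ℕ → ℕ} {i : ℕ} (hi : i < M) (x : ℕ) :
    update (memN M R) (i + 1) (Nat.bits x) = memN M (update R i x) := by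
  funext j
  by_cases hj : j = i + 1
  · subst hj
    rw [update_self, memN_var hi, update_self]
  · rw [update_of_ne hj]
    unfold memN
    by_cases hc : 1 ≤ j ∧ j ≤ M
    · rw [if_pos hc, if_pos hc, update_of_ne (by omega)]
    · rw [if_neg hc, if_neg hc]

theorem memN_len {M L : ℕ} {R : ℕ → ℕ} (h : ∀ i < M, Nat.size (R i) ≤ L) (i : ℕ) :
    (memN M R i).length ≤ L := by
  unfold memN
  split_ifs with hi
  · rw [bits_length]
    exact h _ (by omega)
  · simp

/-- the assignment, as a program -/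
def asgP {Δ : Type} (M : ℕ) (p : Prog Δ) (k : ℕ) (arg : Fin k → ℕ) (dst : ℕ) : Prog Δ :=
  .seq (callP p k (M + 2) (fun j => arg j + 1) (M + 1))
    (.seq (clr (dst + 1)) (mov (M + 1) (dst + 1) (M + 2)))

theorem runs_asg {Δ : Type} {v : View Δ} {B M : ℕ} {p : Prog Δ} {k : ℕ} {arg : Fin k → ℕ}
    {dst : ℕ} {R : ℕ → ℕ} {r T L : ℕ} (hR : ∀ i < M, Nat.size (R i) ≤ L) (hL : L ≤ B)
    (harg : ∀ j, arg j < M) (hdst : dst < M) (hk : k * L ≤ B) (hr : Nat.size r ≤ B)
    (hp : Runs (fun _ => v (memN M R 0)) B p (regs (fun j => R (arg j)) 0)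
      (regs (fun j => R (arg j)) r) T) :
    Runs v B (asgP M p k arg dst) (memN M R) (memN M (update R dst r))
      (T + k * (6 * (k * L) + 6) + 2 * L + 8 * Nat.size r + 16) := by
  have hS : ∀ i, (memN M R i).length ≤ B := fun i => (memN_len hR i).trans hL
  have hsz : sz (fun j => R (arg j)) ≤ k * L := sz_le _ fun j => hR _ (harg j)
  have h1 := runs_call (v := v) (B := B) (p := p) (k := k) (N := M + 2) (arg := fun j => arg j + 1)
    (dst := M + 1) (a := fun j => R (arg j)) (r := r) (S := memN M R) (T := T) (by omega) hS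
    (fun i hi => memN_hi (by omega)) (fun j => ⟨by have := harg j; omega, memN_var (harg j)⟩)
    ⟨by omega, memN_hi (by omega)⟩ (hsz.trans hk) hr hp
  have hS1 : ∀ i, (update (memN M R) (M + 1) (Nat.bits r) i).length ≤ B :=
    upd_le hS (by rw [bits_length]; exact hr)
  have h2 := runs_clr (v := v) (B := B) (s := update (memN M R) (M + 1) (Nat.bits r)) (dst + 1) hS1
  have hS2 := upd_le (i := dst + 1) (l := []) hS1 (by simp)
  have h3 := runs_mov (v := v) (B := B)
    (s := update (update (memN M R) (M + 1) (Nat.bits r)) (dst + 1) []) (M + 1) (dst + 1) (M + 2)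
    (by omega) (by omega) (by omega) (by rw [update_self])
    (by rw [update_of_ne (by omega), update_of_ne (by omega), memN_hi (by omega)]) hS2
  rw [update_of_ne (show M + 1 ≠ dst + 1 by omega), update_self, bits_length] at h3
  rw [update_of_ne (show dst + 1 ≠ M + 1 by omega), memN_var hdst, bits_length] at h2
  have h4 : update (update (update (update (memN M R) (M + 1) (Nat.bits r)) (dst + 1) []) (M + 1)
      []) (dst + 1) (Nat.bits r) = memN M (update R dst r) := by
    rw [← memN_upd hdst r]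
    funext i
    by_cases hi : i = dst + 1
    · subst hi; rw [update_self, update_self]
    · rw [update_of_ne hi, update_of_ne hi]
      by_cases hi' : i = M + 1
      · subst hi'; rw [update_self, memN_hi (by omega)]
      · rw [update_of_ne hi', update_of_ne hi, update_of_ne hi']
  rw [h4] at h3
  refine (h1.seq (h2.seq h3)).monoT ?_
  have e1 : k * (6 * sz (fun j => R (arg j)) + 6) ≤ k * (6 * (k * L) + 6) :=
    Nat.mul_le_mul_left _ (by omega)
  have e2 := hR dst hdst
  omega

/-- the guess, as a program -/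
def gssP {Δ : Type} (dst : ℕ) : Prog Δ :=
  .seq (clr (dst + 1)) (.move (dst + 2) fun _ _ b i =>
    if (i : ℕ) = dst + 1 ∧ b = true then .push true else .stay)

theorem gss_move {Δ : Type} {v : View Δ} {M : ℕ} {R : ℕ → ℕ} {dst : ℕ} (hdst : dst < M) (b : Bool) :
    doMove (dst + 2) (fun _ _ b i => if (i : ℕ) = dst + 1 ∧ b = true then Op.push true else .stay)
      v b (memN M (update R dst 0)) = memN M (update R dst b.toNat) := by
  funext i
  unfold doMove
  by_cases hi : i = dst + 1
  · subst hi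
    rw [dif_pos (by omega), memN_var hdst, memN_var hdst, update_self, update_self]
    cases b with
    | false =>
      show (if dst + 1 = dst + 1 ∧ false = true then Op.push true else .stay).app _ = _
      rw [if_neg (by simp)]
      rfl
    | true =>
      show (if dst + 1 = dst + 1 ∧ true = true then Op.push true else .stay).app _ = _
      rw [if_pos ⟨rfl, rfl⟩]
      rfl
  · have h1 : memN M (update R dst 0) i = memN M (update R dst b.toNat) i := by
      unfold memN
      by_cases hc : 1 ≤ i ∧ i ≤ M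
      · rw [if_pos hc, if_pos hc, update_of_ne (by omega), update_of_ne (by omega)]
      · rw [if_neg hc, if_neg hc]
    split_ifs with h
    · show (if i = dst + 1 ∧ b = true then Op.push true else .stay).app _ = _
      rw [if_neg (by tauto)]
      exact h1
    · exact h1

end LSP
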