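import Pool.Agent.H69P.Runs

/-!
# Basic programs: push, pop, clear, copy, move
-/

set_option autoImplicit false

namespace LSP

open H85L Function

variable {Δ : Type} {v : View Δ} {B : ℕ}

/-- push the letter `b` on the stack `i` -/
def push (i : ℕ) (b : Bool) : Prog Δ :=
  .move (i + 1) fun _ _ _ j => if (j : ℕ) = i then .push b else .stay

/-- pop the stack `i` -/
def pop (i : ℕ) : Prog Δ := .move (i + 1) fun _ _ _ j => if (j : ℕ) = i then .pop else .stay

/-- move the top letter of the stack `i` to the stack `j` -/
def mvt (i j : ℕ) : Prog Δ := .move (i + j + 1) fun h _ _ k =>
  if (k : ℕ) = i then .pop else if (k : ℕ) = j then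
    (match h ⟨i, by omega⟩ with | some b => .push b | none => .stay) else .stay

/-- move the top letter of the stack `i` to the stacks `j` and `j'` -/
def mvt2 (i j j' : ℕ) : Prog Δ := .move (i + j + j' + 1) fun h _ _ k =>
  if (k : ℕ) = i then .pop else if (k : ℕ) = j ∨ (k : ℕ) = j' then
    (match h ⟨i, by omega⟩ with | some b => .push b | none => .stay) else .stay

theorem push_det (i : ℕ) (b : Bool) : (push i b : Prog Δ).Det := fun _ _ _ _ => rfl
theorem pop_det (i : ℕ) : (pop i : Prog Δ).Det := fun _ _ _ _ => rfl
theorem mvt_det (i j : ℕ) : (mvt i j : Prog Δ).Det := fun _ _ _ _ => rfl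
theorem mvt2_det (i j j' : ℕ) : (mvt2 i j j' : Prog Δ).Det := fun _ _ _ _ => rfl

theorem upd_le {s : Mem} {i : ℕ} {l : List Bool} (hs : ∀ j, (s j).length ≤ B)
    (hl : l.length ≤ B) : ∀ j, (update s i l j).length ≤ B := by
  intro j
  by_cases h : j = i
  · subst h; rw [update_self]; exact hl
  · rw [update_of_ne h]; exact hs j

theorem runs_push {s : Mem} (i : ℕ) (b : Bool) (hs : ∀ j, (s j).length ≤ B)
    (hi : (s i).length + 1 ≤ B) : Runs v B (push i b) s (update s i (b :: s i)) 1 := by
  refine Runs.move (fun _ => ?_) (upd_le hs (by simpa using hi))
  funext k
  unfold doMove
  by_cases hk : k = i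
  · subst hk
    rw [dif_pos (by omega), update_self]
    show (if k = k then Op.push b else .stay).app (s k) = _
    rw [if_pos rfl]
    rfl
  · rw [update_of_ne hk]
    split_ifs with h
    · show (if k = i then Op.push b else .stay).app (s k) = _
      rw [if_neg hk]
      rfl
    · rfl

theorem runs_pop {s : Mem} (i : ℕ) (hs : ∀ j, (s j).length ≤ B) :
    Runs v B (pop i) s (update s i (s i).tail) 1 := by
  refine Runs.move (fun _ => ?_) (upd_le hs ?_)
  · funext k
    unfold doMove
    by_cases hk : k = i
    · subst hk
      rw [dif_pos (by omega), update_self]
      show (if k = k then Op.pop else .stay).app (s k) = _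
      rw [if_pos rfl]
      rfl
    · rw [update_of_ne hk]
      split_ifs with h
      · show (if k = i then Op.pop else .stay).app (s k) = _
        rw [if_neg hk]
        rfl
      · rfl
  · have := hs i
    rw [List.length_tail]
    omega

theorem runs_mvt {s : Mem} (i j : ℕ) (hij : i ≠ j) {b : Bool} {l : List Bool}
    (hi : s i = b :: l) (hs : ∀ j, (s j).length ≤ B) (hj : (s j).length + 1 ≤ B) :
    Runs v B (mvt i j) s (update (update s i l) j (b :: s j)) 1 := by
  refine Runs.move (fun _ => ?_) (upd_le (upd_le hs ?_) (by simpa using hj))
  · funext k
    unfold doMove
    by_cases hkj : k = j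
    · subst hkj
      rw [dif_pos (by omega), update_self]
      show (if k = i then Op.pop else if k = k then (match (s i).head? with
        | some b => Op.push b | none => .stay) else .stay).app (s k) = _
      rw [if_neg (Ne.symm hij), if_pos rfl, hi]
      rfl
    · rw [update_of_ne hkj]
      by_cases hki : k = i
      · subst hki
        rw [dif_pos (by omega), update_self]
        show (if k = k then Op.pop else _).app (s k) = _
        rw [if_pos rfl, hi]
        rfl
      · rw [update_of_ne hki]
        split_ifs with h
        · show (if k = i then Op.pop else if k = j then _ else .stay).app (s k) = _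
          rw [if_neg hki, if_neg hkj]
          rfl
        · rfl
  · have := hs i
    rw [hi] at this
    simp only [List.length_cons] at this
    omega

theorem runs_mvt2 {s : Mem} (i j j' : ℕ) (hij : i ≠ j) (hij' : i ≠ j') (hjj : j ≠ j') {b : Bool}
    {l : List Bool} (hi : s i = b :: l) (hs : ∀ j, (s j).length ≤ B) (hj : (s j).length + 1 ≤ B)
    (hj' : (s j').length + 1 ≤ B) :
    Runs v B (mvt2 i j j') s (update (update (update s i l) j (b :: s j)) j' (b :: s j')) 1 := by
  refine Runs.move (fun _ => ?_) (upd_le (upd_le (upd_le hs ?_) (by simpa using hj))
    (by simpa using hj'))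
  · funext k
    unfold doMove
    by_cases hkj' : k = j'
    · subst hkj'
      rw [dif_pos (by omega), update_self]
      show (if k = i then Op.pop else if k = j ∨ k = k then (match (s i).head? with
        | some b => Op.push b | none => .stay) else .stay).app (s k) = _
      rw [if_neg (Ne.symm hij'), if_pos (Or.inr rfl), hi]
      rfl
    · rw [update_of_ne hkj']
      by_cases hkj : k = j
      · subst hkj
        rw [dif_pos (by omega), update_self]
        show (if k = i then Op.pop else if k = k ∨ k = j' then (match (s i).head? with
          | some b => Op.push b | none => .stay) else .stay).app (s k) = _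
        rw [if_neg (Ne.symm hij), if_pos (Or.inl rfl), hi]
        rfl
      · rw [update_of_ne hkj]
        by_cases hki : k = i
        · subst hki
          rw [dif_pos (by omega), update_self]
          show (if k = k then Op.pop else _).app (s k) = _
          rw [if_pos rfl, hi]
          rfl
        · rw [update_of_ne hki]
          split_ifs with h
          · show (if k = i then Op.pop else if k = j ∨ k = j' then _ else .stay).app (s k) = _
            rw [if_neg hki, if_neg (by tauto)]
            rfl
          · rfl
  · have := hs i
    rw [hi] at this
    simp only [List.length_cons] at this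
    omega

/-- clear the stack `i` -/
def clr (i : ℕ) : Prog Δ := .loop i (pop i)

theorem clr_det (i : ℕ) : (clr i : Prog Δ).Det := pop_det i

theorem runs_clr {s : Mem} (i : ℕ) (hs : ∀ j, (s j).length ≤ B) :
    Runs v B (clr i) s (update s i []) (2 * (s i).length + 1) := by
  have h := Runs.loopN (v := v) (B := B) (i := i) (p := pop i)
    (fun j => update s i ((s i).drop j)) (s i).length 1
    (by simp) (fun j hj => by simpa using hj)
    (fun j hj => by
      have h1 := runs_pop (v := v) (B := B) (s := update s i ((s i).drop j)) i
        (upd_le hs (by
          have := hs i
          rw [List.length_drop]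
          omega))
      rw [update_self, update_idem, List.tail_drop] at h1
      exact h1)
  have h0 : update s i ((s i).drop 0) = s := by simp
  have h1 : update s i ((s i).drop (s i).length) = update s i [] := by simp
  simp only [h0, h1] at h
  exact h.monoT (by omega)

/-- pour the stack `i` into the stack `j` (reversing the order) -/
def pour (i j : ℕ) : Prog Δ := .loop i (mvt i j)

theorem pour_det (i j : ℕ) : (pour i j : Prog Δ).Det := mvt_det i j

theorem runs_pour {s : Mem} (i j : ℕ) (hij : i ≠ j) (hs : ∀ j, (s j).length ≤ B)
    (hB : (s i).length + (s j).length ≤ B) :
    Runs v B (pour i j) s (update (update s i []) j ((s i).reverse ++ s j))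
      (2 * (s i).length + 1) := by
  have h := Runs.loopN (v := v) (B := B) (i := i) (p := mvt i j)
    (fun k => update (update s i ((s i).drop k)) j (((s i).take k).reverse ++ s j)) (s i).length 1
    (by rw [update_of_ne hij]; simp) (fun k hk => by
      rw [update_of_ne hij]
      simpa using hk)
    (fun k hk => by
      have h2 : (update (update s i ((s i).drop k)) j (((s i).take k).reverse ++ s j)) i =
          (s i)[k] :: (s i).drop (k + 1) := by
        rw [update_of_ne hij, update_self]
        exact List.drop_eq_getElem_cons hk
      have h1 := runs_mvt (v := v) (B := B) i j hij h2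
        (upd_le (upd_le hs (by have := hs i; rw [List.length_drop]; omega)) (by
          rw [List.length_append, List.length_reverse, List.length_take]
          omega))
        (by
          rw [update_self, List.length_append, List.length_reverse, List.length_take]
          omega)
      rw [update_self] at h1
      have h3 : update (update (update (update s i ((s i).drop k)) j
          (((s i).take k).reverse ++ s j)) i ((s i).drop (k + 1))) j
          ((s i)[k] :: (((s i).take k).reverse ++ s j)) =
          update (update s i ((s i).drop (k + 1))) j (((s i).take (k + 1)).reverse ++ s j) := by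
        rw [List.take_succ_eq_append_getElem hk, List.reverse_append]
        funext x
        by_cases hx : x = j
        · subst hx; simp
        · by_cases hx' : x = i
          · subst hx'; simp [update_of_ne hx]
          · simp [update_of_ne hx, update_of_ne hx']
      rw [h3] at h1
      exact h1)
  have h0 : update (update s i ((s i).drop 0)) j (((s i).take 0).reverse ++ s j) = s := by simp
  have h1 : update (update s i ((s i).drop (s i).length)) j
      (((s i).take (s i).length).reverse ++ s j) =
      update (update s i []) j ((s i).reverse ++ s j) := by simp
  simp only [h0, h1] at h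
  exact h.monoT (by omega)

/-- pour the stack `i` into the stacks `j` and `j'` -/
def pour2 (i j j' : ℕ) : Prog Δ := .loop i (mvt2 i j j')

theorem pour2_det (i j j' : ℕ) : (pour2 i j j' : Prog Δ).Det := mvt2_det i j j'

theorem runs_pour2 {s : Mem} (i j j' : ℕ) (hij : i ≠ j) (hij' : i ≠ j') (hjj : j ≠ j')
    (hs : ∀ j, (s j).length ≤ B) (hB : (s i).length + (s j).length ≤ B)
    (hB' : (s i).length + (s j').length ≤ B) :
    Runs v B (pour2 i j j') s (update (update (update s i []) j ((s i).reverse ++ s j)) j'
      ((s i).reverse ++ s j')) (2 * (s i).length + 1) := by
  have h := Runs.loopN (v := v) (B := B) (i := i) (p := mvt2 i j j')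
    (fun k => update (update (update s i ((s i).drop k)) j (((s i).take k).reverse ++ s j)) j'
      (((s i).take k).reverse ++ s j')) (s i).length 1
    (by rw [update_of_ne hij', update_of_ne hij]; simp) (fun k hk => by
      rw [update_of_ne hij', update_of_ne hij]
      simpa using hk)
    (fun k hk => by
      have h2 : (update (update (update s i ((s i).drop k)) j (((s i).take k).reverse ++ s j)) j'
          (((s i).take k).reverse ++ s j')) i = (s i)[k] :: (s i).drop (k + 1) := by
        rw [update_of_ne hij', update_of_ne hij, update_self]
        exact List.drop_eq_getElem_cons hk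
      have h1 := runs_mvt2 (v := v) (B := B) i j j' hij hij' hjj h2
        (upd_le (upd_le (upd_le hs (by have := hs i; rw [List.length_drop]; omega)) (by
          rw [List.length_append, List.length_reverse, List.length_take]
          omega)) (by
          rw [List.length_append, List.length_reverse, List.length_take]
          omega))
        (by
          rw [update_of_ne hjj, update_self, List.length_append, List.length_reverse,
            List.length_take]
          omega)
        (by
          rw [update_self, List.length_append, List.length_reverse, List.length_take]
          omega)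
      rw [update_self, update_of_ne hjj, update_self] at h1
      have h3 : update (update (update (update (update (update s i ((s i).drop k)) j
          (((s i).take k).reverse ++ s j)) j' (((s i).take k).reverse ++ s j')) i
          ((s i).drop (k + 1))) j ((s i)[k] :: (((s i).take k).reverse ++ s j))) j'
          ((s i)[k] :: (((s i).take k).reverse ++ s j')) =
          update (update (update s i ((s i).drop (k + 1))) j
            (((s i).take (k + 1)).reverse ++ s j)) j' (((s i).take (k + 1)).reverse ++ s j') := by
        rw [List.take_succ_eq_append_getElem hk, List.reverse_append]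
        funext x
        by_cases hx'' : x = j'
        · subst hx''; simp
        · by_cases hx : x = j
          · subst hx; simp [update_of_ne hx'']
          · by_cases hx' : x = i
            · subst hx'; simp [update_of_ne hx, update_of_ne hx'']
            · simp [update_of_ne hx, update_of_ne hx', update_of_ne hx'']
      rw [h3] at h1
      exact h1)
  have h0 : update (update (update s i ((s i).drop 0)) j (((s i).take 0).reverse ++ s j)) j'
      (((s i).take 0).reverse ++ s j') = s := by simp
  have h1 : update (update (update s i ((s i).drop (s i).length)) j
      (((s i).take (s i).length).reverse ++ s j)) j'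
      (((s i).take (s i).length).reverse ++ s j') =
      update (update (update s i []) j ((s i).reverse ++ s j)) j' ((s i).reverse ++ s j') := by simp
  simp only [h0, h1] at h
  exact h.monoT (by omega)

/-- move the contents of the stack `i` to the empty stack `j`, with the help of the empty stack `t` -/
def mov (i j t : ℕ) : Prog Δ := .seq (pour i t) (pour t j)

theorem mov_det (i j t : ℕ) : (mov i j t : Prog Δ).Det := ⟨pour_det _ _, pour_det _ _⟩

theorem runs_mov {s : Mem} (i j t : ℕ) (hij : i ≠ j) (hit : i ≠ t) (hjt : j ≠ t)
    (hj : s j = []) (ht : s t = []) (hs : ∀ j, (s j).length ≤ B) :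
    Runs v B (mov i j t) s (update (update s i []) j (s i)) (4 * (s i).length + 3) := by
  have h1 := runs_pour (v := v) (B := B) (s := s) i t hit hs (by
    rw [ht]; simpa using hs i)
  rw [ht, List.append_nil] at h1
  have hs1 : ∀ k, (update (update s i []) t (s i).reverse k).length ≤ B :=
    upd_le (upd_le hs (Nat.zero_le _)) (by rw [List.length_reverse]; exact hs i)
  have h2 := runs_pour (v := v) (B := B) (s := update (update s i []) t (s i).reverse) t j
    (Ne.symm hjt) hs1 (by
      rw [update_self, update_of_ne hjt, update_of_ne (Ne.symm hij), hj, List.length_reverse]
      simpa using hs i)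
  rw [update_self, update_of_ne hjt, update_of_ne (Ne.symm hij), hj, List.append_nil,
    List.reverse_reverse, List.length_reverse] at h2
  have h3 : update (update (update (update s i []) t (s i).reverse) t []) j (s i) =
      update (update s i []) j (s i) := by
    rw [update_idem]
    congr 1
    funext x
    by_cases hx : x = t
    · subst hx; rw [update_self, update_of_ne (Ne.symm hit), ht]
    · rw [update_of_ne hx]
  rw [h3] at h2
  exact (h1.seq h2).monoT (by omega)

/-- copy the contents of the stack `i` to the empty stack `j`, with the help of the empty stack `t` -/
def cpy (i j t : ℕ) : Prog Δ := .seq (pour i t) (pour2 t i j)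

theorem cpy_det (i j t : ℕ) : (cpy i j t : Prog Δ).Det := ⟨pour_det _ _, pour2_det _ _ _⟩

theorem runs_cpy {s : Mem} (i j t : ℕ) (hij : i ≠ j) (hit : i ≠ t) (hjt : j ≠ t)
    (hj : s j = []) (ht : s t = []) (hs : ∀ j, (s j).length ≤ B) :
    Runs v B (cpy i j t) s (update s j (s i)) (4 * (s i).length + 3) := by
  have h1 := runs_pour (v := v) (B := B) (s := s) i t hit hs (by
    rw [ht]; simpa using hs i)
  rw [ht, List.append_nil] at h1
  have hs1 : ∀ k, (update (update s i []) t (s i).reverse k).length ≤ B :=
    upd_le (upd_le hs (Nat.zero_le _)) (by rw [List.length_reverse]; exact hs i)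
  have h2 := runs_pour2 (v := v) (B := B) (s := update (update s i []) t (s i).reverse) t i j
    (Ne.symm hit) (Ne.symm hjt) hij hs1 (by
      rw [update_self, update_of_ne hit, update_self, List.length_reverse]
      simpa using hs i) (by
      rw [update_self, update_of_ne hjt, update_of_ne (Ne.symm hij), hj, List.length_reverse]
      simpa using hs i)
  rw [update_self, update_of_ne hit, update_self, update_of_ne hjt, update_of_ne (Ne.symm hij), hj,
    List.append_nil, List.reverse_reverse, List.length_reverse] at h2
  have h3 : update (update (update (update (update s i []) t (s i).reverse) t []) i (s i)) j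
      (s i) = update s j (s i) := by
    rw [update_idem]
    congr 1
    funext x
    by_cases hx : x = i
    · subst hx; rw [update_self]
    · rw [update_of_ne hx]
      by_cases hx' : x = t
      · subst hx'; rw [update_self, ht]
      · rw [update_of_ne hx', update_of_ne hx]
  rw [h3] at h2
  exact (h1.seq h2).monoT (by omega)

end LSP
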