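import Pool.Agent.H85L.Basic

/-!
# A programming language for machines with stacks of bits

The memory is a family of stacks of bits, indexed by the natural numbers; the stack `0` is the address
stack. `Res v p s s' t`: the program `p`, on the view `v`, started with the memory `s` may end after `t`
moves with the memory `s'`. `Bd v B p s T`: every computation of `p` from `s` ends (or fails) within `T`
moves and no stack gets higher than `B`.
-/

set_option autoImplicit false

namespace LSP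

open H85L

/-- the memory -/
abbrev Mem := ℕ → List Bool

/-- Programs. `move k F`: one move of the stacks `0, ..., k - 1`, which depends on their top letters, on
what is seen at the current address and on the guessed bit; `ift i p0 p1 p2`: do `p0`, `p1`, `p2` if the
stack `i` is empty, has top `false`, has top `true`; `loop i p`: do `p` as long as the stack `i` is not
empty; `fail`: reject. -/
inductive Prog (Δ : Type) : Type
  | move (k : ℕ) (F : (Fin k → Option Bool) → Option Δ → Bool → Fin k → Op Bool)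
  | seq (p q : Prog Δ)
  | ift (i : ℕ) (p0 p1 p2 : Prog Δ)
  | loop (i : ℕ) (p : Prog Δ)
  | fail

variable {Δ : Type}

/-- the effect of a move -/
def doMove (k : ℕ) (F : (Fin k → Option Bool) → Option Δ → Bool → Fin k → Op Bool) (v : View Δ)
    (b : Bool) (s : Mem) : Mem := fun i =>
  if h : i < k then (F (fun j => (s j).head?) (v (s 0)) b ⟨i, h⟩).app (s i) else s i

/-- possible results -/
inductive Res (v : View Δ) : Prog Δ → Mem → Mem → ℕ → Prop
  | move (k : ℕ) (F : (Fin k → Option Bool) → Option Δ → Bool → Fin k → Op Bool) (s : Mem) (b : Bool) :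
      Res v (.move k F) s (doMove k F v b s) 1
  | seq {p q : Prog Δ} {s s1 s2 : Mem} {t1 t2 : ℕ} : Res v p s s1 t1 → Res v q s1 s2 t2 →
      Res v (.seq p q) s s2 (t1 + t2 + 1)
  | ift0 {i : ℕ} {p0 p1 p2 : Prog Δ} {s s' : Mem} {t : ℕ} : (s i).head? = none → Res v p0 s s' t →
      Res v (.ift i p0 p1 p2) s s' (t + 1)
  | ift1 {i : ℕ} {p0 p1 p2 : Prog Δ} {s s' : Mem} {t : ℕ} : (s i).head? = some false →
      Res v p1 s s' t → Res v (.ift i p0 p1 p2) s s' (t + 1)
  | ift2 {i : ℕ} {p0 p1 p2 : Prog Δ} {s s' : Mem} {t : ℕ} : (s i).head? = some true →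
      Res v p2 s s' t → Res v (.ift i p0 p1 p2) s s' (t + 1)
  | loop0 {i : ℕ} {p : Prog Δ} {s : Mem} : s i = [] → Res v (.loop i p) s s 1
  | loop1 {i : ℕ} {p : Prog Δ} {s s1 s2 : Mem} {t1 t2 : ℕ} : s i ≠ [] → Res v p s s1 t1 →
      Res v (.loop i p) s1 s2 t2 → Res v (.loop i p) s s2 (t1 + t2 + 1)

/-- bounds for the time and the heights of the stacks -/
inductive Bd (v : View Δ) (B : ℕ) : Prog Δ → Mem → ℕ → Prop
  | move {k : ℕ} {F : (Fin k → Option Bool) → Option Δ → Bool → Fin k → Op Bool} {s : Mem} :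
      (∀ b i, (doMove k F v b s i).length ≤ B) → Bd v B (.move k F) s 1
  | fail {s : Mem} : Bd v B .fail s 0
  | seq {p q : Prog Δ} {s : Mem} {T1 T2 : ℕ} : Bd v B p s T1 →
      (∀ s1 t, Res v p s s1 t → Bd v B q s1 T2) → Bd v B (.seq p q) s (T1 + T2 + 1)
  | ift0 {i : ℕ} {p0 p1 p2 : Prog Δ} {s : Mem} {T : ℕ} : (s i).head? = none → Bd v B p0 s T →
      Bd v B (.ift i p0 p1 p2) s (T + 1)
  | ift1 {i : ℕ} {p0 p1 p2 : Prog Δ} {s : Mem} {T : ℕ} : (s i).head? = some false → Bd v B p1 s T →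
      Bd v B (.ift i p0 p1 p2) s (T + 1)
  | ift2 {i : ℕ} {p0 p1 p2 : Prog Δ} {s : Mem} {T : ℕ} : (s i).head? = some true → Bd v B p2 s T →
      Bd v B (.ift i p0 p1 p2) s (T + 1)
  | loop0 {i : ℕ} {p : Prog Δ} {s : Mem} : s i = [] → Bd v B (.loop i p) s 1
  | loop1 {i : ℕ} {p : Prog Δ} {s : Mem} {T1 T2 : ℕ} : s i ≠ [] → Bd v B p s T1 →
      (∀ s1 t, Res v p s s1 t → Bd v B (.loop i p) s1 T2) → Bd v B (.loop i p) s (T1 + T2 + 1)
  | mono {p : Prog Δ} {s : Mem} {T T' : ℕ} : T ≤ T' → Bd v B p s T → Bd v B p s T'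

/-- the program only uses the stacks `0, ..., N - 1` -/
def Prog.Uses (N : ℕ) : Prog Δ → Prop
  | .move k _ => k ≤ N
  | .seq p q => p.Uses N ∧ q.Uses N
  | .ift i p0 p1 p2 => i < N ∧ p0.Uses N ∧ p1.Uses N ∧ p2.Uses N
  | .loop i p => i < N ∧ p.Uses N
  | .fail => True

/-- the program does not guess -/
def Prog.Det : Prog Δ → Prop
  | .move _ F => ∀ h o b b', F h o b = F h o b'
  | .seq p q => p.Det ∧ q.Det
  | .ift _ p0 p1 p2 => p0.Det ∧ p1.Det ∧ p2.Det
  | .loop _ p => p.Det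
  | .fail => True

theorem Prog.Uses.mono {N N' : ℕ} (h : N ≤ N') {p : Prog Δ} (hp : p.Uses N) : p.Uses N' := by
  induction p with
  | move k F => exact le_trans hp h
  | seq p q ihp ihq => exact ⟨ihp hp.1, ihq hp.2⟩
  | ift i p0 p1 p2 ih0 ih1 ih2 =>
    exact ⟨lt_of_lt_of_le hp.1 h, ih0 hp.2.1, ih1 hp.2.2.1, ih2 hp.2.2.2⟩
  | loop i p ih => exact ⟨lt_of_lt_of_le hp.1 h, ih hp.2⟩
  | fail => trivial

theorem Prog.exists_uses (p : Prog Δ) : ∃ N, p.Uses N := by
  induction p with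
  | move k F => exact ⟨k, le_rfl⟩
  | seq p q ihp ihq =>
    obtain ⟨N, hN⟩ := ihp
    obtain ⟨N', hN'⟩ := ihq
    exact ⟨max N N', hN.mono (le_max_left _ _), hN'.mono (le_max_right _ _)⟩
  | ift i p0 p1 p2 ih0 ih1 ih2 =>
    obtain ⟨N0, h0⟩ := ih0
    obtain ⟨N1, h1⟩ := ih1
    obtain ⟨N2, h2⟩ := ih2
    exact ⟨i + 1 + N0 + N1 + N2, by omega, h0.mono (by omega), h1.mono (by omega),
      h2.mono (by omega)⟩
  | loop i p ih =>
    obtain ⟨N, hN⟩ := ih
    exact ⟨i + 1 + N, by omega, hN.mono (by omega)⟩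
  | fail => exact ⟨0, trivial⟩

/-! ### The machine -/

/-- the next continuation -/
def ctrl : List (Prog Δ) → (ℕ → Option Bool) → List (Prog Δ)
  | [], _ => []
  | .move _ _ :: c, _ => c
  | .seq p q :: c, _ => p :: q :: c
  | .ift i p0 p1 p2 :: c, h => match h i with
    | none => p0 :: c
    | some false => p1 :: c
    | some true => p2 :: c
  | .loop i p :: c, h => match h i with
    | none => c
    | some _ => p :: .loop i p :: c
  | .fail :: c, _ => .fail :: c

/-- what is done to the stacks -/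
def opsOf : List (Prog Δ) → (ℕ → Option Bool) → Option Δ → Bool → ℕ → Op Bool
  | .move k F :: _, h, o, b, i => if hi : i < k then F (fun j => h j) o b ⟨i, hi⟩ else .stay
  | _, _, _, _, _ => .stay

/-- top letters of all stacks -/
def ext {N : ℕ} (h : Fin N → Option Bool) : ℕ → Option Bool := fun i =>
  if hi : i < N then h ⟨i, hi⟩ else none

/-- output -/
def outOf : List (Prog Δ) ⊕ Bool → Option Bool
  | .inl (.fail :: _) => some false
  | .inl _ => none
  | .inr b => some b

/-- the machine with all lists of programs as states -/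
def bigM (Δ : Type) (N : ℕ) (p : Prog Δ) : Mach Δ (List (Prog Δ) ⊕ Bool) Bool (Fin (N + 1)) where
  adr := 0
  bit := id
  start := .inl [p]
  out := outOf
  next := fun q h o b => match q with
    | .inl [] => (.inr (ext h 1).isSome, fun _ => .stay)
    | .inl c => (.inl (ctrl c (ext h)), fun i => opsOf c (ext h) o b i)
    | .inr b => (.inr b, fun _ => .stay)

/-- configurations -/
def emb (N : ℕ) (c : List (Prog Δ)) (s : Mem) :
    Cfg (List (Prog Δ) ⊕ Bool) Bool (Fin (N + 1)) := ⟨.inl c, fun i => s i⟩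

theorem ext_tops (N : ℕ) (s : Mem) (i : ℕ) (hi : i < N + 1) :
    ext (fun j : Fin (N + 1) => (s j).head?) i = (s i).head? := by
  unfold ext
  rw [dif_pos hi]

variable (N : ℕ) (p0 : Prog Δ)

theorem step_move (v : View Δ) (b : Bool) (k : ℕ)
    (F : (Fin k → Option Bool) → Option Δ → Bool → Fin k → Op Bool) (hk : k ≤ N + 1)
    (c : List (Prog Δ)) (s : Mem) :
    (bigM Δ N p0).step v b (emb N (.move k F :: c) s) = emb N c (doMove k F v b s) := by
  rw [Mach.step_live _ _ _ _ rfl]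
  unfold emb
  ext1
  · rfl
  · funext i
    show (if hi : (i : ℕ) < k then F (fun j => ext (fun j : Fin (N + 1) => (s j).head?) j)
      (v ((s ((0 : Fin (N + 1)) : ℕ)).map id)) b ⟨i, hi⟩ else Op.stay).app (s i) =
      doMove k F v b s i
    unfold doMove
    rw [List.map_id]
    by_cases hi : (i : ℕ) < k
    · rw [dif_pos hi, dif_pos hi]
      have : (fun j : Fin k => ext (fun j : Fin (N + 1) => (s j).head?) (j : ℕ)) =
          fun j : Fin k => (s j).head? := by
        funext j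
        exact ext_tops N s j (by have := j.2; omega)
      rw [this]
      rfl
    · rw [dif_neg hi, dif_neg hi]
      rfl

theorem step_seq (v : View Δ) (b : Bool) (p q : Prog Δ) (c : List (Prog Δ)) (s : Mem) :
    (bigM Δ N p0).step v b (emb N (.seq p q :: c) s) = emb N (p :: q :: c) s := by
  rw [Mach.step_live _ _ _ _ rfl]
  rfl

theorem step_ift (v : View Δ) (b : Bool) (i : ℕ) (hi : i < N + 1) (q0 q1 q2 : Prog Δ)
    (c : List (Prog Δ)) (s : Mem) :
    (bigM Δ N p0).step v b (emb N (.ift i q0 q1 q2 :: c) s) =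
      emb N ((match (s i).head? with
        | none => q0
        | some false => q1
        | some true => q2) :: c) s := by
  rw [Mach.step_live _ _ _ _ rfl]
  unfold emb
  ext1
  · show Sum.inl (match ext (fun j : Fin (N + 1) => (s j).head?) i with
      | none => q0 :: c
      | some false => q1 :: c
      | some true => q2 :: c) = _
    rw [ext_tops N s i hi]
    rcases (s i).head? with _ | _ | _ <;> rfl
  · rfl

theorem step_loop (v : View Δ) (b : Bool) (i : ℕ) (hi : i < N + 1) (q : Prog Δ)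
    (c : List (Prog Δ)) (s : Mem) :
    (bigM Δ N p0).step v b (emb N (.loop i q :: c) s) =
      emb N (if s i = [] then c else q :: .loop i q :: c) s := by
  rw [Mach.step_live _ _ _ _ rfl]
  unfold emb
  ext1
  · show Sum.inl (match ext (fun j : Fin (N + 1) => (s j).head?) i with
      | none => c
      | some _ => q :: .loop i q :: c) = _
    rw [ext_tops N s i hi]
    cases hs : s i with
    | nil => rfl
    | cons a l => simp
  · rfl

theorem step_end (v : View Δ) (b : Bool) (hN : 1 ≤ N) (s : Mem) :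
    (bigM Δ N p0).step v b (emb N [] s) = ⟨.inr (s 1).head?.isSome, fun i => s i⟩ := by
  rw [Mach.step_live _ _ _ _ rfl]
  unfold emb
  ext1
  · show Sum.inr (ext (fun j : Fin (N + 1) => (s j).head?) 1).isSome = _
    rw [ext_tops N s 1 (by omega)]
  · rfl

/-- what a computation does -/
def Does (v : View Δ) (B : ℕ) (q : Prog Δ) (s : Mem) (T : ℕ) : Prop :=
  ∀ (c : List (Prog Δ)) (g : ℕ → Bool), ∃ t ≤ T,
    (∀ t' ≤ t, ∀ i, (((bigM Δ N p0).runFrom v g (emb N (q :: c) s) t').s i).length ≤ B) ∧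
    ((∃ s', Res v q s s' t ∧ (∀ i, (s' i).length ≤ B) ∧
        (bigM Δ N p0).runFrom v g (emb N (q :: c) s) t = emb N c s') ∨
      ∃ s' c', (bigM Δ N p0).runFrom v g (emb N (q :: c) s) t = emb N (.fail :: c') s')

theorem runFrom_one (v : View Δ) (g : ℕ → Bool) (x : Cfg (List (Prog Δ) ⊕ Bool) Bool (Fin (N + 1)))
    (t : ℕ) : (bigM Δ N p0).runFrom v g x (1 + t) =
      (bigM Δ N p0).runFrom v (fun i => g (1 + i)) ((bigM Δ N p0).step v (g 0) x) t := by
  rw [Mach.runFrom_add]
  rfl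

/-- prepend one silent step -/
theorem does_step {v : View Δ} {B : ℕ} {q : Prog Δ} {s : Mem} {T : ℕ} (hs : ∀ i, (s i).length ≤ B)
    (q' : Prog Δ) (h : Does N p0 v B q' s T)
    (hstep : ∀ c b, (bigM Δ N p0).step v b (emb N (q :: c) s) = emb N (q' :: c) s)
    (hres : ∀ s' t, Res v q' s s' t → Res v q s s' (t + 1)) : Does N p0 v B q s (T + 1) := by
  intro c g
  obtain ⟨t, ht, hB, hr⟩ := h c (fun i => g (1 + i))
  refine ⟨1 + t, by omega, ?_, ?_⟩
  · intro t' ht' i
    rcases Nat.eq_zero_or_pos t' with h0 | h0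
    · subst h0
      exact hs i
    · obtain ⟨u, rfl⟩ := Nat.exists_eq_add_of_le h0
      rw [Nat.succ_eq_add_one, zero_add, runFrom_one, hstep]
      exact hB u (by omega) i
  · rw [runFrom_one, hstep]
    rcases hr with ⟨s', h1, h2, h3⟩ | ⟨s', c', h3⟩
    · left
      refine ⟨s', ?_, h2, h3⟩
      rw [add_comm 1 t]
      exact hres _ _ h1
    · right
      exact ⟨s', c', h3⟩

/-- two phases -/
theorem does_two {v : View Δ} {B : ℕ} {q q1 q2 : Prog Δ} {s : Mem} {T1 T2 : ℕ}
    (hs : ∀ i, (s i).length ≤ B) (h1 : Does N p0 v B q1 s T1)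
    (h2 : ∀ s1 t, Res v q1 s s1 t → (∀ i, (s1 i).length ≤ B) → Does N p0 v B q2 s1 T2)
    (hstep : ∀ c b, (bigM Δ N p0).step v b (emb N (q :: c) s) = emb N (q1 :: q2 :: c) s)
    (hres : ∀ s1 s' t t', Res v q1 s s1 t → Res v q2 s1 s' t' → Res v q s s' (t + t' + 1)) :
    Does N p0 v B q s (T1 + T2 + 1) := by
  intro c g
  obtain ⟨t, ht, hB, hr⟩ := h1 (q2 :: c) (fun i => g (1 + i))
  have hbound : ∀ t' ≤ 1 + t, ∀ i,
      (((bigM Δ N p0).runFrom v g (emb N (q :: c) s) t').s i).length ≤ B := by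
    intro t' ht' i
    rcases Nat.eq_zero_or_pos t' with h0 | h0
    · subst h0
      exact hs i
    · obtain ⟨u, rfl⟩ := Nat.exists_eq_add_of_le h0
      rw [Nat.succ_eq_add_one, zero_add, runFrom_one, hstep]
      exact hB u (by omega) i
  rcases hr with ⟨s1, hr1, hs1, hrun⟩ | ⟨s', c', hrun⟩
  · obtain ⟨t2, ht2, hB2, hr2⟩ := h2 s1 t hr1 hs1 c (fun i => g (1 + t + i))
    have hrun' : (bigM Δ N p0).runFrom v g (emb N (q :: c) s) (1 + t) = emb N (q2 :: c) s1 := by
      rw [runFrom_one, hstep, hrun]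
    refine ⟨1 + t + t2, by omega, ?_, ?_⟩
    · intro t' ht' i
      by_cases h : t' ≤ 1 + t
      · exact hbound t' h i
      · obtain ⟨u, rfl⟩ := Nat.exists_eq_add_of_le (show 1 + t ≤ t' by omega)
        rw [Mach.runFrom_add, hrun']
        exact hB2 u (by omega) i
    · rw [Mach.runFrom_add, hrun']
      rcases hr2 with ⟨s', a1, a2, a3⟩ | ⟨s', c', a3⟩
      · left
        refine ⟨s', ?_, a2, a3⟩
        rw [show 1 + t + t2 = t + t2 + 1 by omega]
        exact hres _ _ _ _ hr1 a1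
      · right
        exact ⟨s', c', a3⟩
  · refine ⟨1 + t, by omega, hbound, ?_⟩
    right
    refine ⟨s', c', ?_⟩
    rw [runFrom_one, hstep, hrun]

theorem Bd.does {v : View Δ} {B : ℕ} {q : Prog Δ} {s : Mem} {T : ℕ} (h : Bd v B q s T)
    (hq : q.Uses (N + 1)) (hs : ∀ i, (s i).length ≤ B) : Does N p0 v B q s T := by
  induction h with
  | @move k F s hB =>
    intro c g
    refine ⟨1, le_rfl, ?_, Or.inl ⟨_, Res.move k F s (g 0), hB (g 0), ?_⟩⟩
    · intro t' ht' i
      rcases Nat.eq_zero_or_pos t' with h0 | h0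
      · subst h0
        exact hs i
      · obtain rfl : t' = 1 := by omega
        show (((bigM Δ N p0).step v (g 0) (emb N (.move k F :: c) s)).s i).length ≤ B
        rw [step_move N p0 v (g 0) k F hq c s]
        exact hB (g 0) i
    · show (bigM Δ N p0).step v (g 0) (emb N (.move k F :: c) s) = _
      rw [step_move N p0 v (g 0) k F hq c s]
  | fail =>
    intro c g
    refine ⟨0, le_rfl, ?_, Or.inr ⟨_, c, rfl⟩⟩
    intro t' ht' i
    obtain rfl : t' = 0 := by omega
    exact hs i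
  | @seq p q s T1 T2 _ _ ih1 ih2 =>
    exact does_two N p0 hs (ih1 hq.1 hs) (fun s1 t h1 hs1 => ih2 s1 t h1 hq.2 hs1)
      (fun c b => step_seq N p0 v b p q c s) (fun _ _ _ _ a b => Res.seq a b)
  | @ift0 i q0 q1 q2 s T hh _ ih =>
    refine does_step N p0 hs q0 (ih hq.2.1 hs) (fun c b => ?_) (fun _ _ a => Res.ift0 hh a)
    rw [step_ift N p0 v b i hq.1, hh]
  | @ift1 i q0 q1 q2 s T hh _ ih =>
    refine does_step N p0 hs q1 (ih hq.2.2.1 hs) (fun c b => ?_) (fun _ _ a => Res.ift1 hh a)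
    rw [step_ift N p0 v b i hq.1, hh]
  | @ift2 i q0 q1 q2 s T hh _ ih =>
    refine does_step N p0 hs q2 (ih hq.2.2.2 hs) (fun c b => ?_) (fun _ _ a => Res.ift2 hh a)
    rw [step_ift N p0 v b i hq.1, hh]
  | @loop0 i p s hh =>
    intro c g
    refine ⟨1, le_rfl, ?_, Or.inl ⟨s, Res.loop0 hh, hs, ?_⟩⟩
    · intro t' ht' j
      rcases Nat.eq_zero_or_pos t' with h0 | h0
      · subst h0
        exact hs j
      · obtain rfl : t' = 1 := by omega
        show (((bigM Δ N p0).step v (g 0) (emb N (.loop i p :: c) s)).s j).length ≤ B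
        rw [step_loop N p0 v (g 0) i hq.1, if_pos hh]
        exact hs j
    · show (bigM Δ N p0).step v (g 0) (emb N (.loop i p :: c) s) = _
      rw [step_loop N p0 v (g 0) i hq.1, if_pos hh]
  | @loop1 i p s T1 T2 hh _ _ ih1 ih2 =>
    refine does_two N p0 hs (ih1 hq.2 hs) (fun s1 t h1 hs1 => ih2 s1 t h1 hq hs1)
      (fun c b => ?_) (fun _ _ _ _ a b => Res.loop1 hh a b)
    rw [step_loop N p0 v b i hq.1, if_neg hh]
  | @mono p s T T' hT _ ih =>
    intro c g
    obtain ⟨t, ht, h⟩ := ih hq hs c g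
    exact ⟨t, ht.trans hT, h⟩

theorem Res.runs {v : View Δ} {q : Prog Δ} {s s' : Mem} {t : ℕ} (h : Res v q s s' t)
    (hq : q.Uses (N + 1)) : ∀ c, ∃ g,
      (bigM Δ N p0).runFrom v g (emb N (q :: c) s) t = emb N c s' := by
  have two : ∀ (q q1 q2 : Prog Δ) (s s1 s' : Mem) (t1 t2 : ℕ),
      (∀ c, ∃ g, (bigM Δ N p0).runFrom v g (emb N (q1 :: c) s) t1 = emb N c s1) →
      (∀ c, ∃ g, (bigM Δ N p0).runFrom v g (emb N (q2 :: c) s1) t2 = emb N c s') →
      (∀ c b, (bigM Δ N p0).step v b (emb N (q :: c) s) = emb N (q1 :: q2 :: c) s) →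
      ∀ c, ∃ g, (bigM Δ N p0).runFrom v g (emb N (q :: c) s) (t1 + t2 + 1) = emb N c s' := by
    intro q q1 q2 s s1 s' t1 t2 h1 h2 hstep c
    obtain ⟨g1, hg1⟩ := h1 (q2 :: c)
    obtain ⟨g2, hg2⟩ := h2 c
    refine ⟨fun i => if i < 1 + t1 then g1 (i - 1) else g2 (i - (1 + t1)), ?_⟩
    rw [show t1 + t2 + 1 = 1 + t1 + t2 by omega, Mach.runFrom_add, runFrom_one, hstep]
    rw [Mach.runFrom_congr (bigM Δ N p0) v _ g1 _ t1 (fun i hi => by
      rw [if_pos (by omega)]
      congr 1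
      omega), hg1]
    rw [Mach.runFrom_congr (bigM Δ N p0) v _ g2 _ t2 (fun i hi => by
      rw [if_neg (by omega)]
      congr 1
      omega), hg2]
  have one : ∀ (q q1 : Prog Δ) (s s' : Mem) (t : ℕ),
      (∀ c, ∃ g, (bigM Δ N p0).runFrom v g (emb N (q1 :: c) s) t = emb N c s') →
      (∀ c b, (bigM Δ N p0).step v b (emb N (q :: c) s) = emb N (q1 :: c) s) →
      ∀ c, ∃ g, (bigM Δ N p0).runFrom v g (emb N (q :: c) s) (t + 1) = emb N c s' := by
    intro q q1 s s' t h1 hstep c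
    obtain ⟨g1, hg1⟩ := h1 c
    refine ⟨fun i => g1 (i - 1), ?_⟩
    rw [add_comm t 1, runFrom_one, hstep]
    rw [Mach.runFrom_congr (bigM Δ N p0) v _ g1 _ t (fun i hi => by
      congr 1
      omega), hg1]
  induction h with
  | move k F s b =>
    intro c
    exact ⟨fun _ => b, step_move N p0 v b k F hq c s⟩
  | @seq p q s s1 s2 t1 t2 _ _ ih1 ih2 =>
    exact two _ _ _ _ _ _ _ _ (ih1 hq.1) (ih2 hq.2) (fun c b => step_seq N p0 v b p q c s)
  | @ift0 i q0 q1 q2 s s' t hh _ ih =>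
    refine one _ _ _ _ _ (ih hq.2.1) (fun c b => ?_)
    rw [step_ift N p0 v b i hq.1, hh]
  | @ift1 i q0 q1 q2 s s' t hh _ ih =>
    refine one _ _ _ _ _ (ih hq.2.2.1) (fun c b => ?_)
    rw [step_ift N p0 v b i hq.1, hh]
  | @ift2 i q0 q1 q2 s s' t hh _ ih =>
    refine one _ _ _ _ _ (ih hq.2.2.2) (fun c b => ?_)
    rw [step_ift N p0 v b i hq.1, hh]
  | @loop0 i p s hh =>
    intro c
    refine ⟨fun _ => false, ?_⟩
    show (bigM Δ N p0).step v false (emb N (.loop i p :: c) s) = _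
    rw [step_loop N p0 v false i hq.1, if_pos hh]
  | @loop1 i p s s1 s2 t1 t2 hh _ _ ih1 ih2 =>
    refine two _ _ _ _ _ _ _ _ (ih1 hq.2) (ih2 hq) (fun c b => ?_)
    rw [step_loop N p0 v b i hq.1, if_neg hh]

end LSP
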