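import Pool.Agent.H69P.Prog

/-!
# Single-valued programs

`Runs v B p s s' T`: every computation of `p` from the memory `s` fails or ends in the memory `s'`, within
`T` moves, and at least one computation does not fail; no stack gets higher than `B`.
-/

set_option autoImplicit false

namespace LSP

open H85L

variable {Δ : Type} {v : View Δ} {B B' : ℕ}

theorem Bd.mono_B {p : Prog Δ} {s : Mem} {T : ℕ} (hB : B ≤ B') (h : Bd v B p s T) :
    Bd v B' p s T := by
  induction h with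
  | move h => exact .move fun b i => (h b i).trans hB
  | fail => exact .fail
  | seq _ _ ih1 ih2 => exact .seq ih1 ih2
  | ift0 h _ ih => exact .ift0 h ih
  | ift1 h _ ih => exact .ift1 h ih
  | ift2 h _ ih => exact .ift2 h ih
  | loop0 h => exact .loop0 h
  | loop1 h _ _ ih1 ih2 => exact .loop1 h ih1 ih2
  | mono h _ ih => exact .mono h ih

/-- single-valued programs -/
structure Runs (v : View Δ) (B : ℕ) (p : Prog Δ) (s s' : Mem) (T : ℕ) : Prop where
  bd : Bd v B p s T
  ex : ∃ t, Res v p s s' t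
  un : ∀ s'' t, Res v p s s'' t → s'' = s'

theorem Runs.mono {p : Prog Δ} {s s' : Mem} {T T' : ℕ} (h : Runs v B p s s' T) (hB : B ≤ B')
    (hT : T ≤ T') : Runs v B' p s s' T' :=
  ⟨.mono hT (h.bd.mono_B hB), h.ex, h.un⟩

theorem Runs.monoT {p : Prog Δ} {s s' : Mem} {T T' : ℕ} (h : Runs v B p s s' T)
    (hT : T ≤ T') : Runs v B p s s' T' := h.mono le_rfl hT

theorem Runs.monoB {p : Prog Δ} {s s' : Mem} {T : ℕ} (h : Runs v B p s s' T)
    (hB : B ≤ B') : Runs v B' p s s' T := h.mono hB le_rfl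

theorem Runs.move {k : ℕ} {F : (Fin k → Option Bool) → Option Δ → Bool → Fin k → Op Bool}
    {s s' : Mem} (h : ∀ b, doMove k F v b s = s') (hB : ∀ i, (s' i).length ≤ B) :
    Runs v B (.move k F) s s' 1 := by
  refine ⟨.move fun b i => by rw [h]; exact hB i, ⟨1, ?_⟩, ?_⟩
  · have := Res.move (v := v) k F s true
    rwa [h] at this
  · intro s'' t hr
    cases hr with
    | move _ _ _ b => exact h b

theorem Runs.seq {p q : Prog Δ} {s s1 s2 : Mem} {T1 T2 : ℕ} (h1 : Runs v B p s s1 T1)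
    (h2 : Runs v B q s1 s2 T2) : Runs v B (.seq p q) s s2 (T1 + T2 + 1) := by
  obtain ⟨t1, e1⟩ := h1.ex
  obtain ⟨t2, e2⟩ := h2.ex
  refine ⟨.seq h1.bd fun s' t hr => ?_, ⟨_, .seq e1 e2⟩, ?_⟩
  · rw [h1.un s' t hr]
    exact h2.bd
  · intro s'' t hr
    cases hr with
    | seq a b =>
      rw [h1.un _ _ a] at b
      exact h2.un _ _ b

theorem Runs.ift0 {i : ℕ} {p0 p1 p2 : Prog Δ} {s s' : Mem} {T : ℕ} (hh : s i = [])
    (h : Runs v B p0 s s' T) : Runs v B (.ift i p0 p1 p2) s s' (T + 1) := by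
  have hh' : (s i).head? = none := by rw [hh]; rfl
  obtain ⟨t, e⟩ := h.ex
  refine ⟨.ift0 hh' h.bd, ⟨_, .ift0 hh' e⟩, ?_⟩
  intro s'' t hr
  cases hr with
  | ift0 _ a => exact h.un _ _ a
  | ift1 b a => rw [hh'] at b; simp at b
  | ift2 b a => rw [hh'] at b; simp at b

theorem Runs.ift1 {i : ℕ} {p0 p1 p2 : Prog Δ} {s s' : Mem} {T : ℕ} {l : List Bool}
    (hh : s i = false :: l) (h : Runs v B p1 s s' T) :
    Runs v B (.ift i p0 p1 p2) s s' (T + 1) := by
  have hh' : (s i).head? = some false := by rw [hh]; rfl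
  obtain ⟨t, e⟩ := h.ex
  refine ⟨.ift1 hh' h.bd, ⟨_, .ift1 hh' e⟩, ?_⟩
  intro s'' t hr
  cases hr with
  | ift1 _ a => exact h.un _ _ a
  | ift0 b a => rw [hh'] at b; simp at b
  | ift2 b a => rw [hh'] at b; simp at b

theorem Runs.ift2 {i : ℕ} {p0 p1 p2 : Prog Δ} {s s' : Mem} {T : ℕ} {l : List Bool}
    (hh : s i = true :: l) (h : Runs v B p2 s s' T) :
    Runs v B (.ift i p0 p1 p2) s s' (T + 1) := by
  have hh' : (s i).head? = some true := by rw [hh]; rfl
  obtain ⟨t, e⟩ := h.ex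
  refine ⟨.ift2 hh' h.bd, ⟨_, .ift2 hh' e⟩, ?_⟩
  intro s'' t hr
  cases hr with
  | ift2 _ a => exact h.un _ _ a
  | ift0 b a => rw [hh'] at b; simp at b
  | ift1 b a => rw [hh'] at b; simp at b

theorem Runs.loop0 {i : ℕ} {p : Prog Δ} {s : Mem} (hh : s i = []) :
    Runs v B (.loop i p) s s 1 := by
  refine ⟨.loop0 hh, ⟨_, .loop0 hh⟩, ?_⟩
  intro s'' t hr
  cases hr with
  | loop0 _ => rfl
  | loop1 a _ _ => exact absurd hh a

theorem Runs.loop1 {i : ℕ} {p : Prog Δ} {s s1 s2 : Mem} {T1 T2 : ℕ} (hh : s i ≠ [])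
    (h1 : Runs v B p s s1 T1) (h2 : Runs v B (.loop i p) s1 s2 T2) :
    Runs v B (.loop i p) s s2 (T1 + T2 + 1) := by
  obtain ⟨t1, e1⟩ := h1.ex
  obtain ⟨t2, e2⟩ := h2.ex
  refine ⟨.loop1 hh h1.bd fun s' t hr => ?_, ⟨_, .loop1 hh e1 e2⟩, ?_⟩
  · rw [h1.un s' t hr]
    exact h2.bd
  · intro s'' t hr
    cases hr with
    | loop0 a => exact absurd a hh
    | loop1 _ a b =>
      rw [h1.un _ _ a] at b
      exact h2.un _ _ b

/-- a loop which runs through the memories `m 0, ..., m n` -/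
theorem Runs.loopN {i : ℕ} {p : Prog Δ} (m : ℕ → Mem) (n T : ℕ) (hend : m n i = [])
    (hne : ∀ j < n, m j i ≠ []) (h : ∀ j < n, Runs v B p (m j) (m (j + 1)) T) :
    Runs v B (.loop i p) (m 0) (m n) (n * (T + 1) + 1) := by
  induction n generalizing m with
  | zero => exact (Runs.loop0 hend).monoT (by omega)
  | succ n ih =>
    have h2 := ih (fun j => m (j + 1)) hend (fun j hj => hne (j + 1) (by omega))
      (fun j hj => h (j + 1) (by omega))
    exact (Runs.loop1 (hne 0 (by omega)) (h 0 (by omega)) h2).monoT (by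
      rw [Nat.succ_mul]
      omega)

/-- do the programs of a list one after the other -/
def seqs : List (Prog Δ) → Prog Δ
  | [] => .move 0 fun _ _ _ i => i.elim0
  | p :: l => .seq p (seqs l)

theorem doMove_zero (F : (Fin 0 → Option Bool) → Option Δ → Bool → Fin 0 → Op Bool) (b : Bool)
    (s : Mem) : doMove 0 F v b s = s := by
  funext i
  unfold doMove
  rw [dif_neg (Nat.not_lt_zero i)]

theorem Runs.seqs_nil {s : Mem} (hB : ∀ i, (s i).length ≤ B) : Runs v B (seqs []) s s 1 :=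
  Runs.move (fun b => doMove_zero _ b s) hB

theorem Runs.seqs_cons {p : Prog Δ} {l : List (Prog Δ)} {s s1 s2 : Mem} {T1 T2 : ℕ}
    (h1 : Runs v B p s s1 T1) (h2 : Runs v B (seqs l) s1 s2 T2) :
    Runs v B (seqs (p :: l)) s s2 (T1 + T2 + 1) := h1.seq h2

theorem seqs_det {l : List (Prog Δ)} (h : ∀ p ∈ l, p.Det) : (seqs l).Det := by
  induction l with
  | nil => intro _ _ _ _; funext i; exact i.elim0
  | cons p l ih =>
    exact ⟨h p List.mem_cons_self, ih fun q hq => h q (List.mem_cons_of_mem _ hq)⟩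

/-- a sequence of programs which runs through the memories `m 0, ..., m n` -/
theorem Runs.seqsN {n : ℕ} (P : ℕ → Prog Δ) (m : ℕ → Mem) (T : ℕ)
    (hB : ∀ i, (m n i).length ≤ B) (h : ∀ j < n, Runs v B (P j) (m j) (m (j + 1)) T) :
    Runs v B (seqs ((List.range n).map P)) (m 0) (m n) (n * (T + 1) + 1) := by
  induction n generalizing m P with
  | zero => exact (Runs.seqs_nil hB).monoT (by omega)
  | succ n ih =>
    rw [List.range_succ_eq_map, List.map_cons, List.map_map]
    have h2 := ih (fun j => P (j + 1)) (fun j => m (j + 1)) hB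
      (fun j hj => h (j + 1) (by omega))
    exact ((h 0 (by omega)).seqs_cons h2).monoT (by
      rw [Nat.succ_mul]
      omega)

end LSP
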