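import Pool.Agent.H69P.IncDec

/-!
# Shifting the stacks of a program
-/

set_option autoImplicit false

namespace LSP

open H85L Function

variable {Δ : Type}

/-- the program `p` with the stacks `N, N + 1, ...` instead of `0, 1, ...` -/
def Prog.shift (N : ℕ) : Prog Δ → Prog Δ
  | .move k F => .move (N + k) fun h o b i =>
      if hi : (i : ℕ) < N then .stay
      else F (fun j => h ⟨N + j, by omega⟩) o b ⟨i - N, by omega⟩
  | .seq p q => .seq (p.shift N) (q.shift N)
  | .ift i p0 p1 p2 => .ift (N + i) (p0.shift N) (p1.shift N) (p2.shift N)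
  | .loop i p => .loop (N + i) (p.shift N)
  | .fail => .fail

theorem shift_det (N : ℕ) {p : Prog Δ} (hp : p.Det) : (p.shift N).Det := by
  induction p with
  | move k F =>
    intro h o b b'
    funext i
    show (if hi : (i : ℕ) < N then Op.stay else _) = if hi : (i : ℕ) < N then Op.stay else _
    by_cases hi : (i : ℕ) < N
    · rw [dif_pos hi, dif_pos hi]
    · rw [dif_neg hi, dif_neg hi, hp _ _ b b']
  | seq p q ihp ihq => exact ⟨ihp hp.1, ihq hp.2⟩
  | ift i p0 p1 p2 h0 h1 h2 => exact ⟨h0 hp.1, h1 hp.2.1, h2 hp.2.2⟩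
  | loop i p ih => exact ih hp
  | fail => trivial

/-- the memory `s` in the upper part -/
def glue (N : ℕ) (S s : Mem) : Mem := fun i => if i < N then S i else s (i - N)

theorem glue_lo {N : ℕ} {S s : Mem} {i : ℕ} (hi : i < N) : glue N S s i = S i := if_pos hi

theorem glue_hi {N : ℕ} {S s : Mem} (i : ℕ) : glue N S s (N + i) = s i := by
  unfold glue
  rw [if_neg (by omega)]
  congr 1
  omega

theorem glue_move (v : View Δ) (N : ℕ) (hN : 0 < N) (k : ℕ)
    (F : (Fin k → Option Bool) → Option Δ → Bool → Fin k → Op Bool) (b : Bool) (S s : Mem) :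
    doMove (N + k) (fun h o b i =>
      if hi : (i : ℕ) < N then .stay
      else F (fun j => h ⟨N + j, by omega⟩) o b ⟨i - N, by omega⟩) v b (glue N S s) =
    glue N S (doMove k F (fun _ => v (S 0)) b s) := by
  funext i
  by_cases hi : i < N
  · rw [glue_lo hi]
    unfold doMove
    rw [dif_pos (by omega)]
    show (if hi : (i : ℕ) < N then Op.stay else _).app _ = _
    rw [dif_pos hi]
    show glue N S s i = S i
    exact glue_lo hi
  · obtain ⟨j, rfl⟩ := Nat.exists_eq_add_of_le (show N ≤ i by omega)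
    rw [glue_hi]
    unfold doMove
    by_cases hj : j < k
    · rw [dif_pos (by omega), dif_pos hj]
      show (if hi : N + j < N then Op.stay else F (fun j' => (glue N S s (N + j')).head?)
        (v (glue N S s 0)) b ⟨N + j - N, by omega⟩).app (glue N S s (N + j)) = _
      rw [dif_neg (by omega)]
      have h1 : (fun j' : Fin k => (glue N S s (N + j')).head?) = fun j' : Fin k => (s j').head? := by
        funext j'
        rw [glue_hi]
      have h2 : (⟨N + j - N, by omega⟩ : Fin k) = ⟨j, hj⟩ := by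
        ext
        show N + j - N = j
        omega
      rw [h1, h2, glue_hi, glue_lo hN]
    · rw [dif_neg (by omega), dif_neg hj, glue_hi]

theorem shift_res {v : View Δ} {N : ℕ} (hN : 0 < N) {S : Mem} {p : Prog Δ} {s s' : Mem} {t : ℕ}
    (h : Res (fun _ => v (S 0)) p s s' t) : Res v (p.shift N) (glue N S s) (glue N S s') t := by
  induction h with
  | move k F s b =>
    have := Res.move (v := v) (N + k) (fun h o b i =>
      if hi : (i : ℕ) < N then .stay
      else F (fun j => h ⟨N + j, by omega⟩) o b ⟨i - N, by omega⟩) (glue N S s) b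
    rw [glue_move v N hN k F b S s] at this
    exact this
  | seq _ _ ih1 ih2 => exact .seq ih1 ih2
  | ift0 h _ ih => exact .ift0 (by rw [glue_hi]; exact h) ih
  | ift1 h _ ih => exact .ift1 (by rw [glue_hi]; exact h) ih
  | ift2 h _ ih => exact .ift2 (by rw [glue_hi]; exact h) ih
  | loop0 h => exact .loop0 (by rw [glue_hi]; exact h)
  | loop1 h _ _ ih1 ih2 => exact .loop1 (by rw [glue_hi]; exact h) ih1 ih2

theorem res_shift {v : View Δ} {N : ℕ} (hN : 0 < N) {S : Mem} {p q : Prog Δ} {s S1 S' : Mem}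
    {t : ℕ} (h : Res v q S1 S' t) (hq : q = p.shift N) (hS : S1 = glue N S s) :
    ∃ s', S' = glue N S s' ∧ Res (fun _ => v (S 0)) p s s' t := by
  induction h generalizing p s with
  | move k' F' s1 b =>
    cases p with
    | move k F =>
      simp only [Prog.shift, Prog.move.injEq] at hq
      obtain ⟨rfl, h2⟩ := hq
      rw [heq_iff_eq] at h2
      subst h2
      subst hS
      refine ⟨doMove k F (fun _ => v (S 0)) b s, ?_, Res.move k F s b⟩
      exact glue_move v N hN k F b S s
    | seq p q => simp [Prog.shift] at hq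
    | ift i p0 p1 p2 => simp [Prog.shift] at hq
    | loop i p => simp [Prog.shift] at hq
    | fail => simp [Prog.shift] at hq
  | @seq p1 q1 s1 s2 s3 t1 t2 _ _ ih1 ih2 =>
    cases p with
    | seq p q =>
      simp only [Prog.shift, Prog.seq.injEq] at hq
      obtain ⟨s', e1, r1⟩ := ih1 hq.1 hS
      obtain ⟨s'', e2, r2⟩ := ih2 hq.2 e1
      exact ⟨s'', e2, .seq r1 r2⟩
    | move k F => simp [Prog.shift] at hq
    | ift i p0 p1 p2 => simp [Prog.shift] at hq
    | loop i p => simp [Prog.shift] at hq
    | fail => simp [Prog.shift] at hq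
  | ift0 hh _ ih =>
    cases p with
    | ift i p0 p1 p2 =>
      simp only [Prog.shift, Prog.ift.injEq] at hq
      obtain ⟨rfl, rfl, rfl, rfl⟩ := hq
      obtain ⟨s', e1, r1⟩ := ih rfl hS
      subst hS
      rw [glue_hi] at hh
      exact ⟨s', e1, .ift0 hh r1⟩
    | move k F => simp [Prog.shift] at hq
    | seq p q => simp [Prog.shift] at hq
    | loop i p => simp [Prog.shift] at hq
    | fail => simp [Prog.shift] at hq
  | ift1 hh _ ih =>
    cases p with
    | ift i p0 p1 p2 =>
      simp only [Prog.shift, Prog.ift.injEq] at hq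
      obtain ⟨rfl, rfl, rfl, rfl⟩ := hq
      obtain ⟨s', e1, r1⟩ := ih rfl hS
      subst hS
      rw [glue_hi] at hh
      exact ⟨s', e1, .ift1 hh r1⟩
    | move k F => simp [Prog.shift] at hq
    | seq p q => simp [Prog.shift] at hq
    | loop i p => simp [Prog.shift] at hq
    | fail => simp [Prog.shift] at hq
  | ift2 hh _ ih =>
    cases p with
    | ift i p0 p1 p2 =>
      simp only [Prog.shift, Prog.ift.injEq] at hq
      obtain ⟨rfl, rfl, rfl, rfl⟩ := hq
      obtain ⟨s', e1, r1⟩ := ih rfl hS
      subst hS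
      rw [glue_hi] at hh
      exact ⟨s', e1, .ift2 hh r1⟩
    | move k F => simp [Prog.shift] at hq
    | seq p q => simp [Prog.shift] at hq
    | loop i p => simp [Prog.shift] at hq
    | fail => simp [Prog.shift] at hq
  | loop0 hh =>
    cases p with
    | loop i p =>
      simp only [Prog.shift, Prog.loop.injEq] at hq
      obtain ⟨rfl, rfl⟩ := hq
      subst hS
      rw [glue_hi] at hh
      exact ⟨s, rfl, .loop0 hh⟩
    | move k F => simp [Prog.shift] at hq
    | seq p q => simp [Prog.shift] at hq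
    | ift i p0 p1 p2 => simp [Prog.shift] at hq
    | fail => simp [Prog.shift] at hq
  | @loop1 i1 p1 s1 s2 s3 t1 t2 hh _ _ ih1 ih2 =>
    cases p with
    | loop i p =>
      have hq' := hq
      simp only [Prog.shift, Prog.loop.injEq] at hq
      obtain ⟨rfl, rfl⟩ := hq
      obtain ⟨s', e1, r1⟩ := ih1 rfl hS
      obtain ⟨s'', e2, r2⟩ := ih2 (p := .loop i p) rfl e1
      subst hS
      rw [glue_hi] at hh
      exact ⟨s'', e2, .loop1 hh r1 r2⟩
    | move k F => simp [Prog.shift] at hq
    | seq p q => simp [Prog.shift] at hq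
    | ift i p0 p1 p2 => simp [Prog.shift] at hq
    | fail => simp [Prog.shift] at hq

theorem glue_le {N B : ℕ} {S s : Mem} (hS : ∀ i, (S i).length ≤ B) (hs : ∀ i, (s i).length ≤ B) :
    ∀ i, (glue N S s i).length ≤ B := by
  intro i
  unfold glue
  split_ifs
  · exact hS i
  · exact hs _

theorem shift_bd {v : View Δ} {N B : ℕ} (hN : 0 < N) {S : Mem} (hS : ∀ i, (S i).length ≤ B)
    {p : Prog Δ} {s : Mem} {T : ℕ} (h : Bd (fun _ => v (S 0)) B p s T) :
    Bd v B (p.shift N) (glue N S s) T := by
  induction h with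
  | @move k F s h =>
    refine .move fun b i => ?_
    rw [glue_move v N hN k F b S s]
    exact glue_le hS (h b) i
  | fail => exact .fail
  | seq _ _ ih1 ih2 =>
    refine .seq ih1 fun s1 t hr => ?_
    obtain ⟨s', rfl, r⟩ := res_shift hN hr rfl rfl
    exact ih2 s' t r
  | ift0 h _ ih => exact .ift0 (by rw [glue_hi]; exact h) ih
  | ift1 h _ ih => exact .ift1 (by rw [glue_hi]; exact h) ih
  | ift2 h _ ih => exact .ift2 (by rw [glue_hi]; exact h) ih
  | loop0 h => exact .loop0 (by rw [glue_hi]; exact h)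
  | loop1 h _ _ ih1 ih2 =>
    refine .loop1 (by rw [glue_hi]; exact h) ih1 fun s1 t hr => ?_
    obtain ⟨s', rfl, r⟩ := res_shift hN hr rfl rfl
    exact ih2 s' t r
  | mono h _ ih => exact .mono h ih

theorem Runs.shift {v : View Δ} {N B : ℕ} (hN : 0 < N) {S : Mem} (hS : ∀ i, (S i).length ≤ B)
    {p : Prog Δ} {s s' : Mem} {T : ℕ} (h : Runs (fun _ => v (S 0)) B p s s' T) :
    Runs v B (p.shift N) (glue N S s) (glue N S s') T := by
  obtain ⟨t, e⟩ := h.ex
  refine ⟨shift_bd hN hS h.bd, ⟨t, shift_res hN e⟩, fun s'' t hr => ?_⟩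
  obtain ⟨s1, rfl, r⟩ := res_shift hN hr rfl rfl
  rw [h.un _ _ r]

end LSP
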